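import Mathlib
import Pool.Agent.H39Z.SSS.Spec

set_option autoImplicit false
set_option maxHeartbeats 400000

namespace Pool.Agent.H455Z.SSSFact

open Polynomial Pool.Agent.H39Z.SSS UniqueFactorizationMonoid

lemma res_ge (f g : ℤ[X]) (n : ℕ) (hf : f ≠ 0) (hg : g.natDegree ≤ n)
    (h : ∀ z ∈ f.aroots ℂ, aeval z g ≠ 0) :
    1 ≤ |(f.leadingCoeff : ℝ)| ^ n * ((f.aroots ℂ).map fun z => ‖aeval z g‖).prod := by
  have inj : Function.Injective (algebraMap ℤ ℂ) := (algebraMap ℤ ℂ).injective_int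
  have h1 := resultant_eq_prod_eval (f.map (algebraMap ℤ ℂ)) (g.map (algebraMap ℤ ℂ)) n
    (natDegree_map_le.trans hg) (IsAlgClosed.splits _)
  rw [resultant_map_map, leadingCoeff_map_of_injective inj, ← aroots_def] at h1
  have h2 : (Multiset.map (fun z => eval z (g.map (algebraMap ℤ ℂ))) (f.aroots ℂ)) =
      (f.aroots ℂ).map fun z => aeval z g := by simp only [eval_map_algebraMap]
  rw [h2] at h1
  have h3 : resultant f g (f.map (algebraMap ℤ ℂ)).natDegree n ≠ 0 := by
    intro h0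
    rw [h0, map_zero] at h1
    refine mul_ne_zero (pow_ne_zero _ ?_) (Multiset.prod_ne_zero ?_) h1.symm
    · simpa using hf
    · intro h4
      obtain ⟨z, hz, h5⟩ := Multiset.mem_map.1 h4
      exact h z hz h5
  have h4 := congrArg (fun t : ℂ => ‖t‖) h1
  simp only [eq_intCast, Complex.norm_intCast, norm_mul, norm_pow] at h4
  have h5 : ‖((f.aroots ℂ).map fun z => aeval z g).prod‖ =
      ((f.aroots ℂ).map fun z => ‖aeval z g‖).prod := by
    have := map_multiset_prod (normHom : ℂ →*₀ ℝ) ((f.aroots ℂ).map fun z => aeval z g)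
    simpa [Multiset.map_map] using this
  rw [← h5, ← h4]
  exact_mod_cast Int.one_le_abs h3

lemma irr_map {q : ℤ[X]} (hq : Irreducible q) (hd : 0 < q.natDegree) :
    q.IsPrimitive ∧ Irreducible (q.map (Int.castRingHom ℚ)) :=
  ⟨hq.isPrimitive hd.ne', (IsPrimitive.Int.irreducible_iff_irreducible_map_cast
    (hq.isPrimitive hd.ne')).1 hq⟩

lemma nodup {q : ℤ[X]} (hq : Irreducible q) (hd : 0 < q.natDegree) : (q.aroots ℂ).Nodup := by
  have h := ((irr_map hq hd).2.separable).map (f := algebraMap ℚ ℂ)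
  rw [Polynomial.map_map] at h
  have e : (algebraMap ℚ ℂ).comp (Int.castRingHom ℚ) = algebraMap ℤ ℂ := Subsingleton.elim _ _
  rw [e] at h
  exact nodup_roots h

lemma rt_val {q : ℤ[X]} (hq : Irreducible q) (hd : 0 < q.natDegree) : (rt q).val = q.aroots ℂ := by
  classical
  unfold rt
  convert Multiset.dedup_eq_self.2 (nodup hq hd)
  exact Multiset.toFinset_val _

lemma card_rt {q : ℤ[X]} (hq : Irreducible q) (hd : 0 < q.natDegree) :
    (rt q).card = q.natDegree := by
  have inj : Function.Injective (algebraMap ℤ ℂ) := (algebraMap ℤ ℂ).injective_int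
  rw [Finset.card, rt_val hq hd, aroots_def, ← (IsAlgClosed.splits _).natDegree_eq_card_roots,
    natDegree_map_eq_of_injective inj]

lemma map_eq {q : ℤ[X]} (hq : Irreducible q) (hd : 0 < q.natDegree) :
    q.map (algebraMap ℤ ℂ) = C (q.leadingCoeff : ℂ) * Lagrange.nodal (rt q) id := by
  have inj : Function.Injective (algebraMap ℤ ℂ) := (algebraMap ℤ ℂ).injective_int
  have h := (IsAlgClosed.splits (q.map (algebraMap ℤ ℂ))).eq_prod_roots
  rw [leadingCoeff_map_of_injective inj, ← aroots_def, ← rt_val hq hd] at h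
  exact h

lemma aeval_eq {q : ℤ[X]} (hq : Irreducible q) (hd : 0 < q.natDegree) (x : ℂ) :
    aeval x q = q.leadingCoeff * ∏ z ∈ rt q, (x - z) := by
  rw [← eval_map_algebraMap, map_eq hq hd, eval_mul, eval_C, Lagrange.eval_nodal]
  rfl

lemma aeval_deriv {q : ℤ[X]} (hq : Irreducible q) (hd : 0 < q.natDegree) {w : ℂ}
    (hw : w ∈ rt q) :
    aeval w (derivative q) = q.leadingCoeff * ∏ z ∈ (rt q).erase w, (w - z) := by
  classical
  have h := Lagrange.eval_nodal_derivative_eval_node_eq (v := (id : ℂ → ℂ)) hw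
  rw [← eval_map_algebraMap, ← derivative_map, map_eq hq hd, derivative_C_mul, eval_mul, eval_C]
  simp only [id] at h
  rw [h, Lagrange.eval_nodal]
  rfl

lemma log_le_K {z w : ℂ} (h : z ≠ w) {δ : ℝ} (hδ : 0 < δ) : Real.log ‖z - w‖ ≤ K δ z w := by
  have h0 : 0 < ‖z - w‖ := norm_pos_iff.2 (sub_ne_zero.2 h)
  have h1 : ‖z - w‖ ^ 2 ≤ (z.re - w.re) ^ 2 + (|z.im| + |w.im| + δ) ^ 2 := by
    rw [Complex.sq_norm, Complex.normSq_apply, Complex.sub_re, Complex.sub_im]
    have h2 : |z.im - w.im| ≤ |z.im| + |w.im| + δ := (abs_sub _ _).trans (by linarith)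
    have h3 := pow_le_pow_left₀ (abs_nonneg _) h2 2
    rw [sq_abs] at h3
    nlinarith
  have h2 := Real.log_le_log (by positivity) h1
  rw [Real.log_pow] at h2
  unfold K
  push_cast at h2
  linarith

lemma log_le_K_self (z : ℂ) {δ : ℝ} (hδ : 0 < δ) : Real.log δ ≤ K δ z z := by
  have h1 : δ ^ 2 ≤ (z.re - z.re) ^ 2 + (|z.im| + |z.im| + δ) ^ 2 := by
    have := abs_nonneg z.im
    nlinarith
  have h2 := Real.log_le_log (by positivity) h1
  rw [Real.log_pow] at h2
  unfold K
  push_cast at h2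
  linarith

lemma log_res {f : ℤ[X]} (hq : Irreducible f) (hd : 0 < f.natDegree) (g : ℤ[X]) (n : ℕ)
    (hg : g.natDegree ≤ n) (h : ∀ z ∈ rt f, aeval z g ≠ 0) :
    0 ≤ n * Real.log |(f.leadingCoeff : ℝ)| + ∑ z ∈ rt f, Real.log ‖aeval z g‖ := by
  have h1 := res_ge f g n hq.ne_zero hg fun z hz => h z (by rwa [← rt_val hq hd] at hz)
  rw [← rt_val hq hd] at h1
  have h2 : (1 : ℝ) ≤ |(f.leadingCoeff : ℝ)| ^ n * ∏ z ∈ rt f, ‖aeval z g‖ := h1
  have h3 := Real.log_nonneg h2
  have h4 : (f.leadingCoeff : ℝ) ≠ 0 := by simpa using hq.ne_zero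
  rwa [Real.log_mul (pow_ne_zero _ (abs_ne_zero.2 h4))
    (Finset.prod_ne_zero_iff.2 fun z hz => norm_ne_zero_iff.2 (h z hz)), Real.log_pow,
    Real.log_prod fun z hz => norm_ne_zero_iff.2 (h z hz)] at h3

lemma no_common {q q' : ℤ[X]} (hq : Irreducible q) (hd : 0 < q.natDegree) (hq' : Irreducible q')
    (hd' : 0 < q'.natDegree) {z : ℂ} (hz : aeval z q = 0) (hz' : aeval z q' = 0) : q ∣ q' := by
  obtain ⟨p1, i1⟩ := irr_map hq hd
  obtain ⟨p2, i2⟩ := irr_map hq' hd'
  refine (IsPrimitive.Int.dvd_iff_map_cast_dvd_map_cast q q' p1).2 ?_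
  by_contra h
  obtain ⟨a, b, hab⟩ := i1.coprime_iff_not_dvd.2 h
  have h1 := congrArg (aeval z) hab
  have e : ∀ p : ℤ[X], aeval z (p.map (Int.castRingHom ℚ)) = aeval z p := fun p =>
    aeval_map_algebraMap ℚ z p
  simp [e, hz, hz'] at h1

theorem fact : S_FACT := by
  classical
  intro P hP
  have hs : ∀ q ∈ (normalizedFactors P).toFinset.filter fun q => 0 < q.natDegree,
      Irreducible q ∧ 0 < q.natDegree ∧ normalize q = q := fun q hq => by
    rw [Finset.mem_filter, Multiset.mem_toFinset] at hq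
    exact ⟨irreducible_of_normalized_factor q hq.1, hq.2, normalize_normalized_factor q hq.1⟩
  refine ⟨(normalizedFactors P).toFinset.filter fun q => 0 < q.natDegree,
    fun q => (normalizedFactors P).count q, fun x => ?_, fun q hq => ⟨(hs q hq).1.ne_zero,
      fun x => ?_⟩, fun q hq q' hq' δ hδ _ => ?_⟩
  · obtain ⟨u, hu⟩ := prod_normalizedFactors hP
    obtain ⟨r, hr, hr'⟩ := Polynomial.isUnit_iff.1 u.isUnit
    have h1 : |aeval x (u : ℤ[X])| = 1 := by
      rw [← hr', aeval_C]
      rcases Int.isUnit_iff.1 hr with h | h <;> simp [h]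
    conv_rhs => rw [← hu, map_mul, abs_mul, h1, mul_one, Finset.prod_multiset_count, map_prod,
      Finset.abs_prod, ← Finset.prod_filter_mul_prod_filter_not _ fun q => 0 < q.natDegree]
    simp only [map_pow, abs_pow]
    refine le_mul_of_one_le_right (by positivity) (Finset.prod_induction _ (fun t => 1 ≤ t)
      (fun a b ha hb => one_le_mul_of_one_le_of_one_le ha hb) le_rfl fun q hq => one_le_pow₀ ?_)
    rw [Finset.mem_filter, Multiset.mem_toFinset, not_lt, Nat.le_zero] at hq
    have h2 := (irreducible_of_normalized_factor q hq.1).ne_zero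
    rw [eq_C_of_natDegree_eq_zero hq.2] at h2 ⊢
    rw [aeval_C, eq_intCast]
    exact_mod_cast Int.one_le_abs fun h => h2 (by rw [h, map_zero])
  · have h := congrArg (fun t : ℂ => ‖t‖) (aeval_eq (hs q hq).1 (hs q hq).2.1 x)
    have e : aeval (x : ℂ) q = ((aeval x q : ℝ) : ℂ) := aeval_algebraMap_apply ℂ x q
    simpa [e] using h
  · obtain ⟨i1, d1, n1⟩ := hs q hq
    obtain ⟨i2, d2, n2⟩ := hs q' hq'
    have a1 : (q.leadingCoeff : ℂ) ≠ 0 := by simpa using i1.ne_zero
    have a2 : (q'.leadingCoeff : ℂ) ≠ 0 := by simpa using i2.ne_zero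
    split_ifs with h
    · subst h
      have p1 : ∀ w ∈ rt q, ∀ z ∈ (rt q).erase w, w - z ≠ 0 := fun w _ z hz =>
        sub_ne_zero.2 (Finset.ne_of_mem_erase hz).symm
      have h1 := log_res i1 d1 (derivative q) q.natDegree
        ((natDegree_derivative_le q).trans (Nat.sub_le _ _)) fun z hz => by
          rw [aeval_deriv i1 d1 hz]
          exact mul_ne_zero a1 (Finset.prod_ne_zero_iff.2 (p1 z hz))
      have h2 : ∀ w ∈ rt q, Real.log ‖aeval w (derivative q)‖ + Real.log δ ≤
          Real.log |(q.leadingCoeff : ℝ)| + ∑ z ∈ rt q, K δ w z := fun w hw => by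
        rw [aeval_deriv i1 d1 hw, norm_mul, norm_prod, Real.log_mul (norm_ne_zero_iff.2 a1)
          (Finset.prod_ne_zero_iff.2 fun z hz => norm_ne_zero_iff.2 (p1 w hw z hz)),
          Real.log_prod fun z hz => norm_ne_zero_iff.2 (p1 w hw z hz), Complex.norm_intCast,
          ← Finset.add_sum_erase _ _ hw]
        have h3 := Finset.sum_le_sum fun z (hz : z ∈ (rt q).erase w) =>
          log_le_K (Finset.ne_of_mem_erase hz).symm hδ
        linarith [log_le_K_self w hδ]
      have h3 := Finset.sum_le_sum h2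
      simp only [Finset.sum_add_distrib, Finset.sum_const, nsmul_eq_mul] at h3
      rw [← card_rt i1 d1] at h1
      linarith
    · have p0 : ∀ z ∈ rt q, aeval z q' ≠ 0 := fun z hz h0 => by
        have h1 : aeval z q = 0 := by
          rw [aeval_eq i1 d1, Finset.prod_eq_zero hz (sub_self z), mul_zero]
        have h2 := i1.associated_of_dvd i2 (no_common i1 d1 i2 d2 h1 h0)
        exact h (by rw [← n1, ← n2]; exact normalize_eq_normalize_iff_associated.2 h2)
      have p1 : ∀ z ∈ rt q, ∀ w ∈ rt q', z - w ≠ 0 := fun z hz w hw h0 =>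
        p0 z hz (by rw [aeval_eq i2 d2, Finset.prod_eq_zero hw h0, mul_zero])
      have h1 := log_res i1 d1 q' q'.natDegree le_rfl p0
      have h2 : ∀ z ∈ rt q, Real.log ‖aeval z q'‖ ≤
          Real.log |(q'.leadingCoeff : ℝ)| + ∑ w ∈ rt q', K δ z w := fun z hz => by
        rw [aeval_eq i2 d2, norm_mul, norm_prod, Real.log_mul (norm_ne_zero_iff.2 a2)
          (Finset.prod_ne_zero_iff.2 fun w hw => norm_ne_zero_iff.2 (p1 z hz w hw)),
          Real.log_prod fun w hw => norm_ne_zero_iff.2 (p1 z hz w hw), Complex.norm_intCast]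
        have h3 := Finset.sum_le_sum fun w (hw : w ∈ rt q') =>
          log_le_K (sub_ne_zero.1 (p1 z hz w hw)) hδ
        linarith
      have h3 := Finset.sum_le_sum h2
      simp only [Finset.sum_add_distrib, Finset.sum_const, nsmul_eq_mul] at h3
      rw [← card_rt i2 d2] at h1
      linarith

end Pool.Agent.H455Z.SSSFact
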