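import Mathlib

set_option autoImplicit false

open CategoryTheory CategoryTheory.Limits

namespace Pool.Agent.H455Z.LimCat

variable {R : Type} [Ring R]

theorem rep {J : Type} [SmallCategory J] [IsFiltered J] {F : J ⥤ ModuleCat.{0} R}
    {c : Cocone F} (hc : IsColimit c) (x : c.pt) :
    ∃ (j : J) (y : F.obj j), (c.ι.app j).hom y = x :=
  Concrete.isColimit_exists_rep F hc x

theorem rep_eq {J : Type} [SmallCategory J] [IsFiltered J] {F : J ⥤ ModuleCat.{0} R}
    {c : Cocone F} (hc : IsColimit c) {i j : J} (x : F.obj i) (y : F.obj j)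
    (h : (c.ι.app i).hom x = (c.ι.app j).hom y) :
    ∃ (k : J) (f : i ⟶ k) (g : j ⟶ k), (F.map f).hom x = (F.map g).hom y :=
  Concrete.isColimit_exists_of_rep_eq F hc x y h

theorem cocone_w {J : Type} [SmallCategory J] {F : J ⥤ ModuleCat.{0} R}
    (c : Cocone F) {i j : J} (f : i ⟶ j) (x : F.obj i) :
    (c.ι.app j).hom ((F.map f).hom x) = (c.ι.app i).hom x := by
  have := c.w f
  rw [← this]
  rfl

/-- the diagram of a monotone family of submodules -/
noncomputable def subF {ι : Type} [Preorder ι] {Y : Type} [AddCommGroup Y] [Module R Y]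
    (S : ι → Submodule R Y) (hS : Monotone S) : ι ⥤ ModuleCat.{0} R where
  obj i := ModuleCat.of R (S i)
  map f := ModuleCat.ofHom (Submodule.inclusion (hS (leOfHom f)))
  map_id _ := rfl
  map_comp _ _ := rfl

noncomputable def subC {ι : Type} [Preorder ι] {Y : Type} [AddCommGroup Y] [Module R Y]
    (S : ι → Submodule R Y) (hS : Monotone S) : Cocone (subF S hS) where
  pt := ModuleCat.of R Y
  ι := { app := fun i => ModuleCat.ofHom (S i).subtype
         naturality := fun _ _ _ => rfl }

theorem sub_isColimit {ι : Type} [Preorder ι] [IsDirected ι (· ≤ ·)] [Nonempty ι]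
    {Y : Type} [AddCommGroup Y] [Module R Y]
    (S : ι → Submodule R Y) (hS : Monotone S) (hcov : ∀ y : Y, ∃ i, y ∈ S i) :
    Nonempty (IsColimit (subC S hS)) := by
  refine ⟨isColimitOfReflects (forget (ModuleCat.{0} R)) ?_⟩
  refine Types.FilteredColimit.isColimitOf' _ _ ?_ ?_
  · intro x
    obtain ⟨i, hi⟩ := hcov x
    exact ⟨i, (⟨x, hi⟩ : S i), rfl⟩
  · intro i x y h
    refine ⟨i, 𝟙 i, ?_⟩
    have : x = y := Subtype.ext h
    rw [this]

/-- additive maps out of a sequential colimit of modules -/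
theorem exists_add {X : ℕ → ModuleCat.{0} R} (f : ∀ n, X n ⟶ X (n + 1))
    {c : Cocone (Functor.ofSequence f)} (hc : IsColimit c) (χ : ∀ n, X n →+ ℤ)
    (hχ : ∀ n (x : X n), χ (n + 1) ((f n).hom x) = χ n x) :
    ∃ ψ : c.pt →+ ℤ, ∀ n (x : X n), ψ ((c.ι.app n).hom x) = χ n x := by
  let G := forget₂ (ModuleCat.{0} R) AddCommGrpCat.{0}
  let s : Cocone (Functor.ofSequence f ⋙ G) :=
    { pt := AddCommGrpCat.of ℤ
      ι := NatTrans.ofSequence (fun n => AddCommGrpCat.ofHom (χ n)) (by
        intro n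
        ext x
        simp only [Functor.comp_map, Functor.ofSequence_map_homOfLE_succ]
        exact hχ n x) }
  let d := (isColimitOfPreserves G hc).desc s
  refine ⟨d.hom, fun n x => ?_⟩
  have := (isColimitOfPreserves G hc).fac s n
  exact congrArg (fun φ => φ.hom x) this

end Pool.Agent.H455Z.LimCat
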