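import Mathlib
import Pool.Agent.H455Z.LimCat

set_option autoImplicit false

namespace Pool.Agent.H455Z.LimRing

abbrev Lam : Type := ℕ → ℕ

abbrev M : Type := ℤ × (Lam →₀ ℤ) × (Lam →₀ ℤ) × ℤ

abbrev E : Type := Module.End ℤ M

open Classical in
noncomputable def piE : E where
  toFun m := (m.1, m.2.1, 0, 0)
  map_add' := by intros; simp
  map_smul' := by intros; simp

open Classical in
noncomputable def bE (S : Set Lam) : E where
  toFun m := (0, m.2.2.1.filter (· ∈ S), 0, 0)
  map_add' := by intros; simp [Finsupp.filter_add]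
  map_smul' := by
    intro r m
    refine Prod.ext (by simp) (Prod.ext ?_ (by simp))
    ext l
    simp [Finsupp.filter_apply]

noncomputable def aE (l : Lam) : E where
  toFun m := (0, Finsupp.single l m.1, 0, 0)
  map_add' := by intros; simp
  map_smul' := by intros; simp

noncomputable def cE (l : Lam) : E where
  toFun m := (0, 0, 0, m.2.2.1 l)
  map_add' := by intros; simp
  map_smul' := by intros; simp

noncomputable def pE (l : Lam) : E where
  toFun m := (0, Finsupp.single l (m.2.1 l), Finsupp.single l (m.2.2.1 l), 0)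
  map_add' := by intros; simp
  map_smul' := by intros; simp

@[simp] lemma piE_apply (m : M) : piE m = (m.1, m.2.1, 0, 0) := rfl
open Classical in
@[simp] lemma bE_apply (S : Set Lam) (m : M) :
    bE S m = (0, m.2.2.1.filter (· ∈ S), 0, 0) := rfl
@[simp] lemma aE_apply (l : Lam) (m : M) : aE l m = (0, Finsupp.single l m.1, 0, 0) := rfl
@[simp] lemma cE_apply (l : Lam) (m : M) : cE l m = (0, 0, 0, m.2.2.1 l) := rfl
@[simp] lemma pE_apply (l : Lam) (m : M) :
    pE l m = (0, Finsupp.single l (m.2.1 l), Finsupp.single l (m.2.2.1 l), 0) := rfl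

def gens : Set E := insert piE (Set.range bE)

/-- the ring -/
abbrev R : Type := Subring.centralizer gens

noncomputable def a (l : Lam) : R := ⟨aE l, by
  rw [Subring.mem_centralizer_iff]
  rintro g (rfl | ⟨S, rfl⟩)
  · refine LinearMap.ext fun m => ?_
    simp
  · refine LinearMap.ext fun m => ?_
    simp [Finsupp.filter_zero]⟩

noncomputable def c (l : Lam) : R := ⟨cE l, by
  rw [Subring.mem_centralizer_iff]
  rintro g (rfl | ⟨S, rfl⟩)
  · refine LinearMap.ext fun m => ?_
    simp
  · refine LinearMap.ext fun m => ?_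
    simp [Finsupp.filter_zero]⟩

noncomputable def p (l : Lam) : R := ⟨pE l, by
  rw [Subring.mem_centralizer_iff]
  rintro g (rfl | ⟨S, rfl⟩)
  · refine LinearMap.ext fun m => ?_
    simp
  · refine LinearMap.ext fun m => ?_
    simp only [Module.End.mul_apply, pE_apply, bE_apply]
    refine Prod.ext (by simp) (Prod.ext ?_ (by simp))
    ext k
    by_cases h : l = k
    · subst h
      simp [Finsupp.filter_apply]
    · simp [Finsupp.filter_apply, h]⟩

lemma smul_def (r : R) (m : M) : r • m = (r : E) m := rfl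

@[simp] lemma a_smul (l : Lam) (m : M) : a l • m = (0, Finsupp.single l m.1, 0, 0) := rfl
@[simp] lemma c_smul (l : Lam) (m : M) : c l • m = (0, 0, 0, m.2.2.1 l) := rfl
@[simp] lemma p_smul (l : Lam) (m : M) :
    p l • m = (0, Finsupp.single l (m.2.1 l), Finsupp.single l (m.2.2.1 l), 0) := rfl

lemma c_mul_p (l : Lam) : c l * p l = c l := by
  refine Subtype.ext (LinearMap.ext fun m => ?_)
  show cE l (pE l m) = cE l m
  simp

lemma c_mul_a (l : Lam) : c l * a l = 0 := by
  refine Subtype.ext (LinearMap.ext fun m => ?_)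
  show cE l (aE l m) = 0
  simp

/-- an element of `gens` as an `R`-linear map -/
noncomputable def lin (g : E) (hg : g ∈ gens) : M →ₗ[R] M where
  toFun m := g m
  map_add' := by intros; simp
  map_smul' := by
    intro r m
    have h := (Subring.mem_centralizer_iff.1 r.2) g hg
    have := LinearMap.congr_fun h m
    simpa [smul_def] using this

noncomputable def pi1 : M →ₗ[R] M := lin piE (Set.mem_insert _ _)
noncomputable def b (S : Set Lam) : M →ₗ[R] M := lin (bE S) (Set.mem_insert_of_mem _ ⟨S, rfl⟩)

@[simp] lemma pi1_apply (m : M) : pi1 m = (m.1, m.2.1, 0, 0) := rfl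
open Classical in
@[simp] lemma b_apply (S : Set Lam) (m : M) :
    b S m = (0, m.2.2.1.filter (· ∈ S), 0, 0) := rfl

abbrev I : Type := ℕ × ℕ

abbrev C : Type := I →₀ M

noncomputable def theta (j : ℕ) (i : I) : M →ₗ[R] M :=
  (if i = (0, 0) then (2 : ℤ) • (LinearMap.id - pi1) else 0) + b {l | i = (j, l j)}

lemma fin_supp (j : ℕ) (x : C) :
    (Function.support fun i => pi1 (x i) + theta j i (x (0, 0))).Finite := by
  classical
  refine Set.Finite.subset (((x.support.finite_toSet).insert (0, 0)).union
    (((x (0, 0)).2.2.1.support.finite_toSet).image fun l => (j, l j))) ?_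
  intro i hi
  by_contra hcon
  simp only [Set.mem_union, Set.mem_insert_iff, Finset.mem_coe, Finsupp.mem_support_iff,
    Set.mem_image, not_or, not_not, not_exists, not_and] at hcon
  obtain ⟨⟨h0, h1⟩, h2⟩ := hcon
  apply hi
  simp only [theta, h0, if_false, h1, map_zero, zero_add, b_apply]
  refine Prod.ext rfl (Prod.ext ?_ rfl)
  ext l
  simp only [Finsupp.filter_apply, Set.mem_ofPred_eq]
  split_ifs with h
  · by_contra hne
    exact h2 l hne h.symm
  · rfl

noncomputable def f (j : ℕ) : C →ₗ[R] C where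
  toFun x := Finsupp.ofSupportFinite _ (fin_supp j x)
  map_add' x y := by
    refine Finsupp.ext fun i => ?_
    simp only [Finsupp.ofSupportFinite_coe, Finsupp.add_apply, map_add]
    abel
  map_smul' r x := by
    refine Finsupp.ext fun i => ?_
    simp only [Finsupp.ofSupportFinite_coe, Finsupp.smul_apply, map_smul, RingHom.id_apply,
      smul_add]

lemma f_apply (j : ℕ) (x : C) (i : I) : f j x i = pi1 (x i) + theta j i (x (0, 0)) := rfl

lemma f_1 (j : ℕ) (x : C) (i : I) : (f j x i).1 = (x i).1 := by
  rw [f_apply, theta]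
  split_ifs <;> simp

lemma f_21 (j : ℕ) (x : C) (i : I) (l : Lam) :
    (f j x i).2.1 l = (x i).2.1 l + if i = (j, l j) then (x (0, 0)).2.2.1 l else 0 := by
  classical
  rw [f_apply, theta]
  split_ifs with h1 h2 h2 <;> simp [h2]

lemma f_221 (j : ℕ) (x : C) (i : I) (l : Lam) :
    (f j x i).2.2.1 l = if i = (0, 0) then 2 * (x (0, 0)).2.2.1 l else 0 := by
  rw [f_apply, theta]
  split_ifs <;> simp [two_mul, two_smul]

lemma f_222 (j : ℕ) (x : C) (i : I) :
    (f j x i).2.2.2 = if i = (0, 0) then 2 * (x (0, 0)).2.2.2 else 0 := by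
  rw [f_apply, theta]
  split_ifs <;> simp

/-- the key property of modules in `add M` -/
def Good (X : Type) [AddCommGroup X] [Module R X] : Prop :=
  (∀ (l m : Lam) (z : X), ∃ y : X, c l • y = c m • z) ∧
    ∃ W : Set X, W.Finite ∧ ∀ (l : Lam) (z : X), c l • z = 0 →
      p l • z ∈ Submodule.span ℤ ((fun w => a l • w) '' W)

lemma Good.retract {X Y : Type} [AddCommGroup X] [Module R X] [AddCommGroup Y] [Module R Y]
    (s : X →ₗ[R] Y) (r : Y →ₗ[R] X) (h : r ∘ₗ s = LinearMap.id) (hY : Good Y) : Good X := by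
  have hrs : ∀ x, r (s x) = x := fun x => LinearMap.congr_fun h x
  obtain ⟨h1, W, hW, h2⟩ := hY
  refine ⟨fun l m z => ?_, r '' W, hW.image _, fun l z hz => ?_⟩
  · obtain ⟨y, hy⟩ := h1 l m (s z)
    refine ⟨r y, ?_⟩
    rw [← map_smul, hy, map_smul, hrs]
  · have h3 := h2 l (s z) (by rw [← map_smul, hz, map_zero])
    have h4 := Submodule.apply_mem_span_image_of_mem_span (r.toAddMonoidHom.toIntLinearMap) h3
    have h5 : r.toAddMonoidHom.toIntLinearMap (p l • s z) = p l • z := by
      show r (p l • s z) = _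
      rw [map_smul, hrs]
    rw [h5] at h4
    convert h4 using 2
    ext w
    simp only [Set.mem_image, exists_exists_and_eq_and]
    constructor
    · rintro ⟨v, hv, rfl⟩
      exact ⟨v, hv, by show r (a l • v) = _; rw [map_smul]⟩
    · rintro ⟨v, hv, rfl⟩
      exact ⟨v, hv, by show _ = r (a l • v); rw [map_smul]⟩

lemma good_pi (n : ℕ) : Good (Fin n → M) := by
  classical
  refine ⟨fun l m z => ⟨fun i => (0, 0, Finsupp.single l ((z i).2.2.1 m), 0), ?_⟩,
    Set.range fun i : Fin n => Pi.single i ((1, 0, 0, 0) : M), Set.finite_range _,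
    fun l z hz => ?_⟩
  · funext i
    simp
  · have h1 : p l • z = ∑ i : Fin n, ((z i).2.1 l) • a l • (Pi.single i ((1, 0, 0, 0) : M) :
        Fin n → M) := by
      funext k
      have h0 : (z k).2.2.1 l = 0 := by
        have := congrFun hz k
        simpa using this
      rw [Finset.sum_apply, Finset.sum_eq_single k]
      · simp [h0]
      · intro i _ hik
        simp [Pi.single_eq_of_ne hik.symm]
      · simp
    rw [h1]
    refine Submodule.sum_mem _ fun i _ => Submodule.smul_mem _ _ (Submodule.subset_span ?_)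
    exact ⟨_, ⟨i, rfl⟩, rfl⟩

lemma good_dsum (n : ℕ) : Good (DirectSum (Fin n) fun _ => M) := by
  let e := DirectSum.linearEquivFunOnFintype R (Fin n) (fun _ => M)
  exact Good.retract e.toLinearMap e.symm.toLinearMap (LinearMap.ext fun x => by simp) (good_pi n)

end Pool.Agent.H455Z.LimRing
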