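import Mathlib
import Pool.Agent.H455Z.LimRing

set_option autoImplicit false

open CategoryTheory CategoryTheory.Limits

namespace Pool.Agent.H455Z.LimN

open Pool.Agent.H455Z.LimRing Pool.Agent.H455Z.LimCat

noncomputable def tr (j : ℕ) : ModuleCat.of R C ⟶ ModuleCat.of R C := ModuleCat.ofHom (f j)

noncomputable def F : ℕ ⥤ ModuleCat.{0} R :=
  Functor.ofSequence (X := fun _ => ModuleCat.of R C) tr

noncomputable def cc : Cocone F := colimit.cocone F

noncomputable def hcc : IsColimit cc := colimit.isColimit F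

/-- the module which is a direct limit of `Add M` but not of `add M` -/
noncomputable abbrev N : ModuleCat.{0} R := cc.pt

noncomputable def io (j : ℕ) : C →ₗ[R] N := (cc.ι.app j).hom

lemma io_f (j : ℕ) (y : C) : io (j + 1) (f j y) = io j y := by
  have h := cocone_w cc (homOfLE (Nat.le_add_right j 1)) (y : F.obj j)
  have h2 : F.map (homOfLE (Nat.le_add_right j 1)) = tr j :=
    Functor.ofSequence_map_homOfLE_succ (X := fun _ => ModuleCat.of R C) tr j
  rw [h2] at h
  exact h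

lemma io_surj (z : N) : ∃ (j : ℕ) (y : C), io j y = z := rep hcc z

lemma io_zero {j : ℕ} {y : C} (h : io j y = 0) :
    ∃ (k : ℕ) (g : C →ₗ[R] C), g y = 0 ∧ (∀ v, io k (g v) = io j v) := by
  obtain ⟨k, g, g', hg⟩ := rep_eq hcc (i := j) (j := j) (y : F.obj j) (0 : F.obj j)
    (by rw [map_zero]; exact h)
  rw [map_zero] at hg
  exact ⟨k, (F.map g).hom, hg, fun v => cocone_w cc g v⟩

noncomputable def x0 (l : Lam) : C := Finsupp.single (0, 0) (0, 0, Finsupp.single l 1, 0)
noncomputable def u0 : C := Finsupp.single (0, 0) (0, 0, 0, 1)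

noncomputable def x (j : ℕ) (l : Lam) : N := io j (x0 l)
noncomputable def u (j : ℕ) : N := io j u0

lemma c_x (j : ℕ) (l : Lam) : c l • x j l = u j := by
  rw [x, u, ← map_smul]
  congr 1
  rw [x0, u0, Finsupp.smul_single]
  simp

lemma f_u0 (j : ℕ) : f j u0 = (2 : ℤ) • u0 := by
  refine Finsupp.ext fun i => ?_
  refine Prod.ext ?_ (Prod.ext ?_ (Prod.ext ?_ ?_))
  · rw [f_1]
    by_cases h : i = (0, 0) <;> simp [u0, h]
  · ext l
    rw [f_21]
    by_cases h : i = (0, 0) <;> simp [u0, h]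
  · ext l
    rw [f_221]
    by_cases h : i = (0, 0) <;> simp [u0, h]
  · rw [f_222]
    by_cases h : i = (0, 0) <;> simp [u0, h]

lemma u_succ (j : ℕ) : u j = (2 : ℤ) • u (j + 1) := by
  rw [u, u, ← io_f, f_u0, map_zsmul]

noncomputable def chiC (l : Lam) (k j : ℕ) : C →+ ℤ where
  toFun y := (y (k, l k)).2.1 l + (if j ≤ k then 2 ^ (k - j) else 0) * (y (0, 0)).2.2.1 l
  map_zero' := by simp
  map_add' y z := by
    simp only [Finsupp.add_apply, Prod.snd_add, Prod.fst_add]
    ring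

lemma exists_chi (l : Lam) (k : ℕ) : ∃ χ : N →+ ℤ, ∀ j (y : C), χ (io j y) = chiC l k j y := by
  refine exists_add (X := fun _ => ModuleCat.of R C) tr hcc (fun j => chiC l k j) ?_
  intro j y
  show chiC l k (j + 1) (f j y) = chiC l k j y
  simp only [chiC, AddMonoidHom.coe_mk, ZeroHom.coe_mk, f_21, f_221, if_true]
  rcases lt_trichotomy j k with h | h | h
  · have h1 : j + 1 ≤ k := h
    have h2 : (k, l k) ≠ (j, l j) := fun e => h.ne' (congrArg Prod.fst e)
    have h3 : k - j = (k - (j + 1)) + 1 := by omega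
    rw [if_neg h2, if_pos h1, if_pos h.le, h3, pow_succ]
    ring
  · subst h
    simp
  · have h1 : ¬ j + 1 ≤ k := by omega
    have h2 : (k, l k) ≠ (j, l j) := fun e => h.ne (congrArg Prod.fst e)
    rw [if_neg h2, if_neg h1, if_neg (by omega)]
    ring

noncomputable def psiC (i : I) : C →+ ℤ where
  toFun y := (y i).1
  map_zero' := by simp
  map_add' y z := by simp

lemma exists_psi (i : I) : ∃ ψ : N →+ ℤ, ∀ j (y : C), ψ (io j y) = psiC i y := by
  refine exists_add (X := fun _ => ModuleCat.of R C) tr hcc (fun _ => psiC i) ?_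
  intro j y
  show psiC i (f j y) = psiC i y
  simp only [psiC, AddMonoidHom.coe_mk, ZeroHom.coe_mk, f_1]

noncomputable def chi (l : Lam) (k : ℕ) : N →+ ℤ := (exists_chi l k).choose
noncomputable def psi (i : I) : N →+ ℤ := (exists_psi i).choose

lemma chi_io (l : Lam) (k j : ℕ) (y : C) : chi l k (io j y) =
    (y (k, l k)).2.1 l + (if j ≤ k then 2 ^ (k - j) else 0) * (y (0, 0)).2.2.1 l :=
  (exists_chi l k).choose_spec j y

lemma psi_io (i : I) (j : ℕ) (y : C) : psi i (io j y) = (y i).1 :=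
  (exists_psi i).choose_spec j y

lemma chi_a (l : Lam) (k : ℕ) (w : N) : chi l k (a l • w) = psi (k, l k) w := by
  obtain ⟨j, y, rfl⟩ := io_surj w
  rw [← map_smul, chi_io, psi_io]
  simp

lemma chi_p (l : Lam) (k : ℕ) (w : N) : chi l k (p l • w) = chi l k w := by
  obtain ⟨j, y, rfl⟩ := io_surj w
  rw [← map_smul, chi_io, chi_io]
  simp

lemma chi_x (l : Lam) (k : ℕ) : chi l k (x 0 l) = 2 ^ k := by
  rw [x, chi_io]
  by_cases h : (k, l k) = (0, 0)
  · simp [x0, h]
  · simp [x0, h]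

lemma psi_fin (w : N) : {i | psi i w ≠ 0}.Finite := by
  obtain ⟨j, y, rfl⟩ := io_surj w
  refine y.support.finite_toSet.subset fun i hi => ?_
  simp only [Set.mem_ofPred_eq, psi_io] at hi
  simp only [Finset.mem_coe, Finsupp.mem_support_iff]
  intro h
  apply hi
  rw [h]
  rfl

lemma ker_C (l : Lam) (y : C) (h : c l • y = 0) : ∃ w : C, p l • y = a l • w := by
  refine ⟨y.mapRange (fun m => (m.2.1 l, 0, 0, 0)) (by simp), Finsupp.ext fun i => ?_⟩
  have h0 : (y i).2.2.1 l = 0 := by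
    have := DFunLike.congr_fun h i
    simpa using this
  simp [h0]

lemma ker_N (l : Lam) (z : N) (h : c l • z = 0) : ∃ w : N, p l • z = a l • w := by
  obtain ⟨j, y, rfl⟩ := io_surj z
  rw [← map_smul] at h
  obtain ⟨k, g, hg, hk⟩ := io_zero h
  rw [map_smul] at hg
  obtain ⟨w, hw⟩ := ker_C l _ hg
  exact ⟨io k w, by rw [← hk, ← map_smul, hw, map_smul]⟩

theorem key (W : ℕ → Set N) (hW : ∀ j, (W j).Finite) (y : ℕ → Lam → N)
    (h0 : ∀ l, c l • y 0 l = u 0)
    (h1 : ∀ j l, p l • (y j l - (2 : ℤ) • y (j + 1) l) ∈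
      Submodule.span ℤ ((fun w => a l • w) '' W j)) : False := by
  have hS : ∀ j, {i | ∃ w ∈ W j, psi i w ≠ 0}.Finite := by
    intro j
    have := (hW j).biUnion fun w _ => psi_fin w
    refine this.subset fun i hi => ?_
    simpa using hi
  have hl : ∀ k : ℕ, ∃ n : ℕ, ∀ j ≤ k, ∀ w ∈ W j, psi (k, n) w = 0 := by
    intro k
    have h2 : (⋃ j ∈ Set.Iic k, Prod.snd '' {i | ∃ w ∈ W j, psi i w ≠ 0}).Finite :=
      (Set.finite_Iic k).biUnion fun j _ => (hS j).image _
    obtain ⟨n, hn⟩ := h2.exists_notMem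
    refine ⟨n, fun j hj w hw => ?_⟩
    by_contra hne
    exact hn (Set.mem_biUnion hj ⟨(k, n), ⟨w, hw, hne⟩, rfl⟩)
  choose l hl using hl
  obtain ⟨w, hw⟩ := ker_N l (y 0 l - x 0 l) (by rw [smul_sub, h0, c_x, sub_self])
  obtain ⟨k, hk⟩ : ∃ k : ℕ, psi (k, l k) w = 0 := by
    obtain ⟨k, hk⟩ := ((psi_fin w).image Prod.fst).exists_notMem
    refine ⟨k, ?_⟩
    by_contra hne
    exact hk ⟨(k, l k), hne, rfl⟩
  have e0 : chi l k (y 0 l) = 2 ^ k := by
    have := congrArg (chi l k) hw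
    rw [chi_p, chi_a, hk, map_sub, chi_x] at this
    linarith
  have e1 : ∀ j ≤ k, chi l k (y j l) = 2 * chi l k (y (j + 1) l) := by
    intro j hj
    have h3 : ∀ v ∈ Submodule.span ℤ ((fun w => a l • w) '' W j), chi l k v = 0 := by
      intro v hv
      induction hv using Submodule.span_induction with
      | mem v hv =>
        obtain ⟨w, hw, rfl⟩ := hv
        rw [chi_a, hl k j hj w hw]
      | zero => simp
      | add v w _ _ hv hw => rw [map_add, hv, hw, add_zero]
      | smul r v _ hv => rw [map_zsmul, hv, smul_zero]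
    have := h3 _ (h1 j l)
    rw [chi_p, map_sub, map_zsmul] at this
    simp only [smul_eq_mul] at this
    linarith
  have e2 : ∀ j ≤ k + 1, chi l k (y 0 l) = 2 ^ j * chi l k (y j l) := by
    intro j
    induction j with
    | zero => simp
    | succ j ih =>
      intro hj
      rw [ih (by omega), e1 j (by omega), pow_succ]
      ring
  have e3 := e2 (k + 1) le_rfl
  rw [e0, pow_succ, mul_assoc] at e3
  have e4 : (1 : ℤ) = 2 * chi l k (y (k + 1) l) := by
    have h2 : (2 : ℤ) ^ k ≠ 0 := by positivity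
    exact mul_left_cancel₀ h2 (by rw [mul_one]; exact e3)
  omega

/-- sequence form -/
theorem key2 (D : ℕ → ModuleCat.{0} R) (h : ∀ j, D j →ₗ[R] D (j + 1)) (g : ∀ j, D j →ₗ[R] N)
    (hg : ∀ j v, g (j + 1) (h j v) = g j v) (hD : ∀ j, Good (D j)) (m : Lam) (z : ∀ j, D j)
    (hz0 : g 0 (c m • z 0) = u 0)
    (hz : ∀ j, h j (c m • z j) = (2 : ℤ) • (c m • z (j + 1))) : False := by
  choose y hy using fun j l => (hD j).1 l m (z j)
  choose W hW hW2 using fun j => (hD j).2
  refine key (fun j => g (j + 1) '' W (j + 1)) (fun j => (hW _).image _) (fun j l => g j (y j l))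
    (fun l => by rw [← map_smul, hy, hz0]) fun j l => ?_
  have h3 := hW2 (j + 1) l (h j (y j l) - (2 : ℤ) • y (j + 1) l) (by
    rw [smul_sub, ← map_smul, hy, hz, smul_comm (c l) (2 : ℤ), hy, sub_self])
  have h4 := Submodule.apply_mem_span_image_of_mem_span
    ((g (j + 1)).toAddMonoidHom.toIntLinearMap) h3
  have h5 : (g (j + 1)).toAddMonoidHom.toIntLinearMap
      (p l • (h j (y j l) - (2 : ℤ) • y (j + 1) l)) =
      p l • (g j (y j l) - (2 : ℤ) • g (j + 1) (y (j + 1) l)) := by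
    show g (j + 1) _ = _
    rw [map_smul, map_sub, hg, map_zsmul]
  rw [h5] at h4
  convert h4 using 2
  ext w
  simp only [Set.mem_image, exists_exists_and_eq_and]
  constructor
  · rintro ⟨v, hv, rfl⟩
    exact ⟨v, hv, by show g (j + 1) (a l • v) = _; rw [map_smul]⟩
  · rintro ⟨v, hv, rfl⟩
    exact ⟨v, hv, by show _ = g (j + 1) (a l • v); rw [map_smul]⟩

/-- `N` is not a filtered colimit of good modules -/
theorem not_lim {J : Type} [SmallCategory J] [IsFiltered J] (G : J ⥤ ModuleCat.{0} R)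
    (hG : ∀ i, Good (G.obj i)) (d : Cocone G) (hd : IsColimit d) (e : d.pt ≅ N) : False := by
  let g : ∀ i, G.obj i →ₗ[R] N := fun i => e.hom.hom ∘ₗ (d.ι.app i).hom
  have hinj : Function.Injective e.hom.hom := e.toLinearEquiv.injective
  have hsurj : Function.Surjective e.hom.hom := e.toLinearEquiv.surjective
  have gs : ∀ v : N, ∃ i y, g i y = v := by
    intro v
    obtain ⟨w, rfl⟩ := hsurj v
    obtain ⟨i, y, rfl⟩ := rep hd w
    exact ⟨i, y, rfl⟩
  have gw : ∀ {i j : J} (φ : i ⟶ j) (y : G.obj i), g j ((G.map φ).hom y) = g i y := by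
    intro i j φ y
    show e.hom.hom _ = e.hom.hom _
    rw [cocone_w]
  let m : Lam := fun _ => 0
  let T : ℕ → Type := fun j => {q : Σ i : J, G.obj i // g q.1 q.2 = x j m}
  have step : ∀ j (q : T j), ∃ (q' : T (j + 1)) (φ : q.1.1 ⟶ q'.1.1),
      (G.map φ).hom (c m • q.1.2) = (2 : ℤ) • (c m • q'.1.2) := by
    rintro j ⟨⟨i, z⟩, hz⟩
    obtain ⟨i', z', hz'⟩ := gs (x (j + 1) m)
    have h1 : g i (c m • z) = g i' ((2 : ℤ) • (c m • z')) := by
      rw [map_zsmul, map_smul, map_smul, hz, hz', c_x, c_x, u_succ]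
    obtain ⟨k, φ, φ', hφ⟩ := rep_eq hd _ _ (hinj h1)
    refine ⟨⟨⟨k, (G.map φ').hom z'⟩, by rw [gw, hz']⟩, φ, ?_⟩
    rw [hφ, map_zsmul, map_smul]
  choose nx φ hφ using step
  obtain ⟨i0, z0, hz0⟩ := gs (x 0 m)
  let q : ∀ j, T j := fun j => Nat.rec (motive := T) ⟨⟨i0, z0⟩, hz0⟩ nx j
  exact key2 (fun j => G.obj (q j).1.1) (fun j => (G.map (φ j (q j))).hom) (fun j => g (q j).1.1)
    (fun j v => gw _ v) (fun j => hG _) m (fun j => (q j).1.2)
    (by rw [map_smul, (q 0).2, c_x]) (fun j => hφ j (q j))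

end Pool.Agent.H455Z.LimN
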