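import Mathlib
import Pool.Agent.H455Z.LimN

set_option autoImplicit false

open CategoryTheory CategoryTheory.Limits

namespace Pool.Agent.H455Z.LimCyc

open Pool.Agent.H455Z.LimRing Pool.Agent.H455Z.LimCat Pool.Agent.H455Z.LimN

/-- a property of modules which passes to homomorphic images -/
def Cyc (X : Type) [AddCommGroup X] [Module R X] : Prop :=
  ∃ W : Set X, W.Finite ∧ ∃ (y : Lam → X) (v : X), (∀ l, c l • y l = v) ∧
    ∀ (l : Lam) (z : X), ∃ q : ℤ, p l • z - q • p l • y l ∈
      Submodule.span ℤ ((fun w => a l • w) '' W)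

lemma span_map {X Y : Type} [AddCommGroup X] [Module R X] [AddCommGroup Y] [Module R Y]
    (φ : X →ₗ[R] Y) (l : Lam) (W : Set X) {t : X}
    (ht : t ∈ Submodule.span ℤ ((fun w => a l • w) '' W)) :
    φ t ∈ Submodule.span ℤ ((fun w => a l • w) '' (φ '' W)) := by
  have h4 := Submodule.apply_mem_span_image_of_mem_span (φ.toAddMonoidHom.toIntLinearMap) ht
  have h5 : φ.toAddMonoidHom.toIntLinearMap t = φ t := rfl
  rw [h5] at h4
  convert h4 using 2
  ext w
  simp only [Set.mem_image, exists_exists_and_eq_and]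
  constructor
  · rintro ⟨v, hv, rfl⟩
    exact ⟨v, hv, by show φ (a l • v) = _; rw [map_smul]⟩
  · rintro ⟨v, hv, rfl⟩
    exact ⟨v, hv, by show _ = φ (a l • v); rw [map_smul]⟩

lemma cyc_of_map {X Y : Type} [AddCommGroup X] [Module R X] [AddCommGroup Y] [Module R Y]
    (φ : X →ₗ[R] Y) (hφ : Function.Surjective φ) (W : Set X) (hW : W.Finite) (y : Lam → X)
    (v : X) (hy : ∀ l, c l • y l = v)
    (h : ∀ (l : Lam) (z : X), ∃ q : ℤ, ∃ w ∈ Submodule.span ℤ ((fun w => a l • w) '' W),
      φ (p l • z - q • p l • y l - w) = 0) : Cyc Y := by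
  refine ⟨φ '' W, hW.image _, fun l => φ (y l), φ v, fun l => by rw [← map_smul, hy],
    fun l z => ?_⟩
  obtain ⟨z, rfl⟩ := hφ z
  obtain ⟨q, w, hw, h0⟩ := h l z
  refine ⟨q, ?_⟩
  rw [map_sub, map_sub, map_zsmul, map_smul, map_smul, sub_eq_zero] at h0
  rw [h0]
  exact span_map φ l W hw

lemma Cyc.map {X Y : Type} [AddCommGroup X] [Module R X] [AddCommGroup Y] [Module R Y]
    (φ : X →ₗ[R] Y) (hφ : Function.Surjective φ) (hX : Cyc X) : Cyc Y := by
  obtain ⟨W, hW, y, v, hy, h⟩ := hX
  refine cyc_of_map φ hφ W hW y v hy fun l z => ?_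
  obtain ⟨q, hq⟩ := h l z
  exact ⟨q, _, hq, by rw [sub_self, map_zero]⟩

lemma c_span {X : Type} [AddCommGroup X] [Module R X] (l : Lam) (W : Set X) {t : X}
    (ht : t ∈ Submodule.span ℤ ((fun w => a l • w) '' W)) : c l • t = 0 := by
  induction ht using Submodule.span_induction with
  | mem v hv =>
    obtain ⟨w, _, rfl⟩ := hv
    rw [smul_smul, c_mul_a, zero_smul]
  | zero => simp
  | add v w _ _ hv hw => rw [smul_add, hv, hw, add_zero]
  | smul r v _ hv => rw [smul_comm, hv, smul_zero]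

lemma Cyc.good {X : Type} [AddCommGroup X] [Module R X] (hX : Cyc X)
    (htf : ∀ (q : ℤ) (z : X), q • z = 0 → q = 0 ∨ z = 0) (m : Lam) (z0 : X)
    (hz0 : c m • z0 ≠ 0) : Good X := by
  obtain ⟨W, hW, y, v, hy, h⟩ := hX
  have h1 : ∀ (l : Lam) (z : X) (q : ℤ), p l • z - q • p l • y l ∈
      Submodule.span ℤ ((fun w => a l • w) '' W) → c l • z = q • v := by
    intro l z q hq
    have := c_span l W hq
    rw [smul_sub, smul_comm (c l) q, smul_smul, smul_smul, c_mul_p, hy, sub_eq_zero] at this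
    exact this
  have hv : v ≠ 0 := by
    rintro rfl
    obtain ⟨q, hq⟩ := h m z0
    exact hz0 (by rw [h1 m z0 q hq, smul_zero])
  refine ⟨fun l m z => ?_, W, hW, fun l z hz => ?_⟩
  · obtain ⟨q, hq⟩ := h m z
    exact ⟨q • y l, by rw [smul_comm, hy, h1 m z q hq]⟩
  · obtain ⟨q, hq⟩ := h l z
    have h2 := h1 l z q hq
    rw [hz] at h2
    rcases htf q v h2.symm with h3 | h3
    · rw [h3, zero_smul, sub_zero] at hq
      exact hq
    · exact absurd h3 hv

/-- directed unions of submodules with the property `Cyc` -/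
def U (X : Type) [AddCommGroup X] [Module R X] : Prop :=
  ∃ (ι : Type) (_ : Preorder ι) (_ : IsDirected ι (· ≤ ·)) (_ : Nonempty ι)
    (S : ι → Submodule R X), Monotone S ∧ (∀ z : X, ∃ i, z ∈ S i) ∧ ∀ i, Cyc (S i)

lemma U.map {X Y : Type} [AddCommGroup X] [Module R X] [AddCommGroup Y] [Module R Y]
    (φ : X →ₗ[R] Y) (hφ : Function.Surjective φ) (hX : U X) : U Y := by
  obtain ⟨ι, i1, i2, i3, S, hS, hcov, hc⟩ := hX
  refine ⟨ι, i1, i2, i3, fun i => (S i).map φ, fun i j hij => Submodule.map_mono (hS hij),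
    fun z => ?_, fun i => Cyc.map (φ.submoduleMap (S i)) (φ.submoduleMap_surjective _) (hc i)⟩
  obtain ⟨z, rfl⟩ := hφ z
  obtain ⟨i, hi⟩ := hcov z
  exact ⟨i, z, hi, rfl⟩

/-- direct limits of modules with the property `Cyc` -/
def L (X : ModuleCat.{0} R) : Prop :=
  ∃ (ι : Type) (_ : Preorder ι) (_ : IsDirected ι (· ≤ ·)) (_ : Nonempty ι)
    (F : ι ⥤ ModuleCat.{0} R) (c : Cocone F),
    Nonempty (IsColimit c) ∧ Nonempty (c.pt ≅ X) ∧
      ∀ i, F.obj i ∈ {Y : ModuleCat.{0} R | Cyc Y}

lemma L_iff (X : ModuleCat.{0} R) : L X ↔ U X := by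
  constructor
  · rintro ⟨ι, i1, i2, i3, G, d, ⟨hd⟩, ⟨e⟩, hG⟩
    refine U.map e.hom.hom e.toLinearEquiv.surjective ?_
    refine ⟨ι, i1, i2, i3, fun i => LinearMap.range (d.ι.app i).hom, fun i j hij => ?_,
      fun z => ?_, fun i => Cyc.map (d.ι.app i).hom.rangeRestrict
        (LinearMap.surjective_rangeRestrict _) (hG i)⟩
    · rintro _ ⟨y, rfl⟩
      exact ⟨(G.map (homOfLE hij)).hom y, cocone_w d _ y⟩
    · obtain ⟨i, y, rfl⟩ := rep hd z
      exact ⟨i, y, rfl⟩
  · rintro ⟨ι, i1, i2, i3, S, hS, hcov, hc⟩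
    exact ⟨ι, i1, i2, i3, subF S hS, subC S hS, sub_isColimit S hS hcov, ⟨Iso.refl _⟩, hc⟩

lemma N_tf (q : ℤ) (z : N) (h : q • z = 0) : q = 0 ∨ z = 0 := by
  obtain ⟨j, y, rfl⟩ := io_surj z
  rw [← map_zsmul] at h
  obtain ⟨k, g, hg, hk⟩ := io_zero h
  rw [map_zsmul] at hg
  by_cases hq : q = 0
  · exact Or.inl hq
  · have h1 : g y = 0 := by
      refine Finsupp.ext fun i => ?_
      have h2 : q • (g y i) = 0 := DFunLike.congr_fun hg i
      exact (smul_eq_zero.1 h2).resolve_left hq
    exact Or.inr (by rw [← hk, h1, map_zero])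

lemma u_ne : u 0 ≠ 0 := by
  intro h
  exact key (fun _ => ∅) (fun _ => Set.finite_empty) (fun _ _ => 0) (fun l => by rw [h, smul_zero])
    (fun j l => by simp)

theorem not_U : ¬ U N := by
  rintro ⟨ι, i1, i2, i3, S, hS, hcov, hc⟩
  let m : Lam := fun _ => 0
  choose k hk using fun j => hcov (x j m)
  choose mx h1 h2 using fun i j : ι => directed_of (· ≤ ·) i j
  let t : ℕ → ι := fun j => Nat.rec (k 0) (fun j i => mx i (k (j + 1))) j
  have ht : ∀ j, t j ≤ t (j + 1) := fun j => h1 _ _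
  have ht0 : ∀ j, t 0 ≤ t j := fun j => monotone_nat_of_le_succ ht (Nat.zero_le j)
  have hx : ∀ j, x j m ∈ S (t j) := by
    intro j
    cases j with
    | zero => exact hk 0
    | succ j => exact hS (h2 _ _) (hk (j + 1))
  refine key2 (fun j => ModuleCat.of R (S (t j))) (fun j => Submodule.inclusion (hS (ht j)))
    (fun j => (S (t j)).subtype) (fun j v => rfl) (fun j => ?_) m (fun j => ⟨x j m, hx j⟩)
    (c_x 0 m) (fun j => Subtype.ext ?_)
  · refine (hc (t j)).good (fun q z hz => ?_) m ⟨x 0 m, hS (ht0 j) (hx 0)⟩ ?_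
    · rcases N_tf q z.1 (congrArg Subtype.val hz) with h | h
      · exact Or.inl h
      · exact Or.inr (Subtype.ext h)
    · intro h
      apply u_ne
      rw [← c_x 0 m]
      exact congrArg Subtype.val h
  · show c m • x j m = (2 : ℤ) • (c m • x (j + 1) m)
    rw [c_x, c_x, u_succ]

lemma f_eq_zero (j : ℕ) (t : C) (h1 : ∀ i, pi1 (t i) = 0) (h2 : t (0, 0) = 0) : f j t = 0 := by
  refine Finsupp.ext fun i => ?_
  rw [f_apply, h1, h2, map_zero, add_zero]
  rfl

theorem U_range (j : ℕ) : U (LinearMap.range (io j)) := by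
  classical
  let P : Finset I → Submodule R C := fun T => Finsupp.supported M R ↑(insert ((0, 0) : I) T)
  refine ⟨Finset I, inferInstance, inferInstance, inferInstance,
    fun T => (P T).map (io j).rangeRestrict, fun T T' h => Submodule.map_mono
      (Finsupp.supported_mono (by
        simp only [Finset.coe_subset]
        exact Finset.insert_subset_insert _ h)), ?_, fun T => ?_⟩
  · rintro ⟨_, y, rfl⟩
    refine ⟨y.support, y, ?_, rfl⟩
    rw [SetLike.mem_coe, Finsupp.mem_supported]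
    simp only [Finset.coe_subset]
    exact Finset.subset_insert _ _
  · let e : (insert ((0, 0) : I) T : Finset I) → P T := fun i =>
      ⟨Finsupp.single i.1 (1, 0, 0, 0), Finsupp.single_mem_supported R _ i.2⟩
    refine cyc_of_map ((io j).rangeRestrict.submoduleMap (P T))
      (LinearMap.submoduleMap_surjective _ _) (Set.range e) (Set.finite_range _)
      (fun l => ⟨x0 l, Finsupp.single_mem_supported R _ (by simp)⟩)
      ⟨u0, Finsupp.single_mem_supported R _ (by simp)⟩ (fun l => Subtype.ext ?_) fun l z => ?_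
    · show c l • x0 l = u0
      rw [x0, u0, Finsupp.smul_single]
      simp
    · refine ⟨(z.1 (0, 0)).2.2.1 l, ∑ i, ((z.1 i.1).2.1 l) • a l • e i,
        Submodule.sum_mem _ fun i _ => Submodule.smul_mem _ _
          (Submodule.subset_span ⟨_, ⟨i, rfl⟩, rfl⟩), Subtype.ext (Subtype.ext ?_)⟩
      have hs : ∀ i : I, ((∑ i, ((z.1 i.1).2.1 l) • a l • e i : P T) : C) i =
          (0, Finsupp.single l ((z.1 i).2.1 l), 0, 0) := by
        intro i
        rw [Submodule.coe_sum, Finsupp.finsetSum_apply]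
        by_cases hi : i ∈ insert ((0, 0) : I) T
        · rw [Finset.sum_eq_single ⟨i, hi⟩]
          · simp [e]
          · intro k _ hk
            have : k.1 ≠ i := fun h => hk (Subtype.ext h)
            simp [e, Finsupp.single_eq_of_ne this.symm]
          · intro h
            exact absurd (Finset.mem_univ _) h
        · have h0 : z.1 i = 0 := (Finsupp.mem_supported' R z.1).1 z.2 i (by simpa using hi)
          rw [h0, Finset.sum_eq_zero]
          · simp [Prod.ext_iff]
          · intro k _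
            have : k.1 ≠ i := fun h => hi (h ▸ k.2)
            simp [e, Finsupp.single_eq_of_ne this.symm]
      show io j (p l • z.1 - ((z.1 (0, 0)).2.2.1 l) • p l • x0 l - _) = 0
      rw [← io_f, f_eq_zero, map_zero]
      · intro i
        rw [Finsupp.sub_apply, hs]
        by_cases hi : i = (0, 0)
        · subst hi
          simp [x0]
        · simp [x0, Finsupp.single_eq_of_ne hi]
      · rw [Finsupp.sub_apply, hs]
        simp [x0]

lemma range_mono : Monotone fun j => LinearMap.range (io j) := by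
  refine monotone_nat_of_le_succ fun j => ?_
  rintro _ ⟨y, rfl⟩
  exact ⟨f j y, io_f j y⟩

end Pool.Agent.H455Z.LimCyc
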