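import Mathlib
import Pool.Agent.H455Z.LimN

set_option autoImplicit false

open CategoryTheory CategoryTheory.Limits

namespace Pool.Agent.H455Z.LimFin

open Pool.Agent.H455Z.LimRing Pool.Agent.H455Z.LimCat Pool.Agent.H455Z.LimN

theorem not_lim_add :
    ¬ (∃ (J : Type) (_ : SmallCategory J) (_ : IsFiltered J) (F : J ⥤ ModuleCat.{0} R),
        (∀ j : J, ∃ (n : ℕ) (X : Fin n → ModuleCat.{0} R), (∀ i, X i = ModuleCat.of R M) ∧
          ∃ (f : (F.obj j : Type) →ₗ[R] DirectSum (Fin n) (fun i => (X i : Type)))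
            (g : DirectSum (Fin n) (fun i => (X i : Type)) →ₗ[R] (F.obj j : Type)),
            g ∘ₗ f = LinearMap.id) ∧
        ∃ c : Limits.Cocone F, Nonempty (Limits.IsColimit c) ∧ Nonempty (c.pt ≅ N)) := by
  rintro ⟨J, i1, i2, G, hG, d, ⟨hd⟩, ⟨e⟩⟩
  refine not_lim G (fun j => ?_) d hd e
  obtain ⟨n, X, hX, s, r, h⟩ := hG j
  obtain rfl : X = fun _ => ModuleCat.of R M := funext hX
  exact Good.retract s r h (good_dsum n)

theorem lim_Add :
    (∃ (J : Type) (_ : SmallCategory J) (_ : IsFiltered J) (F : J ⥤ ModuleCat.{0} R),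
        (∀ j : J, ∃ (ι : Type) (X : ι → ModuleCat.{0} R), (∀ i, X i = ModuleCat.of R M) ∧
          ∃ (f : (F.obj j : Type) →ₗ[R] DirectSum ι (fun i => (X i : Type)))
            (g : DirectSum ι (fun i => (X i : Type)) →ₗ[R] (F.obj j : Type)),
            g ∘ₗ f = LinearMap.id) ∧
        ∃ c : Limits.Cocone F, Nonempty (Limits.IsColimit c) ∧ Nonempty (c.pt ≅ N)) := by
  classical
  refine ⟨ℕ, inferInstance, inferInstance, F, fun j => ⟨I, fun _ => ModuleCat.of R M,
    fun _ => rfl, (finsuppLEquivDirectSum R M I).toLinearMap,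
    (finsuppLEquivDirectSum R M I).symm.toLinearMap, LinearMap.ext fun x => ?_⟩,
    cc, ⟨hcc⟩, ⟨Iso.refl _⟩⟩
  exact (finsuppLEquivDirectSum R M I).symm_apply_apply x

end Pool.Agent.H455Z.LimFin
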