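import Mathlib

set_option autoImplicit false

open MeasureTheory Matrix
open scoped ENNReal

namespace Pool.Agent.H455Z.W

lemma rearr {a a' b b' : ℝ≥0∞} (ha : a ≤ a') (hb : b ≤ b') :
    a * b' + a' * b ≤ a * b + a' * b' := by
  obtain ⟨p, rfl⟩ := exists_add_of_le ha
  obtain ⟨q, rfl⟩ := exists_add_of_le hb
  calc a * (b + q) + (a + p) * b ≤ a * (b + q) + (a + p) * b + p * q := le_self_add
    _ = _ := by ring

lemma le_of_add_self {a b : ℝ≥0∞} (h : a + a ≤ b + b) : a ≤ b := by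
  rw [← two_mul, ← two_mul] at h
  exact (ENNReal.mul_le_mul_iff_right two_ne_zero ENNReal.ofNat_ne_top).1 h

lemma cheb {α : Type*} [MeasurableSpace α] (μ : Measure α) [SFinite μ] (w f g : α → ℝ≥0∞)
    (hw : Measurable w) (hf : Measurable f) (hg : Measurable g)
    (h : ∀ x y, w x ≠ 0 → w y ≠ 0 → (f x ≤ f y ∧ g x ≤ g y) ∨ (f y ≤ f x ∧ g y ≤ g x)) :
    (∫⁻ x, w x * f x ∂μ) * (∫⁻ x, w x * g x ∂μ) ≤
      (∫⁻ x, w x ∂μ) * ∫⁻ x, w x * (f x * g x) ∂μ := by
  have key : ∀ z : α × α, (w z.1 * f z.1) * (w z.2 * g z.2) + (w z.1 * g z.1) * (w z.2 * f z.2) ≤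
      w z.1 * (w z.2 * (f z.2 * g z.2)) + (w z.1 * (f z.1 * g z.1)) * w z.2 := by
    rintro ⟨x, y⟩
    dsimp only
    by_cases hx : w x = 0
    · simp [hx]
    by_cases hy : w y = 0
    · simp [hy]
    have h1 : f x * g y + f y * g x ≤ f x * g x + f y * g y := by
      rcases h x y hx hy with ⟨h1, h2⟩ | ⟨h1, h2⟩
      · exact rearr h1 h2
      · rw [add_comm (f x * g y), add_comm (f x * g x)]
        exact rearr h1 h2
    calc _ = w x * w y * (f x * g y + f y * g x) := by ring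
      _ ≤ w x * w y * (f x * g x + f y * g y) := by gcongr
      _ = _ := by ring
  have h2 := lintegral_mono (μ := μ.prod μ) key
  rw [lintegral_add_left (by fun_prop), lintegral_add_left (by fun_prop),
    lintegral_prod_mul (f := fun x => w x * f x) (g := fun x => w x * g x) (by fun_prop)
      (by fun_prop),
    lintegral_prod_mul (f := fun x => w x * g x) (g := fun x => w x * f x) (by fun_prop)
      (by fun_prop),
    lintegral_prod_mul (f := fun x => w x) (g := fun x => w x * (f x * g x)) (by fun_prop)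
      (by fun_prop),
    lintegral_prod_mul (f := fun x => w x * (f x * g x)) (g := fun x => w x) (by fun_prop)
      (by fun_prop)] at h2
  apply le_of_add_self
  convert h2 using 2 <;> ring

lemma lintegral_linear {κ : Type*} [Fintype κ] (L : (κ → ℝ) →ₗ[ℝ] (κ → ℝ))
    (hL : LinearMap.det L ≠ 0) (f : (κ → ℝ) → ℝ≥0∞) :
    ∫⁻ v, f v = ENNReal.ofReal |LinearMap.det L| * ∫⁻ u, f (L u) := by
  have he : MeasurableEmbedding L :=
    (LinearMap.equivOfDetNeZero L hL).toContinuousLinearEquiv.toHomeomorph.measurableEmbedding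
  rw [← he.lintegral_map, Real.map_linearMap_volume_pi_eq_smul_volume_pi hL, lintegral_smul_measure,
    smul_eq_mul, ← mul_assoc, ← ENNReal.ofReal_mul (abs_nonneg _), ← abs_mul,
    mul_inv_cancel₀ hL]
  simp

lemma lintegral_mulVec {κ : Type*} [Fintype κ] [DecidableEq κ] (M : Matrix κ κ ℝ)
    (hM : M.det ≠ 0) (f : (κ → ℝ) → ℝ≥0∞) :
    ∫⁻ v, f v = ENNReal.ofReal |M.det| * ∫⁻ u, f (M *ᵥ u) := by
  have h := lintegral_linear (Matrix.toLin' M) (by rwa [LinearMap.det_toLin']) f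
  simpa [LinearMap.det_toLin'] using h

lemma lintegral_orth {κ : Type*} [Fintype κ] [DecidableEq κ] (M : Matrix κ κ ℝ)
    (hM : Mᵀ * M = 1) (f : (κ → ℝ) → ℝ≥0∞) :
    ∫⁻ u, f (M *ᵥ u) = ∫⁻ v, f v := by
  have h1 : M.det * M.det = 1 := by
    have := congrArg Matrix.det hM
    rwa [det_mul, det_transpose, det_one] at this
  have h2 : |M.det| = 1 := by
    have : |M.det| * |M.det| = 1 := by rw [← abs_mul, h1, abs_one]
    nlinarith [abs_nonneg M.det]
  rw [lintegral_mulVec M (by intro h; simp [h] at h1) f, h2]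
  simp

/-- Gaussian weight as a function of the squared norm -/
noncomputable def gam (t : ℝ) : ℝ≥0∞ := ENNReal.ofReal (Real.exp (-t / 2))

@[fun_prop] lemma measurable_gam : Measurable gam := by
  unfold gam
  fun_prop

lemma gam_anti {s t : ℝ} (h : s ≤ t) : gam t ≤ gam s :=
  ENNReal.ofReal_le_ofReal (Real.exp_le_exp.2 (by linarith))

lemma gam_add (s t : ℝ) : gam (s + t) = gam s * gam t := by
  unfold gam
  rw [← ENNReal.ofReal_mul (Real.exp_pos _).le, ← Real.exp_add]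
  congr 2
  ring

lemma gam_ne_top (t : ℝ) : gam t ≠ ∞ := ENNReal.ofReal_ne_top

lemma gam_ne_zero (t : ℝ) : gam t ≠ 0 := by
  unfold gam
  simpa using Real.exp_pos _

@[fun_prop] lemma measurable_dot {α κ : Type*} [MeasurableSpace α] [Fintype κ]
    {f g : α → κ → ℝ} (hf : Measurable f) (hg : Measurable g) :
    Measurable fun x => f x ⬝ᵥ g x := by
  unfold dotProduct
  fun_prop

lemma dot_self_nonneg {κ : Type*} [Fintype κ] (u : κ → ℝ) : 0 ≤ u ⬝ᵥ u :=
  Finset.sum_nonneg fun _ _ => mul_self_nonneg _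

lemma refl_ineq {κ : Type*} [Fintype κ] (h : (κ → ℝ) → ℝ≥0∞) (hm : Measurable h)
    (θ θ' : κ → ℝ)
    (H : ∀ (y : κ → ℝ) (t : ℝ), 0 ≤ t →
      t * ((θ' - θ) ⬝ᵥ (θ' - θ)) = y ⬝ᵥ (θ' - θ) - (θ' ⬝ᵥ θ' - θ ⬝ᵥ θ) / 2 →
      h (y - (2 * t) • (θ' - θ)) ≤ h y) :
    ∫⁻ g, gam (g ⬝ᵥ g) * h (g + θ) ≤ ∫⁻ g, gam (g ⬝ᵥ g) * h (g + θ') := by
  classical
  by_cases hd : θ' = θ
  · rw [hd]
  set d := θ' - θ with hd'
  have hd0 : 0 < d ⬝ᵥ d := by
    refine lt_of_le_of_ne (dot_self_nonneg d) fun h0 => hd ?_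
    have := dotProduct_self_eq_zero.1 h0.symm
    exact sub_eq_zero.1 this
  set e : ℝ := (θ' ⬝ᵥ θ' - θ ⬝ᵥ θ) / 2 with he
  let lam : (κ → ℝ) → ℝ := fun y => (y ⬝ᵥ d - e) / (d ⬝ᵥ d)
  let r : (κ → ℝ) → κ → ℝ := fun y => y - (2 * lam y) • d
  have hlam : ∀ y, lam y * (d ⬝ᵥ d) = y ⬝ᵥ d - e := fun y => div_mul_cancel₀ _ hd0.ne'
  have hlr : ∀ y, lam (r y) = -lam y := by
    intro y
    show ((y - (2 * lam y) • d) ⬝ᵥ d - e) / (d ⬝ᵥ d) = -lam y
    rw [sub_dotProduct, smul_dotProduct, smul_eq_mul, div_eq_iff hd0.ne']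
    linear_combination -hlam y
  have hrr : ∀ y, r (r y) = y := by
    intro y
    show r y - (2 * lam (r y)) • d = y
    rw [hlr]
    show y - (2 * lam y) • d - (2 * -lam y) • d = y
    rw [mul_neg, neg_smul]
    abel
  have hθ' : θ' = θ + d := by rw [hd']; abel
  have he2 : e = θ ⬝ᵥ d + (d ⬝ᵥ d) / 2 := by
    rw [he, hθ', add_dotProduct, dotProduct_add, dotProduct_add, dotProduct_comm d θ]
    ring
  have hn : ∀ y, (r y - θ) ⬝ᵥ (r y - θ) = (y - θ') ⬝ᵥ (y - θ') := by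
    intro y
    have h1 : r y - θ = (y - θ) - (2 * lam y) • d := by
      show y - (2 * lam y) • d - θ = _
      abel
    have h2 : y - θ' = (y - θ) - d := by rw [hθ']; abel
    have h3 : (y - θ) ⬝ᵥ d = y ⬝ᵥ d - θ ⬝ᵥ d := sub_dotProduct _ _ _
    rw [h1, h2]
    generalize y - θ = z at h3 ⊢
    simp only [sub_dotProduct, dotProduct_sub, smul_dotProduct, dotProduct_smul, smul_eq_mul,
      dotProduct_comm d z]
    have h4 := hlam y
    rw [he2] at h4
    linear_combination (4 * lam y + 2) * h4 - (4 * lam y - 2) * h3 - 4 * h4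
  have hn2 : ∀ y, (y - θ) ⬝ᵥ (y - θ) - (y - θ') ⬝ᵥ (y - θ') = 2 * (lam y * (d ⬝ᵥ d)) := by
    intro y
    rw [hlam, he, hd']
    simp only [sub_dotProduct, dotProduct_sub, dotProduct_comm θ y, dotProduct_comm θ' y]
    ring
  have hrm : Measurable r := by
    show Measurable fun y => y - (2 * ((y ⬝ᵥ d - e) / (d ⬝ᵥ d))) • d
    fun_prop
  have hint : ∀ f : (κ → ℝ) → ℝ≥0∞, ∫⁻ y, f (r y) = ∫⁻ y, f y := by
    intro f
    let M : Matrix κ κ ℝ := 1 - (2 / (d ⬝ᵥ d)) • vecMulVec d d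
    have hM : Mᵀ * M = 1 := by
      simp only [M, transpose_sub, transpose_one, transpose_smul, transpose_vecMulVec,
        Matrix.sub_mul, Matrix.mul_sub, Matrix.one_mul, Matrix.mul_one, Matrix.smul_mul,
        Matrix.mul_smul, vecMulVec_mul_vecMulVec, vecMulVec_smul, smul_smul]
      have : 2 / (d ⬝ᵥ d) * (2 / (d ⬝ᵥ d) * (d ⬝ᵥ d)) = 2 / (d ⬝ᵥ d) + 2 / (d ⬝ᵥ d) := by
        field_simp
        ring
      rw [smul_sub, smul_smul, this, add_smul]
      abel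
    have hr2 : ∀ y, r y = M *ᵥ y + (2 * e / (d ⬝ᵥ d)) • d := by
      intro y
      show y - (2 * ((y ⬝ᵥ d - e) / (d ⬝ᵥ d))) • d = _
      simp only [M, sub_mulVec, one_mulVec, smul_mulVec, vecMulVec_mulVec]
      funext k
      simp only [Pi.sub_apply, Pi.add_apply, Pi.smul_apply, smul_eq_mul, op_smul_eq_mul,
        dotProduct_comm d y]
      ring
    simp_rw [hr2]
    rw [lintegral_orth M hM (fun v => f (v + (2 * e / (d ⬝ᵥ d)) • d)), lintegral_add_right_eq_self]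
  have hsh : ∀ η : κ → ℝ, ∫⁻ g, gam (g ⬝ᵥ g) * h (g + η) =
      ∫⁻ y, gam ((y - η) ⬝ᵥ (y - η)) * h y := by
    intro η
    rw [← lintegral_add_right_eq_self (fun y => gam ((y - η) ⬝ᵥ (y - η)) * h y) η]
    simp
  rw [hsh, hsh]
  apply le_of_add_self
  have key : ∀ y, gam ((y - θ) ⬝ᵥ (y - θ)) * h y + gam ((r y - θ) ⬝ᵥ (r y - θ)) * h (r y) ≤
      gam ((y - θ') ⬝ᵥ (y - θ')) * h y + gam ((r y - θ') ⬝ᵥ (r y - θ')) * h (r y) := by
    intro y
    have h5 : (r y - θ') ⬝ᵥ (r y - θ') = (y - θ) ⬝ᵥ (y - θ) := by rw [← hn, hrr]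
    rw [hn, h5]
    rcases le_total 0 (lam y) with h0 | h0
    · have h6 : h (r y) ≤ h y := H y (lam y) h0 (hlam y)
      have h7 : gam ((y - θ) ⬝ᵥ (y - θ)) ≤ gam ((y - θ') ⬝ᵥ (y - θ')) :=
        gam_anti (by nlinarith [hn2 y, mul_nonneg h0 hd0.le])
      rw [add_comm (gam ((y - θ') ⬝ᵥ (y - θ')) * h y)]
      exact rearr h7 h6
    · have h6 : h y ≤ h (r y) := by
        have := H (r y) (lam (r y)) (by rw [hlr]; linarith) (hlam _)
        rwa [show r y - (2 * lam (r y)) • d = y from hrr y] at this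
      have h7 : gam ((y - θ') ⬝ᵥ (y - θ')) ≤ gam ((y - θ) ⬝ᵥ (y - θ)) :=
        gam_anti (by nlinarith [hn2 y, mul_nonneg (neg_nonneg.2 h0) hd0.le])
      rw [add_comm (gam ((y - θ) ⬝ᵥ (y - θ)) * h y)]
      exact rearr h7 h6
  have h8 := lintegral_mono (μ := volume) key
  rw [lintegral_add_left (by fun_prop), lintegral_add_left (by fun_prop),
    hint (fun y => gam ((y - θ) ⬝ᵥ (y - θ)) * h y),
    hint (fun y => gam ((y - θ') ⬝ᵥ (y - θ')) * h y)] at h8
  exact h8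

end Pool.Agent.H455Z.W
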