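import Mathlib
import Pool.Agent.H455Z.W1

set_option autoImplicit false

open MeasureTheory Matrix Set Filter Topology

namespace Pool.Agent.H455Z.W

variable {R : Type} [Fintype R]

/-- squared radius -/
def rad (u : R → ℝ) (s : ℝ) : ℝ := u ⬝ᵥ u + s

lemma rad_pos (u : R → ℝ) {s : ℝ} (hs : 0 < s) : 0 < rad u s :=
  add_pos_of_nonneg_of_pos (dot_self_nonneg u) hs

@[fun_prop] lemma measurable_rad {α : Type*} [MeasurableSpace α] {f : α → R → ℝ} {g : α → ℝ}
    (hf : Measurable f) (hg : Measurable g) : Measurable fun x => rad (f x) (g x) := by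
  unfold rad
  fun_prop

/-- measurable with Gaussian decay -/
def Dec (F : (R → ℝ) → ℝ → ℝ) : Prop :=
  Measurable (fun p : (R → ℝ) × ℝ => F p.1 p.2) ∧
    ∃ C : ℝ, ∀ u s, 0 < s → |F u s| ≤ C * Real.exp (-(rad u s) / 16)

lemma Dec.add {F G : (R → ℝ) → ℝ → ℝ} (hF : Dec F) (hG : Dec G) :
    Dec fun u s => F u s + G u s := by
  obtain ⟨h1, C, hC⟩ := hF
  obtain ⟨h2, D, hD⟩ := hG
  refine ⟨h1.add h2, C + D, fun u s hs => (abs_add_le _ _).trans ?_⟩
  linarith [hC u s hs, hD u s hs]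

lemma integrable_gauss {c : ℝ} (hc : 0 < c) :
    Integrable fun u : R → ℝ => Real.exp (-c * (u ⬝ᵥ u)) := by
  have h := Integrable.fintype_prod (ι := R) (f := fun _ (t : ℝ) => Real.exp (-c * t ^ 2))
    (μ := fun _ => volume) fun _ => integrable_exp_neg_mul_sq hc
  refine Integrable.congr h (ae_of_all _ fun u => ?_)
  dsimp only
  rw [← Real.exp_sum, dotProduct, Finset.mul_sum]
  congr 1
  exact Finset.sum_congr rfl fun i _ => by ring

lemma integrableOn_gamma {b c : ℝ} (hb : 0 < b) (hc : 0 < c) :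
    IntegrableOn (fun s : ℝ => s ^ (b - 1) * Real.exp (-c * s)) (Ioi 0) := by
  have h := integrableOn_rpow_mul_exp_neg_mul_rpow (p := 1) (s := b - 1) (b := c) (by linarith)
    one_pos hc
  simpa using h

lemma exp_rad (u : R → ℝ) (s : ℝ) : Real.exp (-(rad u s) / 16) =
    Real.exp (-(1 / 16) * (u ⬝ᵥ u)) * Real.exp (-(1 / 16) * s) := by
  rw [← Real.exp_add, rad]
  congr 1
  ring

lemma Dec.int_u {F : (R → ℝ) → ℝ → ℝ} (hF : Dec F) {s : ℝ} (hs : 0 < s) :
    Integrable fun u => F u s := by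
  obtain ⟨h1, C, hC⟩ := hF
  refine Integrable.mono' (((integrable_gauss (c := 1 / 16) (by norm_num)).mul_const
    (Real.exp (-(1 / 16) * s))).const_mul C) ?_ (ae_of_all _ fun u => ?_)
  · exact (h1.comp (measurable_id.prodMk measurable_const)).aestronglyMeasurable
  · rw [← exp_rad]
    exact hC u s hs

lemma Dec.int_prod {F : (R → ℝ) → ℝ → ℝ} (hF : Dec F) {b : ℝ} (hb : 0 < b) :
    Integrable (fun p : (R → ℝ) × ℝ => p.2 ^ (b - 1) * F p.1 p.2)
      (volume.prod (volume.restrict (Ioi 0))) := by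
  obtain ⟨h1, C, hC⟩ := hF
  have h2 := ((integrable_gauss (R := R) (c := 1 / 16) (by norm_num)).mul_prod
    (integrableOn_gamma (c := 1 / 16) hb (by norm_num))).const_mul C
  refine Integrable.mono' h2 (by fun_prop) ?_
  have h3 : ∀ᵐ p : (R → ℝ) × ℝ ∂(volume.prod (volume.restrict (Ioi 0))), 0 < p.2 := by
    rw [Measure.ae_prod_iff_ae_ae (measurableSet_lt measurable_const measurable_snd)]
    exact ae_of_all _ fun u => ae_restrict_mem measurableSet_Ioi
  filter_upwards [h3] with p hp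
  have h4 : 0 ≤ p.2 ^ (b - 1) := Real.rpow_nonneg hp.le _
  rw [Real.norm_eq_abs, abs_mul, abs_of_nonneg h4]
  calc _ ≤ p.2 ^ (b - 1) * (C * Real.exp (-(rad p.1 p.2) / 16)) :=
        mul_le_mul_of_nonneg_left (hC _ _ hp) h4
    _ = _ := by rw [exp_rad]; ring

lemma Dec.int_s {F : (R → ℝ) → ℝ → ℝ} (hF : Dec F) {b : ℝ} (hb : 0 < b) (u : R → ℝ) :
    IntegrableOn (fun s => s ^ (b - 1) * F u s) (Ioi 0) := by
  obtain ⟨h1, C, hC⟩ := hF
  have h2 := ((integrableOn_gamma (c := 1 / 16) hb (by norm_num)).const_mul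
    (Real.exp (-(1 / 16) * (u ⬝ᵥ u)))).const_mul C
  have h5 : Measurable fun s => F u s := h1.comp (measurable_const.prodMk measurable_id)
  refine Integrable.mono' h2 (by fun_prop) ?_
  filter_upwards [ae_restrict_mem measurableSet_Ioi] with s hs
  have h4 : 0 ≤ s ^ (b - 1) := Real.rpow_nonneg (le_of_lt hs) _
  rw [Real.norm_eq_abs, abs_mul, abs_of_nonneg h4]
  calc _ ≤ s ^ (b - 1) * (C * Real.exp (-(rad u s) / 16)) :=
        mul_le_mul_of_nonneg_left (hC _ _ hs) h4
    _ = _ := by rw [exp_rad]; ring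

lemma Dec.zero_u [DecidableEq R] {A A' : (R → ℝ) → ℝ → ℝ} (hA : Dec A) (hA' : Dec A') (k : R)
    (h : ∀ u s, 0 < s → HasDerivAt (fun t : ℝ => A (u + t • Pi.single k 1) s) (A' u s) 0)
    {b : ℝ} (hb : 0 < b) :
    ∫ p : (R → ℝ) × ℝ, p.2 ^ (b - 1) * A' p.1 p.2 ∂(volume.prod (volume.restrict (Ioi 0))) = 0 := by
  rw [integral_prod_symm _ (hA'.int_prod hb)]
  refine setIntegral_eq_zero_of_forall_eq_zero fun s hs => ?_
  dsimp only
  rw [integral_const_mul]
  have := integral_bilinear_hasLineDerivAt_right_eq_neg_left_of_integrable (μ := volume)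
    (f := fun u => A u s) (f' := fun u => A' u s) (g := fun _ => (1 : ℝ)) (g' := fun _ => 0)
    (v := Pi.single k 1) (B := ContinuousLinearMap.mul ℝ ℝ)
    (by simpa using hA'.int_u hs) (by simp) (by simpa using hA.int_u hs)
    (fun u _ => h u s hs) (fun u _ => hasDerivAt_const _ _)
  simp only [ContinuousLinearMap.mul_apply', mul_zero, integral_zero, mul_one, zero_eq_neg] at this
  rw [this, mul_zero]

lemma Dec.zero_s {B B' : (R → ℝ) → ℝ → ℝ} (hB : Dec B) (hB' : Dec B') {b : ℝ} (hb : 0 < b)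
    (h : ∀ u s, 0 < s → HasDerivAt (fun t : ℝ => t ^ b * B u t) (s ^ (b - 1) * B' u s) s) :
    ∫ p : (R → ℝ) × ℝ, p.2 ^ (b - 1) * B' p.1 p.2 ∂(volume.prod (volume.restrict (Ioi 0))) = 0 := by
  rw [integral_prod _ (hB'.int_prod hb)]
  refine integral_eq_zero_of_ae (ae_of_all _ fun u => ?_)
  obtain ⟨_, C, hC⟩ := hB
  have hC0 : 0 ≤ C := by
    have := (abs_nonneg _).trans (hC u 1 one_pos)
    exact nonneg_of_mul_nonneg_left this (Real.exp_pos _)
  have hbd : ∀ s, 0 ≤ s → ‖s ^ b * B u s‖ ≤ C * (s ^ b * Real.exp (-(1 / 16) * s)) := by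
    intro s hs
    rcases hs.eq_or_lt with rfl | hs
    · simp [Real.zero_rpow hb.ne']
    have h4 : 0 ≤ s ^ b := Real.rpow_nonneg hs.le _
    rw [Real.norm_eq_abs, abs_mul, abs_of_nonneg h4]
    have h5 : Real.exp (-(rad u s) / 16) ≤ Real.exp (-(1 / 16) * s) :=
      Real.exp_le_exp.2 (by unfold rad; linarith [dot_self_nonneg u])
    calc _ ≤ s ^ b * (C * Real.exp (-(1 / 16) * s)) :=
          mul_le_mul_of_nonneg_left ((hC _ _ hs).trans (by gcongr)) h4
      _ = _ := by ring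
  have h1 : Tendsto (fun t : ℝ => t ^ b * B u t) atTop (𝓝 0) := by
    have h2 := (tendsto_rpow_mul_exp_neg_mul_atTop_nhds_zero b (1 / 16) (by norm_num)).const_mul C
    rw [mul_zero] at h2
    refine squeeze_zero_norm' ?_ h2
    filter_upwards [eventually_ge_atTop 0] with s hs using hbd s hs
  have h2 : ContinuousWithinAt (fun t : ℝ => t ^ b * B u t) (Ici 0) 0 := by
    have h3 : Continuous fun s : ℝ => C * (s ^ b * Real.exp (-(1 / 16) * s)) := by
      have := Real.continuous_rpow_const hb.le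
      fun_prop
    have h4 := (h3.tendsto 0).mono_left (nhdsWithin_le_nhds (s := Ici 0))
    simp only [Real.zero_rpow hb.ne', zero_mul, mul_zero] at h4
    unfold ContinuousWithinAt
    simp only [Real.zero_rpow hb.ne', zero_mul]
    refine squeeze_zero_norm' ?_ h4
    filter_upwards [self_mem_nhdsWithin] with s hs using hbd s hs
  have := integral_Ioi_of_hasDerivAt_of_tendsto h2 (fun s hs => h u s hs) (hB'.int_s hb u) h1
  simpa [Real.zero_rpow hb.ne'] using this

/-- a one-variable function with exponential decay -/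
def Dec1 (χ : ℝ → ℝ) : Prop :=
  Measurable χ ∧ ∃ C : ℝ, ∀ x, 0 < x → |χ x| ≤ C * Real.exp (-x / 4)

lemma dec_term {g m : (R → ℝ) → ℝ → ℝ} {χ : ℝ → ℝ}
    (hg : Measurable fun p : (R → ℝ) × ℝ => g p.1 p.2)
    (hgr : ∃ C : ℝ, ∀ u s, 0 < s → g u s ≤ C + rad u s / 8) (hχ : Dec1 χ)
    (hm : Measurable fun p : (R → ℝ) × ℝ => m p.1 p.2) (K : ℝ)
    (hK : ∀ u s, 0 < s → |m u s| ≤ K * (1 + rad u s)) :
    Dec fun u s => m u s * (Real.exp (g u s) * χ (rad u s)) := by
  obtain ⟨C, hC⟩ := hgr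
  obtain ⟨h1, D, hD⟩ := hχ
  refine ⟨by fun_prop, K * 16 * (Real.exp C * D), fun u s hs => ?_⟩
  have hx := rad_pos u hs
  have h2 := hK u s hs
  have h3 := hD _ hx
  have h4 : Real.exp (g u s) ≤ Real.exp C * Real.exp (rad u s / 8) := by
    rw [← Real.exp_add]
    exact Real.exp_le_exp.2 (hC u s hs)
  have hK0 : 0 ≤ K := nonneg_of_mul_nonneg_left ((abs_nonneg _).trans h2) (by linarith)
  have hD0 : 0 ≤ D := nonneg_of_mul_nonneg_left ((abs_nonneg _).trans h3) (Real.exp_pos _)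
  have h5 : 1 + rad u s ≤ 16 * Real.exp (rad u s / 16) := by
    linarith [Real.add_one_le_exp (rad u s / 16)]
  have h6 : Real.exp (rad u s / 16) * (Real.exp (rad u s / 8) * Real.exp (-rad u s / 4)) =
      Real.exp (-rad u s / 16) := by
    rw [← Real.exp_add, ← Real.exp_add]
    congr 1
    ring
  rw [abs_mul, abs_mul, abs_of_pos (Real.exp_pos _)]
  calc _ ≤ (K * (16 * Real.exp (rad u s / 16))) *
        ((Real.exp C * Real.exp (rad u s / 8)) * (D * Real.exp (-rad u s / 4))) := by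
        gcongr
        exact h2.trans (by gcongr)
    _ = _ := by rw [← h6]; ring

/-- logarithms of subharmonic functions for the Weinstein operator -/
structure AdmD [DecidableEq R] (b : ℝ) (g : (R → ℝ) → ℝ → ℝ) (g1 g2 : R → (R → ℝ) → ℝ → ℝ)
    (gs gss : (R → ℝ) → ℝ → ℝ) (M : ℝ) : Prop where
  m0 : Measurable fun p : (R → ℝ) × ℝ => g p.1 p.2
  m1 : ∀ k, Measurable fun p : (R → ℝ) × ℝ => g1 k p.1 p.2
  m2 : ∀ k, Measurable fun p : (R → ℝ) × ℝ => g2 k p.1 p.2
  ms : Measurable fun p : (R → ℝ) × ℝ => gs p.1 p.2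
  mss : Measurable fun p : (R → ℝ) × ℝ => gss p.1 p.2
  d1 : ∀ k u s, 0 < s → HasDerivAt (fun t : ℝ => g (u + t • Pi.single k 1) s) (g1 k u s) 0
  d2 : ∀ k u s, 0 < s → HasDerivAt (fun t : ℝ => g1 k (u + t • Pi.single k 1) s) (g2 k u s) 0
  ds : ∀ u s, 0 < s → HasDerivAt (g u) (gs u s) s
  dss : ∀ u s, 0 < s → HasDerivAt (gs u) (gss u s) s
  b1 : ∀ k u s, 0 < s → |g1 k u s| ≤ M
  b2 : ∀ k u s, 0 < s → |g2 k u s| ≤ M
  bs : ∀ u s, 0 < s → |gs u s| ≤ M
  bss : ∀ u s, 0 < s → |gss u s| ≤ M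
  sub : ∀ u s, 0 < s → 0 ≤ ∑ k, g2 k u s + 4 * s * gss u s + 4 * b * gs u s
  gr : ∀ δ : ℝ, 0 < δ → ∃ C : ℝ, ∀ u s, 0 < s → g u s ≤ C + δ * rad u s

lemma rad_deriv [DecidableEq R] (k : R) (u : R → ℝ) (s : ℝ) :
    HasDerivAt (fun t : ℝ => rad (u + t • Pi.single k 1) s) (2 * u k) 0 := by
  have : (fun t : ℝ => rad (u + t • Pi.single k 1) s) =
      fun t => u ⬝ᵥ u + s + 2 * u k * t + t ^ 2 := by
    funext t
    simp only [rad, add_dotProduct, dotProduct_add, smul_dotProduct, dotProduct_smul,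
      dotProduct_single, single_dotProduct, smul_eq_mul, Pi.single_eq_same, Pi.add_apply,
      Pi.smul_apply]
    ring
  rw [this]
  have h := ((hasDerivAt_const (0 : ℝ) (u ⬝ᵥ u + s)).add
    ((hasDerivAt_id (0 : ℝ)).const_mul (2 * u k))).add (hasDerivAt_pow 2 (0 : ℝ))
  refine HasDerivAt.congr_deriv h ?_
  simp

lemma sq_le_rad (k : R) (u : R → ℝ) {s : ℝ} (hs : 0 < s) : u k * u k ≤ rad u s := by
  have : u k * u k ≤ u ⬝ᵥ u :=
    Finset.single_le_sum (f := fun i => u i * u i) (fun _ _ => mul_self_nonneg _)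
      (Finset.mem_univ k)
  unfold rad
  linarith

theorem green [DecidableEq R] {b : ℝ} (hb : 0 < b) {g : (R → ℝ) → ℝ → ℝ}
    {g1 g2 : R → (R → ℝ) → ℝ → ℝ} {gs gss : (R → ℝ) → ℝ → ℝ} {M : ℝ}
    (hg : AdmD b g g1 g2 gs gss M) {h ψ Ψ : ℝ → ℝ} (hh : Dec1 h) (hψ : Dec1 ψ) (hΨ : Dec1 Ψ)
    (dΨ : ∀ x, 0 < x → HasDerivAt Ψ (-ψ x / 2) x)
    (dψ : ∀ x, 0 < x → HasDerivAt ψ (-(h x + (Fintype.card R + 2 * b) * ψ x) / (2 * x)) x)
    (Ψ0 : ∀ x, 0 < x → 0 ≤ Ψ x) :
    0 ≤ ∫ p : (R → ℝ) × ℝ, p.2 ^ (b - 1) * (Real.exp (g p.1 p.2) * h (rad p.1 p.2))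
      ∂(volume.prod (volume.restrict (Ioi 0))) := by
  set n : ℝ := Fintype.card R + 2 * b with hn
  have hn0 : 0 < n := by positivity
  have hM : 0 ≤ M := (abs_nonneg _).trans (hg.bs 0 1 one_pos)
  have hgr : ∃ C : ℝ, ∀ u s, 0 < s → g u s ≤ C + rad u s / 8 := by
    obtain ⟨C, hC⟩ := hg.gr (1 / 8) (by norm_num)
    exact ⟨C, fun u s hs => by linarith [hC u s hs]⟩
  have m1 := hg.m1
  have m2 := hg.m2
  have ms := hg.ms
  have mss := hg.mss
  have T : ∀ {χ : ℝ → ℝ} (_ : Dec1 χ) {m : (R → ℝ) → ℝ → ℝ}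
      (_ : Measurable fun p : (R → ℝ) × ℝ => m p.1 p.2) (K : ℝ)
      (_ : ∀ u s, 0 < s → |m u s| ≤ K * (1 + rad u s)),
      Dec fun u s => m u s * (Real.exp (g u s) * χ (rad u s)) :=
    fun hχ _ hm K hK => dec_term hg.m0 hgr hχ hm K hK
  have bd : ∀ {y K x : ℝ}, |y| ≤ K → 0 < x → |y| ≤ K * (1 + x) := fun h1 h2 => by
    nlinarith [abs_nonneg _ |>.trans h1]
  let A : R → (R → ℝ) → ℝ → ℝ := fun k u s =>
    g1 k u s * (Real.exp (g u s) * Ψ (rad u s)) + u k * (Real.exp (g u s) * ψ (rad u s))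
  let A' : R → (R → ℝ) → ℝ → ℝ := fun k u s =>
    (g2 k u s + g1 k u s * g1 k u s) * (Real.exp (g u s) * Ψ (rad u s)) +
      (1 - n * (u k * u k / rad u s)) * (Real.exp (g u s) * ψ (rad u s)) +
      (-(u k * u k / rad u s)) * (Real.exp (g u s) * h (rad u s))
  let B : (R → ℝ) → ℝ → ℝ := fun u s =>
    (4 * gs u s) * (Real.exp (g u s) * Ψ (rad u s)) + 2 * (Real.exp (g u s) * ψ (rad u s))
  let B' : (R → ℝ) → ℝ → ℝ := fun u s =>
    (4 * b * gs u s + 4 * s * (gss u s + gs u s * gs u s)) * (Real.exp (g u s) * Ψ (rad u s)) +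
      (2 * b - n * (s / rad u s)) * (Real.exp (g u s) * ψ (rad u s)) +
      (-(s / rad u s)) * (Real.exp (g u s) * h (rad u s))
  have q1 : ∀ k (u : R → ℝ) s, 0 < s → |u k * u k / rad u s| ≤ 1 := by
    intro k u s hs
    rw [abs_of_nonneg (div_nonneg (mul_self_nonneg _) (rad_pos u hs).le),
      div_le_one (rad_pos u hs)]
    exact sq_le_rad k u hs
  have q2 : ∀ (u : R → ℝ) s, 0 < s → |s / rad u s| ≤ 1 := by
    intro u s hs
    rw [abs_of_nonneg (div_nonneg hs.le (rad_pos u hs).le), div_le_one (rad_pos u hs)]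
    unfold rad
    linarith [dot_self_nonneg u]
  have dA : ∀ k, Dec (A k) := fun k =>
    (T hΨ (m1 k) M fun u s hs => bd (hg.b1 k u s hs) (rad_pos u hs)).add
      (T hψ (m := fun u _ => u k) (by fun_prop) 1 fun u s hs => by
        have := sq_le_rad k u hs
        rw [abs_le]
        constructor <;> nlinarith [sq_nonneg (u k + 1), sq_nonneg (u k - 1), rad_pos u hs])
  have dA' : ∀ k, Dec (A' k) := fun k =>
    ((T hΨ (m := fun u s => g2 k u s + g1 k u s * g1 k u s) (by have := m1 k; have := m2 k; fun_prop)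
      (M + M * M) fun u s hs => bd ((abs_add_le _ _).trans (add_le_add (hg.b2 k u s hs) (by
        rw [abs_mul]
        exact mul_le_mul (hg.b1 k u s hs) (hg.b1 k u s hs) (abs_nonneg _) hM))) (rad_pos u hs)).add
      (T hψ (m := fun u s => 1 - n * (u k * u k / rad u s)) (by fun_prop) (1 + n) fun u s hs =>
        bd ((abs_sub _ _).trans (by
          rw [abs_one, abs_mul, abs_of_pos hn0]
          nlinarith [q1 k u s hs])) (rad_pos u hs))).add
      (T hh (m := fun u s => -(u k * u k / rad u s)) (by fun_prop) 1 fun u s hs =>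
        bd (by rw [abs_neg]; exact q1 k u s hs) (rad_pos u hs))
  have dB : Dec B :=
    (T hΨ (m := fun u s => 4 * gs u s) (by fun_prop) (4 * M) fun u s hs =>
      bd (by rw [abs_mul, abs_of_pos (by norm_num : (0 : ℝ) < 4)]; linarith [hg.bs u s hs])
        (rad_pos u hs)).add
      (T hψ (m := fun _ _ => 2) (by fun_prop) 2 fun u s hs => bd (by norm_num) (rad_pos u hs))
  have dB' : Dec B' :=
    ((T hΨ (m := fun u s => 4 * b * gs u s + 4 * s * (gss u s + gs u s * gs u s)) (by fun_prop)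
      (4 * b * M + 4 * (M + M * M)) fun u s hs => by
        have e1 : |4 * b * gs u s| ≤ 4 * b * M := by
          rw [abs_mul, abs_of_pos (by positivity : 0 < 4 * b)]
          exact mul_le_mul_of_nonneg_left (hg.bs u s hs) (by positivity)
        have e2 : |gss u s + gs u s * gs u s| ≤ M + M * M :=
          (abs_add_le _ _).trans (add_le_add (hg.bss u s hs) (by
            rw [abs_mul]
            exact mul_le_mul (hg.bs u s hs) (hg.bs u s hs) (abs_nonneg _) hM))
        have e3 : s ≤ rad u s := by unfold rad; linarith [dot_self_nonneg u]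
        have e4 : |4 * s * (gss u s + gs u s * gs u s)| ≤ 4 * rad u s * (M + M * M) := by
          rw [abs_mul, abs_of_pos (by positivity : 0 < 4 * s)]
          exact mul_le_mul (by linarith) e2 (abs_nonneg _) (by linarith)
        have e5 : 0 ≤ 4 * b * M * rad u s := by have := rad_pos u hs; positivity
        have e6 : 0 ≤ M + M * M := by positivity
        refine (abs_add_le _ _).trans ?_
        nlinarith).add
      (T hψ (m := fun u s => 2 * b - n * (s / rad u s)) (by fun_prop) (2 * b + n) fun u s hs =>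
        bd ((abs_sub _ _).trans (by
          rw [abs_of_pos (by positivity : 0 < 2 * b), abs_mul, abs_of_pos hn0]
          nlinarith [q2 u s hs])) (rad_pos u hs))).add
      (T hh (m := fun u s => -(s / rad u s)) (by fun_prop) 1 fun u s hs =>
        bd (by rw [abs_neg]; exact q2 u s hs) (rad_pos u hs))
  have dH : Dec fun u s => 1 * (Real.exp (g u s) * h (rad u s)) :=
    T hh (m := fun _ _ => 1) (by fun_prop) 1 fun u s hs => bd (by norm_num) (rad_pos u hs)
  have zA : ∀ k, ∫ p : (R → ℝ) × ℝ, p.2 ^ (b - 1) * A' k p.1 p.2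
      ∂(volume.prod (volume.restrict (Ioi 0))) = 0 := by
    intro k
    refine (dA k).zero_u (dA' k) k (fun u s hs => ?_) hb
    have hx := rad_pos u hs
    have e0 : rad (u + (0 : ℝ) • Pi.single k 1) s = rad u s := by simp
    have e1 := rad_deriv k u s
    have e2 := (e0.symm ▸ dΨ _ hx).comp (0 : ℝ) e1
    have e3 := (e0.symm ▸ dψ _ hx).comp (0 : ℝ) e1
    have e4 := (hg.d1 k u s hs).exp
    have e5 : HasDerivAt (fun t : ℝ => (u + t • (Pi.single k 1 : R → ℝ)) k) 1 0 := by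
      simpa using (hasDerivAt_id (0 : ℝ)).const_add (u k)
    have e6 := ((hg.d2 k u s hs).mul (e4.mul e2)).add (e5.mul (e4.mul e3))
    refine HasDerivAt.congr_deriv e6 ?_
    simp only [A', zero_smul, add_zero, Function.comp, Pi.mul_apply]
    field_simp
    ring
  have zB : ∫ p : (R → ℝ) × ℝ, p.2 ^ (b - 1) * B' p.1 p.2
      ∂(volume.prod (volume.restrict (Ioi 0))) = 0 := by
    refine dB.zero_s dB' hb fun u s hs => ?_
    have hx := rad_pos u hs
    have e1 : HasDerivAt (fun t : ℝ => rad u t) 1 s := (hasDerivAt_id s).const_add _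
    have e2 := (dΨ _ hx).comp s e1
    have e3 := (dψ _ hx).comp s e1
    have e4 := (hg.ds u s hs).exp
    have e5 := Real.hasDerivAt_rpow_const (x := s) (p := b) (Or.inl hs.ne')
    have e6 := e5.mul ((((hg.dss u s hs).const_mul 4).mul (e4.mul e2)).add
      ((e4.mul e3).const_mul 2))
    refine HasDerivAt.congr_deriv e6 ?_
    have e7 : s ^ b = s ^ (b - 1) * s := by
      rw [Real.rpow_sub_one hs.ne']
      field_simp
    simp only [B', Function.comp, Pi.mul_apply, Pi.add_apply, e7]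
    field_simp
    ring
  have iA := fun k => (dA' k).int_prod hb
  have iB := dB'.int_prod hb
  have iH := dH.int_prod hb
  simp only [one_mul] at iH
  have tot : 0 ≤ ∫ p : (R → ℝ) × ℝ, (p.2 ^ (b - 1) * (Real.exp (g p.1 p.2) * h (rad p.1 p.2)) +
      (∑ k, p.2 ^ (b - 1) * A' k p.1 p.2 + p.2 ^ (b - 1) * B' p.1 p.2))
      ∂(volume.prod (volume.restrict (Ioi 0))) := by
    refine integral_nonneg_of_ae ?_
    have h3 : ∀ᵐ p : (R → ℝ) × ℝ ∂(volume.prod (volume.restrict (Ioi 0))), 0 < p.2 := by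
      rw [Measure.ae_prod_iff_ae_ae (measurableSet_lt measurable_const measurable_snd)]
      exact ae_of_all _ fun u => ae_restrict_mem measurableSet_Ioi
    filter_upwards [h3] with p hp
    obtain ⟨u, s⟩ := p
    dsimp only at hp ⊢
    have hx := rad_pos u hp
    have e1 : ∑ k, u k * u k / rad u s = 1 - s / rad u s := by
      rw [← Finset.sum_div, eq_sub_iff_add_eq, ← add_div]
      exact div_self hx.ne'
    have e2 : ∑ k, A' k u s = (∑ k, g2 k u s + ∑ k, g1 k u s * g1 k u s) *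
        (Real.exp (g u s) * Ψ (rad u s)) +
        (Fintype.card R - n * (1 - s / rad u s)) * (Real.exp (g u s) * ψ (rad u s)) +
        (-(1 - s / rad u s)) * (Real.exp (g u s) * h (rad u s)) := by
      simp only [A', Finset.sum_add_distrib, ← Finset.sum_mul, Finset.sum_sub_distrib,
        ← Finset.mul_sum, Finset.sum_neg_distrib, e1]
      simp
    rw [← Finset.mul_sum, e2, ← mul_add, ← mul_add]
    refine mul_nonneg (Real.rpow_nonneg hp.le _) ?_
    have e3 : 0 ≤ ∑ k, g1 k u s * g1 k u s := Finset.sum_nonneg fun _ _ => mul_self_nonneg _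
    have e4 : 0 ≤ Real.exp (g u s) * Ψ (rad u s) := mul_nonneg (Real.exp_pos _).le (Ψ0 _ hx)
    have e5 := hg.sub u s hp
    have e6 : 0 ≤ 4 * s * (gs u s * gs u s) := mul_nonneg (by positivity) (mul_self_nonneg _)
    have e7 := mul_nonneg (add_nonneg (add_nonneg e5 e3) e6) e4
    convert e7 using 1
    simp only [B', hn]
    ring
  have iS := integrable_finsetSum Finset.univ fun k _ => iA k
  have iSB : Integrable (fun p : (R → ℝ) × ℝ =>
      ∑ k, p.2 ^ (b - 1) * A' k p.1 p.2 + p.2 ^ (b - 1) * B' p.1 p.2)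
      (volume.prod (volume.restrict (Ioi 0))) := iS.add iB
  rw [integral_add iH iSB, integral_add iS iB,
    integral_finsetSum _ fun k _ => iA k, zB] at tot
  simpa [zA] using tot

end Pool.Agent.H455Z.W
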