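import Mathlib
import Pool.Agent.H455Z.W2

set_option autoImplicit false

open MeasureTheory Matrix Set Filter Topology

namespace Pool.Agent.H455Z.W

theorem exists_test {N : ℝ} (hN : 0 < N) {φ : ℝ → ℝ} (hc : Continuous φ) (hm : Monotone φ)
    (hb : ∃ C : ℝ, ∀ x, 0 < x → |φ x| ≤ C * Real.exp (x / 8)) (c : ℝ)
    (h0 : ∫ y in Ioi (0 : ℝ), y ^ (N - 1) * ((φ y - c) * Real.exp (-y / 2)) = 0) :
    ∃ ψ Ψ : ℝ → ℝ, Dec1 (fun y => (φ y - c) * Real.exp (-y / 2)) ∧ Dec1 ψ ∧ Dec1 Ψ ∧
      (∀ x, 0 < x → HasDerivAt Ψ (-ψ x / 2) x) ∧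
      (∀ x, 0 < x → HasDerivAt ψ
        (-((φ x - c) * Real.exp (-x / 2) + (2 * N) * ψ x) / (2 * x)) x) ∧
      ∀ x, 0 < x → 0 ≤ Ψ x := by
  obtain ⟨C, hC⟩ := hb
  set h : ℝ → ℝ := fun y => (φ y - c) * Real.exp (-y / 2) with hh
  have hC0 : 0 ≤ C := nonneg_of_mul_nonneg_left ((abs_nonneg _).trans (hC 1 one_pos))
    (Real.exp_pos _)
  have hhc : Continuous h := by fun_prop
  have hhb : ∀ y, 0 < y → |h y| ≤ (C + |c|) * Real.exp (-(3 / 8) * y) := by
    intro y hy
    have e1 : |φ y - c| ≤ (C + |c|) * Real.exp (y / 8) := by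
      have : 1 ≤ Real.exp (y / 8) := Real.one_le_exp (by linarith)
      refine (abs_sub _ _).trans ?_
      nlinarith [hC y hy, abs_nonneg c]
    have e2 : Real.exp (-(3 / 8) * y) = Real.exp (y / 8) * Real.exp (-y / 2) := by
      rw [← Real.exp_add]
      congr 1
      ring
    rw [hh, abs_mul, abs_of_pos (Real.exp_pos _), e2, ← mul_assoc]
    gcongr
  set C1 := C + |c| with hC1
  have hC10 : 0 ≤ C1 := by positivity
  let k : ℝ → ℝ := fun y => y ^ (N - 1) * h y
  have kc : ContinuousOn k (Ioi 0) :=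
    (continuousOn_id.rpow_const fun y hy => Or.inl (ne_of_gt hy)).mul hhc.continuousOn
  have km : Measurable k := by
    have := hhc.measurable
    fun_prop
  have kb : ∀ y, 0 < y → |k y| ≤ C1 * (y ^ (N - 1) * Real.exp (-(3 / 8) * y)) := by
    intro y hy
    have h4 : 0 ≤ y ^ (N - 1) := Real.rpow_nonneg hy.le _
    show |y ^ (N - 1) * h y| ≤ _
    rw [abs_mul, abs_of_nonneg h4]
    calc _ ≤ y ^ (N - 1) * (C1 * Real.exp (-(3 / 8) * y)) :=
          mul_le_mul_of_nonneg_left (hhb y hy) h4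
      _ = _ := by ring
  have ki : IntegrableOn k (Ioi 0) := by
    refine Integrable.mono' ((integrableOn_gamma (c := 3 / 8) hN (by norm_num)).const_mul C1)
      km.aestronglyMeasurable ?_
    filter_upwards [ae_restrict_mem measurableSet_Ioi] with y hy using kb y hy
  -- general facts on tail integrals
  have tail : ∀ f : ℝ → ℝ, Measurable f → ContinuousOn f (Ioi 0) → IntegrableOn f (Ioi 0) →
      ∃ I : ℝ → ℝ, Measurable I ∧ (∀ x, 0 < x → I x = ∫ y in Ioi x, f y) ∧
        (∀ x, 0 < x → I x = (∫ y in Ioi 0, f y) - ∫ y in Ioc 0 x, f y) ∧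
        ∀ x, 0 < x → HasDerivAt I (-f x) x := by
    intro f fm fc fi
    let f0 : ℝ → ℝ := (Ioi 0).indicator f
    have f0i : Integrable f0 := (integrable_indicator_iff measurableSet_Ioi).2 fi
    have e0 : ∀ x, 0 < x → ∫ y in (0 : ℝ)..x, f0 y = ∫ y in Ioc 0 x, f y := by
      intro x hx
      rw [intervalIntegral.integral_of_le hx.le]
      exact setIntegral_congr_fun measurableSet_Ioc fun y hy => indicator_of_mem hy.1 f
    refine ⟨fun x => (∫ y in Ioi 0, f y) - ∫ y in (0 : ℝ)..x, f0 y,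
      (continuous_const.sub (intervalIntegral.continuous_primitive
        (fun a b => f0i.intervalIntegrable) 0)).measurable, fun x hx => ?_, fun x hx => ?_,
      fun x hx => ?_⟩
    · dsimp only
      rw [e0 x hx, ← Ioc_union_Ioi_eq_Ioi hx.le, setIntegral_union (Ioc_disjoint_Ioi le_rfl)
        measurableSet_Ioi (fi.mono_set Ioc_subset_Ioi_self) (fi.mono_set (Ioi_subset_Ioi hx.le))]
      ring
    · dsimp only
      rw [e0 x hx]
    · have e1 : f0 =ᶠ[𝓝 x] f := by
        filter_upwards [Ioi_mem_nhds hx] with y hy using indicator_of_mem hy f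
      have e2 : ContinuousAt f0 x := (fc.continuousAt (Ioi_mem_nhds hx)).congr e1.symm
      have e3 := intervalIntegral.integral_hasDerivAt_right (a := 0) f0i.intervalIntegrable
        ((fm.indicator measurableSet_Ioi).stronglyMeasurable.stronglyMeasurableAtFilter) e2
      have e4 : f0 x = f x := indicator_of_mem hx f
      rw [← e4]
      exact e3.const_sub _
  obtain ⟨I, Im, I1, I2, Id⟩ := tail k km kc ki
  have I3 : ∀ x, 0 < x → I x = -∫ y in Ioc 0 x, k y := by
    intro x hx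
    rw [I2 x hx]
    have : ∫ y in Ioi 0, k y = 0 := h0
    rw [this, zero_sub]
  have I0 : ∀ x, 0 < x → 0 ≤ I x := by
    intro x hx
    rcases le_total c (φ x) with h1 | h1
    · rw [I1 x hx]
      refine setIntegral_nonneg measurableSet_Ioi fun y hy => ?_
      have : φ x ≤ φ y := hm (le_of_lt hy)
      exact mul_nonneg (Real.rpow_nonneg (hx.trans hy).le _)
        (mul_nonneg (by linarith) (Real.exp_pos _).le)
    · rw [I3 x hx, neg_nonneg]
      refine setIntegral_nonpos measurableSet_Ioc fun y hy => ?_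
      have : φ y ≤ φ x := hm hy.2
      exact mul_nonpos_of_nonneg_of_nonpos (Real.rpow_nonneg hy.1.le _)
        (mul_nonpos_of_nonpos_of_nonneg (by linarith) (Real.exp_pos _).le)
  let ψ : ℝ → ℝ := fun x => x ^ (-N) * I x / 2
  have ψm : Measurable ψ := by fun_prop
  have ψ0 : ∀ x, 0 < x → 0 ≤ ψ x := fun x hx =>
    div_nonneg (mul_nonneg (Real.rpow_nonneg hx.le _) (I0 x hx)) two_pos.le
  have ψd : ∀ x, 0 < x → HasDerivAt ψ (-(h x + (2 * N) * ψ x) / (2 * x)) x := by
    intro x hx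
    have e5 := Real.hasDerivAt_rpow_const (x := x) (p := -N) (Or.inl hx.ne')
    refine HasDerivAt.congr_deriv ((e5.mul (Id x hx)).div_const 2) ?_
    have e6 : x ^ (-N - 1) = x ^ (-N) / x := Real.rpow_sub_one hx.ne' _
    have e7 : x ^ (-N) * x ^ (N - 1) = 1 / x := by
      rw [← Real.rpow_add hx, show -N + (N - 1) = -1 by ring, Real.rpow_neg_one, one_div]
    have e8 : x ^ (-N) * -k x = -(h x / x) := by
      show x ^ (-N) * -(x ^ (N - 1) * h x) = _
      rw [mul_neg, ← mul_assoc, e7]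
      ring
    rw [e6, e8]
    simp only [ψ]
    field_simp
    ring
  obtain ⟨C3, hC3⟩ : ∃ C3 : ℝ, ∀ x, 0 < x → |ψ x| ≤ C3 * Real.exp (-x / 4) := by
    set C2 := ∫ y in Ioi (0 : ℝ), y ^ (N - 1) * Real.exp (-(1 / 8) * y) with hC2
    have gi := integrableOn_gamma (c := 1 / 8) hN (by norm_num)
    have gn : ∀ y ∈ Ioi (0 : ℝ), 0 ≤ y ^ (N - 1) * Real.exp (-(1 / 8) * y) := fun y hy =>
      mul_nonneg (Real.rpow_nonneg (le_of_lt hy) _) (Real.exp_pos _).le
    have hC20 : 0 ≤ C2 := setIntegral_nonneg measurableSet_Ioi gn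
    refine ⟨C1 * C2 + C1 / N * Real.exp (1 / 4), fun x hx => ?_⟩
    have p1 : 0 ≤ C1 * C2 * Real.exp (-x / 4) := by positivity
    have p2 : 0 ≤ C1 / N * Real.exp (1 / 4) * Real.exp (-x / 4) := by positivity
    rw [abs_of_nonneg (ψ0 x hx), add_mul]
    rcases le_total 1 x with h1 | h1
    · have e1 : x ^ (-N) ≤ 1 := Real.rpow_le_one_of_one_le_of_nonpos h1 (by linarith)
      have e2 : I x ≤ C1 * C2 * Real.exp (-x / 4) := by
        rw [I1 x hx]
        calc ∫ y in Ioi x, k y ≤ ∫ y in Ioi x,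
              C1 * Real.exp (-x / 4) * (y ^ (N - 1) * Real.exp (-(1 / 8) * y)) := by
              refine setIntegral_mono_on (ki.mono_set (Ioi_subset_Ioi hx.le))
                ((gi.mono_set (Ioi_subset_Ioi hx.le)).const_mul _) measurableSet_Ioi
                fun y hy => (le_abs_self _).trans ((kb y (hx.trans hy)).trans ?_)
              have e3 : Real.exp (-(3 / 8) * y) ≤
                  Real.exp (-x / 4) * Real.exp (-(1 / 8) * y) := by
                rw [← Real.exp_add]
                exact Real.exp_le_exp.2 (by linarith [mem_Ioi.1 hy])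
              have h4 : 0 ≤ y ^ (N - 1) := Real.rpow_nonneg (hx.trans hy).le _
              calc _ ≤ C1 * (y ^ (N - 1) * (Real.exp (-x / 4) * Real.exp (-(1 / 8) * y))) := by
                    gcongr
                _ = _ := by ring
          _ = C1 * Real.exp (-x / 4) * ∫ y in Ioi x, y ^ (N - 1) * Real.exp (-(1 / 8) * y) :=
              integral_const_mul _ _
          _ ≤ C1 * Real.exp (-x / 4) * C2 := by
              refine mul_le_mul_of_nonneg_left ?_ (by positivity)
              refine setIntegral_mono_set gi ?_ (Ioi_subset_Ioi hx.le).eventuallyLE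
              filter_upwards [ae_restrict_mem measurableSet_Ioi] with y hy using gn y hy
          _ = _ := by ring
      have e4 : x ^ (-N) * I x ≤ I x := mul_le_of_le_one_left (I0 x hx) e1
      show x ^ (-N) * I x / 2 ≤ _
      linarith
    · have e2 : I x ≤ C1 * (x ^ N / N) := by
        rw [I3 x hx, ← integral_neg]
        have ri : IntegrableOn (fun y : ℝ => y ^ (N - 1)) (Ioc 0 x) :=
          (intervalIntegral.intervalIntegrable_rpow' (a := 0) (b := x) (by linarith)).1
        calc ∫ y in Ioc 0 x, -k y ≤ ∫ y in Ioc 0 x, C1 * y ^ (N - 1) := by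
              refine setIntegral_mono_on (ki.mono_set Ioc_subset_Ioi_self).neg (ri.const_mul _)
                measurableSet_Ioc fun y hy => (neg_le_abs _).trans ((kb y hy.1).trans ?_)
              have e3 : Real.exp (-(3 / 8) * y) ≤ 1 := Real.exp_le_one_iff.2 (by linarith [hy.1])
              have h4 : 0 ≤ y ^ (N - 1) := Real.rpow_nonneg hy.1.le _
              gcongr
              exact mul_le_of_le_one_right h4 e3
          _ = C1 * (x ^ N / N) := by
              rw [integral_const_mul, ← intervalIntegral.integral_of_le hx.le,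
                integral_rpow (Or.inl (by linarith))]
              simp [Real.zero_rpow hN.ne']
      have e3 : x ^ (-N) * x ^ N = 1 := by rw [← Real.rpow_add hx]; simp
      have e4 : x ^ (-N) * I x ≤ C1 / N := by
        calc x ^ (-N) * I x ≤ x ^ (-N) * (C1 * (x ^ N / N)) :=
              mul_le_mul_of_nonneg_left e2 (Real.rpow_nonneg hx.le _)
          _ = (x ^ (-N) * x ^ N) * (C1 / N) := by ring
          _ = _ := by rw [e3, one_mul]
      have e5 : 1 ≤ Real.exp (1 / 4) * Real.exp (-x / 4) := by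
        rw [← Real.exp_add]
        exact Real.one_le_exp (by linarith)
      have e6 : C1 / N ≤ C1 / N * Real.exp (1 / 4) * Real.exp (-x / 4) := by
        rw [mul_assoc]
        exact le_mul_of_one_le_right (by positivity) e5
      have e7 : 0 ≤ C1 / N := by positivity
      show x ^ (-N) * I x / 2 ≤ _
      linarith
  have ψc : ContinuousOn ψ (Ioi 0) := fun x hx => (ψd x hx).continuousAt.continuousWithinAt
  have ei : ∀ x : ℝ, IntegrableOn (fun y : ℝ => C3 * Real.exp (-(1 / 4) * y)) (Ioi x) :=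
    fun x => (exp_neg_integrableOn_Ioi x (by norm_num)).const_mul C3
  have hC3' : ∀ y, 0 < y → |ψ y| ≤ C3 * Real.exp (-(1 / 4) * y) := fun y hy => by
    convert hC3 y hy using 3
    ring
  have ψi : IntegrableOn ψ (Ioi 0) := by
    refine Integrable.mono' (ei 0) ψm.aestronglyMeasurable ?_
    filter_upwards [ae_restrict_mem measurableSet_Ioi] with y hy using hC3' y hy
  obtain ⟨J, Jm, J1, _, Jd⟩ := tail ψ ψm ψc ψi
  have J0 : ∀ x, 0 < x → 0 ≤ J x := fun x hx => by
    rw [J1 x hx]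
    exact setIntegral_nonneg measurableSet_Ioi fun y hy => ψ0 y (hx.trans hy)
  refine ⟨ψ, fun x => J x / 2, ⟨hhc.measurable, C1, fun x hx => (hhb x hx).trans ?_⟩,
    ⟨ψm, C3, hC3⟩, ⟨by fun_prop, 2 * C3, fun x hx => ?_⟩, fun x hx => (Jd x hx).div_const 2, ψd,
    fun x hx => div_nonneg (J0 x hx) two_pos.le⟩
  · exact mul_le_mul_of_nonneg_left (Real.exp_le_exp.2 (by linarith)) hC10
  · rw [abs_of_nonneg (div_nonneg (J0 x hx) two_pos.le)]
    have e1 : J x ≤ ∫ y in Ioi x, C3 * Real.exp (-(1 / 4) * y) := by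
      rw [J1 x hx]
      exact setIntegral_mono_on (ψi.mono_set (Ioi_subset_Ioi hx.le)) (ei x) measurableSet_Ioi
        fun y hy => (le_abs_self _).trans (hC3' y (hx.trans hy))
    rw [integral_const_mul, integral_exp_mul_Ioi (by norm_num)] at e1
    have e2 : Real.exp (-(1 / 4) * x) = Real.exp (-x / 4) := by congr 1; ring
    rw [e2] at e1
    linarith

variable {R : Type} [Fintype R] [DecidableEq R]

def Adm (b : ℝ) (g : (R → ℝ) → ℝ → ℝ) : Prop :=
  ∃ (g1 g2 : R → (R → ℝ) → ℝ → ℝ) (gs gss : (R → ℝ) → ℝ → ℝ) (M : ℝ), AdmD b g g1 g2 gs gss M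

lemma Adm.zero (b : ℝ) : Adm (R := R) b fun _ _ => 0 :=
  ⟨fun _ _ _ => 0, fun _ _ _ => 0, fun _ _ => 0, fun _ _ => 0, 0,
    ⟨measurable_const, fun _ => measurable_const, fun _ => measurable_const, measurable_const,
      measurable_const, fun _ _ _ _ => hasDerivAt_const _ _, fun _ _ _ _ => hasDerivAt_const _ _,
      fun _ _ _ => hasDerivAt_const _ _, fun _ _ _ => hasDerivAt_const _ _, by simp, by simp,
      by simp, by simp, by simp,
      fun δ hδ => ⟨0, fun u s hs => by have := rad_pos u hs; positivity⟩⟩⟩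

lemma Adm.add {b : ℝ} {g g' : (R → ℝ) → ℝ → ℝ} (hg : Adm b g) (hg' : Adm b g') :
    Adm b fun u s => g u s + g' u s := by
  obtain ⟨g1, g2, gs, gss, M, h⟩ := hg
  obtain ⟨g1', g2', gs', gss', M', h'⟩ := hg'
  refine ⟨fun k u s => g1 k u s + g1' k u s, fun k u s => g2 k u s + g2' k u s,
    fun u s => gs u s + gs' u s, fun u s => gss u s + gss' u s, M + M',
    ⟨h.m0.add h'.m0, fun k => (h.m1 k).add (h'.m1 k), fun k => (h.m2 k).add (h'.m2 k),
      h.ms.add h'.ms, h.mss.add h'.mss, fun k u s hs => (h.d1 k u s hs).add (h'.d1 k u s hs),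
      fun k u s hs => (h.d2 k u s hs).add (h'.d2 k u s hs),
      fun u s hs => (h.ds u s hs).add (h'.ds u s hs),
      fun u s hs => (h.dss u s hs).add (h'.dss u s hs),
      fun k u s hs => (abs_add_le _ _).trans (add_le_add (h.b1 k u s hs) (h'.b1 k u s hs)),
      fun k u s hs => (abs_add_le _ _).trans (add_le_add (h.b2 k u s hs) (h'.b2 k u s hs)),
      fun u s hs => (abs_add_le _ _).trans (add_le_add (h.bs u s hs) (h'.bs u s hs)),
      fun u s hs => (abs_add_le _ _).trans (add_le_add (h.bss u s hs) (h'.bss u s hs)),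
      fun u s hs => ?_, fun δ hδ => ?_⟩⟩
  · rw [Finset.sum_add_distrib]
    linarith [h.sub u s hs, h'.sub u s hs]
  · obtain ⟨C, hC⟩ := h.gr (δ / 2) (by positivity)
    obtain ⟨C', hC'⟩ := h'.gr (δ / 2) (by positivity)
    exact ⟨C + C', fun u s hs => by linarith [hC u s hs, hC' u s hs]⟩

lemma Adm.smul {b : ℝ} {g : (R → ℝ) → ℝ → ℝ} (hg : Adm b g) {ν : ℝ} (hν : 0 ≤ ν) :
    Adm b fun u s => ν * g u s := by
  obtain ⟨g1, g2, gs, gss, M, h⟩ := hg
  have e : ∀ {y : ℝ}, |y| ≤ M → |ν * y| ≤ ν * M := fun hy => by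
    rw [abs_mul, abs_of_nonneg hν]
    exact mul_le_mul_of_nonneg_left hy hν
  refine ⟨fun k u s => ν * g1 k u s, fun k u s => ν * g2 k u s,
    fun u s => ν * gs u s, fun u s => ν * gss u s, ν * M,
    ⟨h.m0.const_mul ν, fun k => (h.m1 k).const_mul ν, fun k => (h.m2 k).const_mul ν,
      h.ms.const_mul ν, h.mss.const_mul ν, fun k u s hs => (h.d1 k u s hs).const_mul ν,
      fun k u s hs => (h.d2 k u s hs).const_mul ν,
      fun u s hs => (h.ds u s hs).const_mul ν,
      fun u s hs => (h.dss u s hs).const_mul ν,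
      fun k u s hs => e (h.b1 k u s hs), fun k u s hs => e (h.b2 k u s hs),
      fun u s hs => e (h.bs u s hs), fun u s hs => e (h.bss u s hs),
      fun u s hs => ?_, fun δ hδ => ?_⟩⟩
  · rw [← Finset.mul_sum]
    have := mul_nonneg hν (h.sub u s hs)
    linarith
  · obtain ⟨C, hC⟩ := h.gr (δ / (ν + 1)) (by positivity)
    refine ⟨ν * C, fun u s hs => ?_⟩
    have e1 := mul_le_mul_of_nonneg_left (hC u s hs) hν
    have e2 : ν * (δ / (ν + 1)) ≤ δ := by
      rw [← mul_div_assoc, div_le_iff₀ (by positivity)]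
      nlinarith
    have e3 := mul_le_mul_of_nonneg_right e2 (rad_pos u hs).le
    nlinarith

lemma Adm.sum {b : ℝ} {B : Type} (T : Finset B) {g : B → (R → ℝ) → ℝ → ℝ}
    (hg : ∀ i ∈ T, Adm b (g i)) : Adm b fun u s => ∑ i ∈ T, g i u s := by
  classical
  induction T using Finset.induction_on with
  | empty => simpa using Adm.zero b
  | insert i T hi ih =>
    simp only [Finset.sum_insert hi]
    exact (hg i (Finset.mem_insert_self _ _)).add
      (ih fun j hj => hg j (Finset.mem_insert_of_mem hj))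

/-- the quadratic functions which occur -/
def QF (K : Type) [Fintype K] (b : ℝ) (D : (R → ℝ) → ℝ → ℝ) : Prop :=
  ∃ (β e : ℝ) (c : K → ℝ) (L : Matrix K R ℝ), 0 ≤ β ∧ 0 ≤ e ∧
    (∀ y, (y ᵥ* L) ⬝ᵥ (y ᵥ* L) ≤ y ⬝ᵥ y) ∧ (∀ u, (L *ᵥ u) ⬝ᵥ (L *ᵥ u) ≤ u ⬝ᵥ u) ∧
    (β = 0 ∨ 2 ≤ ∑ k, (Lᵀ * L) k k + 2 * b) ∧
    ∀ u s, 0 < s → D u s = β * ((c + L *ᵥ u) ⬝ᵥ (c + L *ᵥ u) + s) + e

lemma adm_log {K : Type} [Fintype K] {b β e : ℝ} (hb : 0 < b) {c : K → ℝ} {L : Matrix K R ℝ}
    (hβ : 0 ≤ β)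
    (he : 0 < e) (h1 : ∀ y, (y ᵥ* L) ⬝ᵥ (y ᵥ* L) ≤ y ⬝ᵥ y) (h2 : ∀ u, (L *ᵥ u) ⬝ᵥ (L *ᵥ u) ≤ u ⬝ᵥ u)
    (h3 : β = 0 ∨ 2 ≤ ∑ k, (Lᵀ * L) k k + 2 * b) :
    Adm b fun u s => Real.log (β * ((c + L *ᵥ u) ⬝ᵥ (c + L *ᵥ u) + s) + e) := by
  let D : (R → ℝ) → ℝ → ℝ := fun u s => β * ((c + L *ᵥ u) ⬝ᵥ (c + L *ᵥ u) + s) + e
  let d : R → (R → ℝ) → ℝ := fun k u => 2 * β * ((c + L *ᵥ u) ᵥ* L) k
  let S : R → ℝ := fun k => (Lᵀ * L) k k
  have hmv : Measurable fun u : R → ℝ => c + L *ᵥ u :=
    (by fun_prop : Continuous fun u : R → ℝ => c + L *ᵥ u).measurable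
  have Dm : Measurable fun p : (R → ℝ) × ℝ => D p.1 p.2 := by
    have : Measurable fun p : (R → ℝ) × ℝ => c + L *ᵥ p.1 := hmv.comp measurable_fst
    exact (((measurable_dot this this).add measurable_snd).const_mul β).add_const e
  have dm : ∀ k, Measurable fun p : (R → ℝ) × ℝ => d k p.1 := fun k =>
    (by fun_prop : Continuous fun p : (R → ℝ) × ℝ => 2 * β * ((c + L *ᵥ p.1) ᵥ* L) k).measurable
  have De : ∀ u s, 0 < s → β * ((c + L *ᵥ u) ⬝ᵥ (c + L *ᵥ u)) + β * s + e = D u s :=
    fun u s _ => by simp only [D]; ring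
  have Dp : ∀ u s, 0 < s → e ≤ D u s := fun u s hs => by
    have := mul_nonneg hβ (dot_self_nonneg (c + L *ᵥ u))
    have := mul_nonneg hβ hs.le
    linarith [De u s hs]
  have D0 : ∀ u s, 0 < s → 0 < D u s := fun u s hs => he.trans_le (Dp u s hs)
  have S0 : ∀ k, 0 ≤ S k := fun k => by
    simp only [S, Matrix.mul_apply, transpose_apply]
    exact Finset.sum_nonneg fun _ _ => mul_self_nonneg _
  have S1 : ∀ k, S k ≤ ∑ k, S k := fun k =>
    Finset.single_le_sum (f := S) (fun j _ => S0 j) (Finset.mem_univ k)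
  have col : ∀ (k : R) (u : R → ℝ) (t : ℝ), c + L *ᵥ (u + t • Pi.single k 1) =
      (c + L *ᵥ u) + t • fun j => L j k := by
    intro k u t
    rw [mulVec_add, mulVec_smul, mulVec_single_one, add_assoc]
    rfl
  have colS : ∀ k : R, ((fun j => L j k) ⬝ᵥ fun j => L j k) = S k := fun k => by
    simp [S, Matrix.mul_apply, dotProduct]
  have dD : ∀ k u s, HasDerivAt (fun t : ℝ => D (u + t • Pi.single k 1) s) (d k u) 0 := by
    intro k u s
    have : (fun t : ℝ => D (u + t • Pi.single k 1) s) =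
        fun t => D u s + d k u * t + β * S k * t ^ 2 := by
      funext t
      simp only [D, d, col]
      generalize c + L *ᵥ u = y
      have e1 : (y ⬝ᵥ fun j => L j k) = (y ᵥ* L) k := rfl
      rw [add_dotProduct, dotProduct_add, dotProduct_add, smul_dotProduct, dotProduct_smul,
        smul_dotProduct, dotProduct_smul, colS, dotProduct_comm (fun j => L j k) y, e1]
      simp only [smul_eq_mul]
      ring
    rw [this]
    have h := ((hasDerivAt_const (0 : ℝ) (D u s)).add
      ((hasDerivAt_id (0 : ℝ)).const_mul (d k u))).add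
        ((hasDerivAt_pow 2 (0 : ℝ)).const_mul (β * S k))
    refine HasDerivAt.congr_deriv h ?_
    simp
  have dd : ∀ k u, HasDerivAt (fun t : ℝ => d k (u + t • Pi.single k 1)) (2 * β * S k) 0 := by
    intro k u
    have : (fun t : ℝ => d k (u + t • Pi.single k 1)) = fun t => d k u + 2 * β * S k * t := by
      funext t
      simp only [d, col]
      generalize c + L *ᵥ u = y
      have e1 : ((fun j => L j k) ᵥ* L) k = S k := colS k
      rw [add_vecMul, smul_vecMul, Pi.add_apply, Pi.smul_apply, e1, smul_eq_mul]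
      ring
    rw [this]
    have h := (hasDerivAt_const (0 : ℝ) (d k u)).add
      ((hasDerivAt_id (0 : ℝ)).const_mul (2 * β * S k))
    refine HasDerivAt.congr_deriv h ?_
    simp
  have dDs : ∀ u s, HasDerivAt (D u) β s := by
    intro u s
    have h := (((hasDerivAt_id s).const_add ((c + L *ᵥ u) ⬝ᵥ (c + L *ᵥ u))).const_mul β).add_const e
    refine HasDerivAt.congr_deriv h ?_
    simp
  have bq : ∀ u s, 0 < s → β / D u s ≤ β / e := fun u s hs =>
    div_le_div_of_nonneg_left hβ he (Dp u s hs)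
  have bq0 : ∀ u s, 0 < s → 0 ≤ β / D u s := fun u s hs => div_nonneg hβ (D0 u s hs).le
  have b1 : ∀ k u s, 0 < s → |d k u / D u s| ≤ 1 + β / e := by
    intro k u s hs
    have e1 : ((c + L *ᵥ u) ᵥ* L) k * ((c + L *ᵥ u) ᵥ* L) k ≤ (c + L *ᵥ u) ⬝ᵥ (c + L *ᵥ u) :=
      (Finset.single_le_sum (f := fun i => ((c + L *ᵥ u) ᵥ* L) i * ((c + L *ᵥ u) ᵥ* L) i)
        (fun _ _ => mul_self_nonneg _) (Finset.mem_univ k)).trans (h1 _)
    have e2 : |d k u| ≤ D u s + β := by
      have e3 : |d k u| ≤ β * (((c + L *ᵥ u) ᵥ* L) k * ((c + L *ᵥ u) ᵥ* L) k + 1) := by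
        simp only [d]
        generalize ((c + L *ᵥ u) ᵥ* L) k = z
        rw [abs_le]
        constructor
        · nlinarith [mul_nonneg hβ (sq_nonneg (z + 1))]
        · nlinarith [mul_nonneg hβ (sq_nonneg (z - 1))]
      have := mul_le_mul_of_nonneg_left e1 hβ
      have := mul_nonneg hβ hs.le
      linarith [De u s hs]
    rw [abs_div, abs_of_pos (D0 u s hs)]
    calc _ ≤ (D u s + β) / D u s := div_le_div_of_nonneg_right e2 (D0 u s hs).le
      _ = 1 + β / D u s := by rw [add_div, div_self (D0 u s hs).ne']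
      _ ≤ _ := by linarith [bq u s hs]
  have hq : 0 ≤ β / e := div_nonneg hβ he.le
  have hS : 0 ≤ ∑ k, S k := Finset.sum_nonneg fun _ _ => S0 _
  set q := β / e with hq'
  set σ := ∑ k, S k with hσ
  refine ⟨fun k u s => d k u / D u s,
    fun k u s => 2 * S k * (β / D u s) - (d k u / D u s) * (d k u / D u s),
    fun u s => β / D u s, fun u s => -((β / D u s) * (β / D u s)), 2 * σ * q + (1 + q) * (1 + q),
    ⟨Dm.log, fun k => (dm k).div Dm, fun k => by have := dm k; fun_prop, by fun_prop, by fun_prop,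
      fun k u s hs => ?_, fun k u s hs => ?_, fun u s hs => (dDs u s).log (D0 u s hs).ne',
      fun u s hs => ?_, fun k u s hs => ?_, fun k u s hs => ?_, fun u s hs => ?_,
      fun u s hs => ?_, fun u s hs => ?_, fun δ hδ => ?_⟩⟩
  · have := (dD k u s).log (by simpa using (D0 u s hs).ne')
    refine HasDerivAt.congr_deriv this ?_
    simp only [zero_smul, add_zero]
  · have := (dd k u).div (dD k u s) (by simpa using (D0 u s hs).ne')
    refine HasDerivAt.congr_deriv this ?_
    have := (D0 u s hs).ne'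
    simp only [zero_smul, add_zero]
    field_simp
  · have := (hasDerivAt_const s β).div (dDs u s) (D0 u s hs).ne'
    refine HasDerivAt.congr_deriv this ?_
    have := (D0 u s hs).ne'
    field_simp
    ring
  · nlinarith [b1 k u s hs, mul_nonneg hS hq]
  · refine (abs_sub _ _).trans (add_le_add ?_ ?_)
    · rw [abs_of_nonneg (mul_nonneg (by linarith [S0 k]) (bq0 u s hs))]
      exact mul_le_mul (by linarith [S1 k]) (bq u s hs) (bq0 u s hs) (by linarith)
    · rw [abs_mul]
      exact mul_le_mul (b1 k u s hs) (b1 k u s hs) (abs_nonneg _) (by linarith)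
  · rw [abs_of_nonneg (bq0 u s hs)]
    nlinarith [bq u s hs, mul_nonneg hS hq]
  · rw [abs_neg, abs_of_nonneg (mul_self_nonneg _)]
    have := mul_le_mul (bq u s hs) (bq u s hs) (bq0 u s hs) hq
    nlinarith [mul_nonneg hS hq]
  · rcases h3 with h3 | h3
    · simp [d, h3]
    have e1 : ∑ k, (d k u / D u s) * (d k u / D u s) = 4 * ((β / D u s) * (β / D u s)) *
        (((c + L *ᵥ u) ᵥ* L) ⬝ᵥ ((c + L *ᵥ u) ᵥ* L)) := by
      rw [dotProduct, Finset.mul_sum]
      refine Finset.sum_congr rfl fun k _ => ?_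
      simp only [d]
      ring
    rw [Finset.sum_sub_distrib, e1, ← Finset.sum_mul, ← Finset.mul_sum, ← hσ]
    have e2 : (β / D u s) * (((c + L *ᵥ u) ᵥ* L) ⬝ᵥ ((c + L *ᵥ u) ᵥ* L) + s) ≤ 1 := by
      rw [div_mul_eq_mul_div, div_le_one (D0 u s hs)]
      have := mul_le_mul_of_nonneg_left (h1 (c + L *ᵥ u)) hβ
      linarith [De u s hs]
    have e3 := mul_le_mul_of_nonneg_left e2 (bq0 u s hs)
    have e4 : 2 ≤ σ + 2 * b := h3
    have e5 := mul_le_mul_of_nonneg_left e4 (bq0 u s hs)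
    nlinarith
  · refine ⟨Real.log ((2 * β * (c ⬝ᵥ c) + 2 * β + e) * (1 + 1 / δ)), fun u s hs => ?_⟩
    have hx := rad_pos u hs
    have c0 := dot_self_nonneg c
    have e1 : (c + L *ᵥ u) ⬝ᵥ (c + L *ᵥ u) ≤ 2 * (c ⬝ᵥ c) + 2 * (u ⬝ᵥ u) := by
      have := dot_self_nonneg (c - L *ᵥ u)
      have := h2 u
      simp only [add_dotProduct, dotProduct_add, sub_dotProduct, dotProduct_sub] at *
      linarith
    have e2 : D u s ≤ (2 * β * (c ⬝ᵥ c) + 2 * β + e) * (1 + rad u s) := by
      have := mul_le_mul_of_nonneg_left e1 hβ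
      have := mul_nonneg hβ hs.le
      have := mul_nonneg (mul_nonneg hβ c0) hx.le
      have := mul_nonneg he.le hx.le
      rw [← De u s hs]
      unfold rad at *
      nlinarith
    have e3 : 1 + rad u s ≤ (1 + 1 / δ) * Real.exp (δ * rad u s) := by
      have := Real.add_one_le_exp (δ * rad u s)
      have e4 : 1 + rad u s ≤ (1 + 1 / δ) * (δ * rad u s + 1) := by
        have : (1 + 1 / δ) * (δ * rad u s + 1) = δ * rad u s + 1 + rad u s + 1 / δ := by
          field_simp
          ring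
        rw [this]
        have := mul_pos hδ hx
        have := one_div_pos.2 hδ
        linarith
      exact e4.trans (by gcongr)
    have e5 : 0 < 2 * β * (c ⬝ᵥ c) + 2 * β + e := by positivity
    show Real.log (D u s) ≤ _
    rw [← Real.log_exp (δ * rad u s), ← Real.log_mul (by positivity) (Real.exp_pos _).ne']
    refine Real.log_le_log (D0 u s hs) (e2.trans ?_)
    rw [mul_assoc (2 * β * (c ⬝ᵥ c) + 2 * β + e)]
    exact mul_le_mul_of_nonneg_left e3 e5.le

end Pool.Agent.H455Z.W
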