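import Mathlib
import Pool.Agent.H455Z.W3

set_option autoImplicit false
set_option maxHeartbeats 400000

open MeasureTheory Matrix Set Filter Topology
open scoped ENNReal

namespace Pool.Agent.H455Z.W

variable {R : Type} [Fintype R]

/-- power weight -/
noncomputable def pw (a s : ℝ) : ℝ≥0∞ := ENNReal.ofReal (s ^ a)

@[fun_prop] lemma measurable_pw (a : ℝ) : Measurable (pw a) := by
  unfold pw
  fun_prop

lemma pw_mul (a : ℝ) {s t : ℝ} (hs : 0 < s) (ht : 0 < t) : pw a (s * t) = pw a s * pw a t := by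
  unfold pw
  rw [Real.mul_rpow hs.le ht.le, ENNReal.ofReal_mul (Real.rpow_nonneg hs.le _)]

lemma pw_add (a a' : ℝ) {s : ℝ} (hs : 0 < s) : pw (a + a') s = pw a s * pw a' s := by
  unfold pw
  rw [Real.rpow_add hs, ENNReal.ofReal_mul (Real.rpow_nonneg hs.le _)]

lemma pw_ne_top (a s : ℝ) : pw a s ≠ ∞ := ENNReal.ofReal_ne_top

lemma pw_one (s : ℝ) : pw 1 s = ENNReal.ofReal s := by simp [pw]

lemma pw_zero (s : ℝ) : pw 0 s = 1 := by simp [pw]

noncomputable abbrev muO (R : Type) [Fintype R] : Measure ((R → ℝ) × ℝ) :=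
  volume.prod (volume.restrict (Ioi 0))

lemma ae_pos : ∀ᵐ p : (R → ℝ) × ℝ ∂(muO R), 0 < p.2 := by
  rw [Measure.ae_prod_iff_ae_ae (measurableSet_lt measurable_const measurable_snd)]
  exact ae_of_all _ fun u => ae_restrict_mem measurableSet_Ioi

noncomputable def One (N : ℝ) (φ : ℝ → ℝ≥0∞) : ℝ≥0∞ :=
  ∫⁻ r in Ioi 0, pw (N - 1) r * gam r * φ r

noncomputable def Om (b : ℝ) (H : (R → ℝ) × ℝ → ℝ≥0∞) : ℝ≥0∞ :=
  ∫⁻ p, pw (b - 1) p.2 * gam (rad p.1 p.2) * H p ∂(muO R)

lemma scale1 {τ : ℝ} (hτ : 0 < τ) (f : ℝ → ℝ≥0∞) :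
    ∫⁻ r in Ioi 0, f r = ∫⁻ r in Ioi 0, ENNReal.ofReal τ * f (τ * r) := by
  have h := lintegral_image_eq_lintegral_abs_deriv_mul (s := Ioi (0 : ℝ)) (f := fun r => τ * r)
    (f' := fun _ => τ) measurableSet_Ioi
    (fun x _ => by simpa using ((hasDerivAt_id x).const_mul τ).hasDerivWithinAt)
    (fun x _ y _ h => mul_left_cancel₀ hτ.ne' h) f
  rw [image_mul_left_Ioi hτ, mul_zero, abs_of_pos hτ] at h
  exact h

lemma scale_inv {x : ℝ} (hx : 0 < x) (f : ℝ → ℝ≥0∞) :
    ∫⁻ r in Ioi 0, f r = ∫⁻ τ in Ioi 0, ENNReal.ofReal (x / τ ^ 2) * f (x / τ) := by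
  have h := lintegral_image_eq_lintegral_abs_deriv_mul (s := Ioi (0 : ℝ)) (f := fun τ => x / τ)
    (f' := fun τ => -(x / τ ^ 2)) measurableSet_Ioi
    (fun τ hτ => by
      have := ((hasDerivAt_const τ x).div (hasDerivAt_id τ) (ne_of_gt hτ))
      refine (HasDerivAt.congr_deriv this ?_).hasDerivWithinAt
      simp [neg_div])
    (fun s hs t ht h => by
      have hs' : s ≠ 0 := ne_of_gt hs
      have ht' : t ≠ 0 := ne_of_gt ht
      dsimp only at h
      field_simp at h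
      exact h.symm) f
  have h2 : (fun τ => x / τ) '' Ioi 0 = Ioi 0 := by
    ext r
    constructor
    · rintro ⟨τ, hτ, rfl⟩
      exact div_pos hx hτ
    · intro hr
      refine ⟨x / r, div_pos hx hr, ?_⟩
      have : r ≠ 0 := ne_of_gt hr
      field_simp
  rw [h2] at h
  rw [h]
  refine setLIntegral_congr_fun measurableSet_Ioi fun τ _ => ?_
  rw [abs_neg, abs_of_nonneg (by positivity)]

/-- parabolic dilation -/
noncomputable def dil (τ : ℝ) (p : (R → ℝ) × ℝ) : (R → ℝ) × ℝ := (Real.sqrt τ • p.1, τ * p.2)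

@[fun_prop] lemma measurable_dil {α : Type*} [MeasurableSpace α] {f : α → ℝ}
    {g : α → (R → ℝ) × ℝ} (hf : Measurable f) (hg : Measurable g) :
    Measurable fun x => dil (f x) (g x) := by
  unfold dil
  fun_prop

lemma rad_dil {τ : ℝ} (hτ : 0 < τ) (p : (R → ℝ) × ℝ) :
    rad (dil τ p).1 (dil τ p).2 = τ * rad p.1 p.2 := by
  simp only [rad, dil, smul_dotProduct, dotProduct_smul, smul_eq_mul]
  rw [← mul_assoc, Real.mul_self_sqrt hτ.le]
  ring

lemma scale_Om (b : ℝ) {τ : ℝ} (hτ : 0 < τ) (K : (R → ℝ) × ℝ → ℝ≥0∞) (hK : Measurable K) :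
    ∫⁻ p, pw (b - 1) p.2 * K (dil τ p) ∂(muO R) =
      pw (-(Fintype.card R / 2 + b)) τ * ∫⁻ p, pw (b - 1) p.2 * K p ∂(muO R) := by
  have hs : 0 < Real.sqrt τ := Real.sqrt_pos.2 hτ
  have h1 : ∫⁻ p, pw (b - 1) p.2 * K p ∂(muO R) =
      pw (Fintype.card R / 2 + b) τ * ∫⁻ p, pw (b - 1) p.2 * K (dil τ p) ∂(muO R) := by
    rw [lintegral_prod _ (by fun_prop), lintegral_prod _ (by fun_prop)]
    have hd : LinearMap.det (Real.sqrt τ • (LinearMap.id : (R → ℝ) →ₗ[ℝ] R → ℝ)) =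
        Real.sqrt τ ^ Fintype.card R := by
      rw [LinearMap.det_smul]
      simp
    rw [lintegral_linear (Real.sqrt τ • LinearMap.id) (by rw [hd]; positivity), hd,
      abs_of_pos (by positivity), pw_add _ _ hτ, mul_assoc]
    congr 1
    · unfold pw
      congr 1
      rw [Real.sqrt_eq_rpow, ← Real.rpow_natCast, ← Real.rpow_mul hτ.le]
      congr 1
      ring
    rw [← lintegral_const_mul' _ _ (pw_ne_top _ _)]
    refine lintegral_congr fun u => ?_
    rw [scale1 hτ, ← lintegral_const_mul' _ _ (pw_ne_top _ _)]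
    refine setLIntegral_congr_fun measurableSet_Ioi fun s hs => ?_
    dsimp only
    have : pw b τ = ENNReal.ofReal τ * pw (b - 1) τ := by
      rw [← pw_one, ← pw_add _ _ hτ]
      congr 1
      ring
    rw [pw_mul _ hτ hs, this]
    simp only [dil, LinearMap.smul_apply, LinearMap.id_apply]
    ring
  rw [h1, ← mul_assoc, ← pw_add _ _ hτ, neg_add_cancel, pw_zero, one_mul]

theorem polar (b : ℝ) (H : (R → ℝ) × ℝ → ℝ≥0∞) (hH : Measurable H) :
    One (Fintype.card R / 2 + b) 1 * ∫⁻ p, pw (b - 1) p.2 * H p ∂(muO R) =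
      Om b fun p => ∫⁻ r in Ioi 0, pw (Fintype.card R / 2 + b - 1) r *
        H (dil (r / rad p.1 p.2) p) := by
  set N : ℝ := Fintype.card R / 2 + b with hN
  let K : ℝ → (R → ℝ) × ℝ → ℝ≥0∞ := fun τ q =>
    gam (rad q.1 q.2 / τ) * ENNReal.ofReal (rad q.1 q.2 / τ) * pw (N - 1) (rad q.1 q.2) * H q
  have e1 : (Om b fun p => ∫⁻ r in Ioi 0, pw (N - 1) r * H (dil (r / rad p.1 p.2) p)) =
      ∫⁻ p, ∫⁻ τ in Ioi 0, pw (b - 1) p.2 * K τ (dil τ p) ∂volume ∂(muO R) := by
    refine lintegral_congr_ae ?_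
    filter_upwards [ae_pos] with p hp
    have hx := rad_pos p.1 hp
    rw [scale1 hx, ← lintegral_const_mul' _ _
      (ENNReal.mul_ne_top (pw_ne_top _ _) (gam_ne_top _))]
    refine setLIntegral_congr_fun measurableSet_Ioi fun τ hτ => ?_
    have hτ' : 0 < τ := hτ
    simp only [K, rad_dil hτ']
    rw [mul_div_cancel_left₀ _ hx.ne', mul_div_cancel_left₀ _ hτ'.ne', mul_comm τ]
    ring
  have m1 : Measurable fun z : ((R → ℝ) × ℝ) × ℝ => pw (b - 1) z.1.2 * K z.2 (dil z.2 z.1) := by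
    simp only [K]
    fun_prop
  have m2 : Measurable fun z : ℝ × ((R → ℝ) × ℝ) =>
      pw (-N) z.1 * (pw (b - 1) z.2.2 * K z.1 z.2) := by
    simp only [K]
    fun_prop
  rw [e1, lintegral_lintegral_swap m1.aemeasurable]
  have e2 : ∫⁻ τ in Ioi 0, ∫⁻ p, pw (b - 1) p.2 * K τ (dil τ p) ∂(muO R) =
      ∫⁻ τ in Ioi 0, ∫⁻ p, pw (-N) τ * (pw (b - 1) p.2 * K τ p) ∂(muO R) := by
    refine setLIntegral_congr_fun measurableSet_Ioi fun τ hτ => ?_
    rw [scale_Om b hτ (K τ) (by simp only [K]; fun_prop),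
      lintegral_const_mul' _ _ (pw_ne_top _ _)]
  rw [e2, lintegral_lintegral_swap m2.aemeasurable, ← lintegral_const_mul'' _ (by fun_prop)]
  refine lintegral_congr_ae ?_
  filter_upwards [ae_pos] with p hp
  have hx := rad_pos p.1 hp
  rw [One, scale_inv hx, ← lintegral_mul_const'' _ (by fun_prop)]
  refine setLIntegral_congr_fun measurableSet_Ioi fun τ hτ => ?_
  have hτ' : 0 < τ := hτ
  simp only [K, Pi.one_apply, mul_one]
  generalize rad p.1 p.2 = x at hx
  have e3 : ENNReal.ofReal (x / τ ^ 2) * pw (N - 1) (x / τ) =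
      pw (-N) τ * (ENNReal.ofReal (x / τ) * pw (N - 1) x) := by
    unfold pw
    rw [← ENNReal.ofReal_mul (by positivity), ← ENNReal.ofReal_mul (by positivity),
      ← ENNReal.ofReal_mul (by positivity)]
    congr 1
    rw [Real.div_rpow hx.le hτ'.le, Real.rpow_sub_one hτ'.ne', Real.rpow_neg hτ'.le]
    have : τ ^ N ≠ 0 := by positivity
    field_simp
  calc _ = (ENNReal.ofReal (x / τ ^ 2) * pw (N - 1) (x / τ)) *
        (gam (x / τ) * (pw (b - 1) p.2 * H p)) := by ring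
    _ = _ := by rw [e3]; ring

lemma One_ne_top {N : ℝ} (hN : 0 < N) : One N 1 ≠ ∞ := by
  have h := (integrableOn_gamma (b := N) (c := 1 / 2) hN (by norm_num)).lintegral_lt_top
  refine ne_of_lt (lt_of_le_of_lt (le_of_eq ?_) h)
  refine setLIntegral_congr_fun measurableSet_Ioi fun r hr => ?_
  simp only [pw, gam, Pi.one_apply, mul_one]
  rw [← ENNReal.ofReal_mul (Real.rpow_nonneg (le_of_lt hr) _)]
  congr 3
  ring

lemma One_ne_zero (N : ℝ) : One N 1 ≠ 0 := by
  intro h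
  rw [One, lintegral_eq_zero_iff (by fun_prop)] at h
  have h2 : ∀ᵐ r ∂(volume.restrict (Ioi (0 : ℝ))), False := by
    filter_upwards [h, ae_restrict_mem measurableSet_Ioi] with r h1 hr
    simp only [Pi.one_apply, mul_one, Pi.zero_apply, mul_eq_zero, gam_ne_zero, or_false, pw,
      ENNReal.ofReal_eq_zero] at h1
    exact absurd (Real.rpow_pos_of_pos hr _) (not_lt.2 h1)
  rw [eventually_false_iff_eq_bot, ae_eq_bot, Measure.restrict_eq_zero] at h2
  simp at h2

/-- polar form of `Om` -/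
lemma polar_Om (b : ℝ) (φ : ℝ → ℝ≥0∞) (hφ : Measurable φ) (G : (R → ℝ) × ℝ → ℝ≥0∞)
    (hG : Measurable G) :
    One (Fintype.card R / 2 + b) 1 * Om b (fun p => φ (rad p.1 p.2) * G p) =
      Om b fun p => ∫⁻ r in Ioi 0, pw (Fintype.card R / 2 + b - 1) r * gam r *
        (φ r * G (dil (r / rad p.1 p.2) p)) := by
  have h := polar b (fun p => gam (rad p.1 p.2) * (φ (rad p.1 p.2) * G p)) (by fun_prop)
  simp only [Om, mul_assoc] at h ⊢
  rw [h]
  refine lintegral_congr_ae ?_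
  filter_upwards [ae_pos] with p hp
  have hx := rad_pos p.1 hp
  congr 2
  refine setLIntegral_congr_fun measurableSet_Ioi fun r hr => ?_
  have hr' : 0 < r := hr
  rw [rad_dil (div_pos hr' hx), div_mul_cancel₀ _ hx.ne']

lemma RC_eq (b : ℝ) (φ : ℝ → ℝ≥0∞) (hφ : Measurable φ) :
    One (Fintype.card R / 2 + b) 1 * Om (R := R) b (fun p => φ (rad p.1 p.2)) =
      One (Fintype.card R / 2 + b) φ * Om (R := R) b 1 := by
  have h := polar_Om (R := R) b φ hφ 1 measurable_const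
  simp only [Pi.one_apply, mul_one] at h
  rw [h]
  simp only [Om, Pi.one_apply, mul_one]
  rw [lintegral_mul_const'' _ (by fun_prop), mul_comm]
  rfl

theorem RC_ray {b : ℝ} (hb : 0 < b) (φ : ℝ → ℝ≥0∞) (hφ : Monotone φ) (G : (R → ℝ) × ℝ → ℝ≥0∞)
    (hG : Measurable G)
    (hm : ∀ (p : (R → ℝ) × ℝ) (τ τ' : ℝ), 0 < p.2 → 0 < τ → τ ≤ τ' → G (dil τ p) ≤ G (dil τ' p)) :
    One (Fintype.card R / 2 + b) φ * Om b G ≤
      One (Fintype.card R / 2 + b) 1 * Om b fun p => φ (rad p.1 p.2) * G p := by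
  set N : ℝ := Fintype.card R / 2 + b with hN
  have hN0 : 0 < N := by positivity
  have hφm := hφ.measurable
  have h1 := polar_Om b φ hφm G hG
  have h2 := polar_Om b 1 measurable_const G hG
  simp only [Pi.one_apply, one_mul] at h2
  rw [← hN] at h1 h2
  refine (ENNReal.mul_le_mul_iff_right (One_ne_zero N) (One_ne_top hN0)).1 ?_
  rw [h1, ← mul_assoc, mul_comm (One N 1), mul_assoc, h2, Om, Om,
    ← lintegral_const_mul' _ _ (One_ne_top hN0), ← lintegral_const_mul'' _ ?_]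
  · refine lintegral_mono_ae ?_
    filter_upwards [ae_pos] with p hp
    have hx := rad_pos p.1 hp
    rw [mul_left_comm, mul_left_comm (One N 1)]
    refine mul_le_mul_right ?_ _
    have h3 := cheb (volume : Measure ℝ) ((Ioi 0).indicator fun r => pw (N - 1) r * gam r) φ
      (fun r => G (dil (r / rad p.1 p.2) p)) (Measurable.indicator (by fun_prop) measurableSet_Ioi)
      hφm (by fun_prop) (fun r r' hr hr' => by
        have h4 : 0 < r := by
          by_contra h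
          exact hr (indicator_of_notMem h _)
        have h5 : 0 < r' := by
          by_contra h
          exact hr' (indicator_of_notMem h _)
        rcases le_total r r' with h | h
        · exact Or.inl ⟨hφ h, hm p _ _ hp (div_pos h4 hx) (by gcongr)⟩
        · exact Or.inr ⟨hφ h, hm p _ _ hp (div_pos h5 hx) (by gcongr)⟩)
    have h4 : ∀ f : ℝ → ℝ≥0∞, ∫⁻ x, (Ioi 0).indicator (fun r => pw (N - 1) r * gam r) x * f x =
        ∫⁻ x in Ioi 0, pw (N - 1) x * gam x * f x := by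
      intro f
      rw [← lintegral_indicator measurableSet_Ioi]
      refine lintegral_congr fun x => ?_
      by_cases hx : x ∈ Ioi (0 : ℝ) <;> simp [hx]
    rw [h4, h4, h4, lintegral_indicator measurableSet_Ioi] at h3
    simpa only [One, Pi.one_apply, mul_one] using h3
  · refine Measurable.aemeasurable (Measurable.mul (by fun_prop) ?_)
    exact Measurable.lintegral_prod_right'
      (f := fun z : ((R → ℝ) × ℝ) × ℝ =>
        pw (N - 1) z.2 * gam z.2 * G (dil (z.2 / rad z.1.1 z.1.2) z.1)) (by fun_prop)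

lemma Om_ofReal {b : ℝ} (hb : 0 < b) {F : (R → ℝ) → ℝ → ℝ}
    (hF : Dec fun u s => Real.exp (-rad u s / 2) * F u s) (h0 : ∀ u s, 0 < s → 0 ≤ F u s) :
    Om b (fun p => ENNReal.ofReal (F p.1 p.2)) = ENNReal.ofReal
      (∫ p : (R → ℝ) × ℝ, p.2 ^ (b - 1) * (Real.exp (-rad p.1 p.2 / 2) * F p.1 p.2) ∂(muO R)) := by
  rw [ofReal_integral_eq_lintegral_ofReal (hF.int_prod hb)]
  · refine lintegral_congr_ae ?_
    filter_upwards [ae_pos] with p hp
    rw [ENNReal.ofReal_mul (Real.rpow_nonneg hp.le _), ENNReal.ofReal_mul (Real.exp_pos _).le,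
      mul_assoc]
    rfl
  · filter_upwards [ae_pos] with p hp
    exact mul_nonneg (Real.rpow_nonneg hp.le _) (mul_nonneg (Real.exp_pos _).le (h0 _ _ hp))

lemma Om_one_ne_top {b : ℝ} (hb : 0 < b) : Om (R := R) b 1 ≠ ∞ := by
  have h := Om_ofReal (R := R) hb (F := fun _ _ => 1)
    ⟨by fun_prop, 1, fun u s hs => by
      dsimp only
      rw [mul_one, one_mul, abs_of_pos (Real.exp_pos _)]
      exact Real.exp_le_exp.2 (by linarith [rad_pos u hs])⟩ (fun _ _ _ => zero_le_one)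
  simp only [ENNReal.ofReal_one] at h
  exact h ▸ ENNReal.ofReal_ne_top

theorem RC_adm [DecidableEq R] {b : ℝ} (hb : 0 < b) {φ : ℝ → ℝ} (hc : Continuous φ)
    (hm : Monotone φ) (h0 : ∀ x, 0 ≤ φ x) (hb' : ∃ C : ℝ, ∀ x, 0 < x → φ x ≤ C * Real.exp (x / 8))
    {g : (R → ℝ) → ℝ → ℝ} (hg : Adm b g) :
    One (Fintype.card R / 2 + b) (fun x => ENNReal.ofReal (φ x)) *
        Om b (fun p => ENNReal.ofReal (Real.exp (g p.1 p.2))) ≤
      One (Fintype.card R / 2 + b) 1 *
        Om b (fun p => ENNReal.ofReal (φ (rad p.1 p.2) * Real.exp (g p.1 p.2))) ∧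
      Om b (fun p => ENNReal.ofReal (φ (rad p.1 p.2) * Real.exp (g p.1 p.2))) ≠ ∞ := by
  set N : ℝ := Fintype.card R / 2 + b with hN
  have hN0 : 0 < N := by positivity
  obtain ⟨g1, g2, gs, gss, M, hg⟩ := hg
  obtain ⟨C, hC⟩ := hb'
  have hφm := hc.measurable
  have i0 := integrableOn_gamma (b := N) (c := 1 / 2) hN0 (by norm_num)
  have i0' : IntegrableOn (fun y : ℝ => y ^ (N - 1) * Real.exp (-y / 2)) (Ioi 0) := by
    refine i0.congr_fun (fun y _ => ?_) measurableSet_Ioi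
    dsimp only
    rw [show -(1 / 2) * y = -y / 2 by ring]
  have d1 : Dec1 fun y => φ y * Real.exp (-y / 2) := by
    refine ⟨by fun_prop, C, fun x hx => ?_⟩
    have hC0 : 0 ≤ C := nonneg_of_mul_nonneg_left ((h0 _).trans (hC x hx)) (Real.exp_pos _)
    rw [abs_of_nonneg (mul_nonneg (h0 x) (Real.exp_pos _).le)]
    calc _ ≤ C * Real.exp (x / 8) * Real.exp (-x / 2) := by gcongr; exact hC x hx
      _ = C * Real.exp (x / 8 + -x / 2) := by rw [Real.exp_add, mul_assoc]
      _ ≤ _ := by gcongr; linarith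
  have d0 : Dec1 fun y => Real.exp (-y / 2) :=
    ⟨by fun_prop, 1, fun x hx => by
      rw [one_mul, abs_of_pos (Real.exp_pos _)]
      exact Real.exp_le_exp.2 (by linarith)⟩
  have i1 : IntegrableOn (fun y : ℝ => y ^ (N - 1) * (φ y * Real.exp (-y / 2))) (Ioi 0) := by
    obtain ⟨_, D, hD⟩ := d1
    refine Integrable.mono' ((integrableOn_gamma (b := N) (c := 1 / 4) hN0 (by norm_num)).const_mul
      D) (by fun_prop) ?_
    filter_upwards [ae_restrict_mem measurableSet_Ioi] with y hy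
    have h4 : 0 ≤ y ^ (N - 1) := Real.rpow_nonneg (le_of_lt hy) _
    rw [Real.norm_eq_abs, abs_mul, abs_of_nonneg h4, mul_left_comm]
    refine mul_le_mul_of_nonneg_left ?_ h4
    rw [show -(1 / 4) * y = -y / 4 by ring]
    exact hD y hy
  set A0 := ∫ y in Ioi (0 : ℝ), y ^ (N - 1) * Real.exp (-y / 2) with hA0
  set A1 := ∫ y in Ioi (0 : ℝ), y ^ (N - 1) * (φ y * Real.exp (-y / 2)) with hA1
  have eA0 : One N 1 = ENNReal.ofReal A0 := by
    rw [hA0, ofReal_integral_eq_lintegral_ofReal i0']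
    · refine setLIntegral_congr_fun measurableSet_Ioi fun r hr => ?_
      simp only [pw, gam, Pi.one_apply, mul_one]
      rw [← ENNReal.ofReal_mul (Real.rpow_nonneg (le_of_lt hr) _)]
    · filter_upwards [ae_restrict_mem measurableSet_Ioi] with y hy
      exact mul_nonneg (Real.rpow_nonneg (le_of_lt hy) _) (Real.exp_pos _).le
  have eA1 : One N (fun x => ENNReal.ofReal (φ x)) = ENNReal.ofReal A1 := by
    rw [hA1, ofReal_integral_eq_lintegral_ofReal i1]
    · refine setLIntegral_congr_fun measurableSet_Ioi fun r hr => ?_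
      simp only [pw, gam]
      rw [ENNReal.ofReal_mul (Real.rpow_nonneg (le_of_lt hr) _), ENNReal.ofReal_mul (h0 _)]
      ring
    · filter_upwards [ae_restrict_mem measurableSet_Ioi] with y hy
      exact mul_nonneg (Real.rpow_nonneg (le_of_lt hy) _) (mul_nonneg (h0 _) (Real.exp_pos _).le)
  have A0p : 0 < A0 := by
    by_contra h
    exact One_ne_zero N (by rw [eA0, ENNReal.ofReal_eq_zero]; exact not_lt.1 h)
  have A1p : 0 ≤ A1 := setIntegral_nonneg measurableSet_Ioi fun y hy =>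
    mul_nonneg (Real.rpow_nonneg (le_of_lt hy) _) (mul_nonneg (h0 _) (Real.exp_pos _).le)
  obtain ⟨ψ, Ψ, t1, t2, t3, t4, t5, t6⟩ := exists_test hN0 hc hm
    ⟨C, fun x hx => by rw [abs_of_nonneg (h0 x)]; exact hC x hx⟩ (A1 / A0) (by
      have : ∀ y : ℝ, y ^ (N - 1) * ((φ y - A1 / A0) * Real.exp (-y / 2)) =
          y ^ (N - 1) * (φ y * Real.exp (-y / 2)) -
            A1 / A0 * (y ^ (N - 1) * Real.exp (-y / 2)) := fun y => by ring
      simp_rw [this]
      rw [integral_sub i1 (i0'.const_mul _), integral_const_mul, ← hA0, ← hA1]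
      field_simp
      ring)
  have key := green hb hg t1 t2 t3 t4 (fun x hx => by
    have := t5 x hx
    rwa [show 2 * N = Fintype.card R + 2 * b by rw [hN]; ring] at this) t6
  have hgr : ∃ C : ℝ, ∀ u s, 0 < s → g u s ≤ C + rad u s / 8 := by
    obtain ⟨C, hC⟩ := hg.gr (1 / 8) (by norm_num)
    exact ⟨C, fun u s hs => by linarith [hC u s hs]⟩
  have D0 := dec_term (m := fun _ _ => 1) hg.m0 hgr d0 measurable_const 1
    (fun u s hs => by rw [abs_one]; linarith [rad_pos u hs])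
  have D1 := dec_term (m := fun _ _ => 1) hg.m0 hgr d1 measurable_const 1
    (fun u s hs => by rw [abs_one]; linarith [rad_pos u hs])
  have D0' : Dec fun u s => Real.exp (-rad u s / 2) * Real.exp (g u s) := by
    convert D0 using 3
    ring
  have D1' : Dec fun u s => Real.exp (-rad u s / 2) * (φ (rad u s) * Real.exp (g u s)) := by
    convert D1 using 3
    ring
  rw [Om_ofReal hb D0' (fun _ _ _ => (Real.exp_pos _).le),
    Om_ofReal hb D1' (fun _ _ _ => mul_nonneg (h0 _) (Real.exp_pos _).le), eA0, eA1,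
    ← ENNReal.ofReal_mul A1p, ← ENNReal.ofReal_mul A0p.le]
  refine ⟨ENNReal.ofReal_le_ofReal ?_, ENNReal.ofReal_ne_top⟩
  have : ∀ p : (R → ℝ) × ℝ, p.2 ^ (b - 1) * (Real.exp (g p.1 p.2) *
      ((φ (rad p.1 p.2) - A1 / A0) * Real.exp (-rad p.1 p.2 / 2))) =
      p.2 ^ (b - 1) * (Real.exp (-rad p.1 p.2 / 2) * (φ (rad p.1 p.2) * Real.exp (g p.1 p.2))) -
        A1 / A0 * (p.2 ^ (b - 1) * (Real.exp (-rad p.1 p.2 / 2) * Real.exp (g p.1 p.2))) :=
    fun p => by ring
  simp_rw [this] at key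
  rw [integral_sub (D1'.int_prod hb) ((D0'.int_prod hb).const_mul _), integral_const_mul,
    sub_nonneg, div_mul_eq_mul_div, div_le_iff₀ A0p] at key
  linarith

theorem RC_sub [DecidableEq R] {b : ℝ} (hb : 0 < b) {φ : ℝ → ℝ} (hc : Continuous φ)
    (hm : Monotone φ) (h0 : ∀ x, 0 ≤ φ x) (hb' : ∃ C : ℝ, ∀ x, 0 < x → φ x ≤ C * Real.exp (x / 8))
    {B K : Type} [Fintype K] (T : Finset B) (D : B → (R → ℝ) → ℝ → ℝ) (ν : B → ℝ)
    (hν : ∀ i ∈ T, 0 ≤ ν i) (hD : ∀ i ∈ T, QF K b (D i)) :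
    One (Fintype.card R / 2 + b) (fun x => ENNReal.ofReal (φ x)) *
        Om b (fun p => ENNReal.ofReal (∏ i ∈ T, D i p.1 p.2 ^ ν i)) ≤
      One (Fintype.card R / 2 + b) 1 *
        Om b (fun p => ENNReal.ofReal (φ (rad p.1 p.2)) *
          ENNReal.ofReal (∏ i ∈ T, D i p.1 p.2 ^ ν i)) := by
  set N : ℝ := Fintype.card R / 2 + b with hN
  have hN0 : 0 < N := by positivity
  choose! β e c L hβ he h1 h2 h3 h4 using hD
  let ε : ℕ → ℝ := fun n => 1 / ((n : ℝ) + 1)
  have ε0 : ∀ n, 0 < ε n := fun n => Nat.one_div_pos_of_nat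
  have ε1 : ∀ n, ε n ≤ ε 0 := fun n => Nat.one_div_le_one_div (Nat.zero_le n)
  let g : ℕ → (R → ℝ) → ℝ → ℝ := fun n u s =>
    ∑ i ∈ T, ν i * Real.log (β i * ((c i + L i *ᵥ u) ⬝ᵥ (c i + L i *ᵥ u) + s) + (e i + ε n))
  have ga : ∀ n, Adm b (g n) := fun n => Adm.sum T fun i hi =>
    (adm_log hb (hβ i hi) (add_pos_of_nonneg_of_pos (he i hi) (ε0 n)) (h1 i hi) (h2 i hi)
      (h3 i hi)).smul (hν i hi)
  have D0 : ∀ i ∈ T, ∀ u s, 0 < s → 0 ≤ D i u s := fun i hi u s hs => by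
    rw [h4 i hi u s hs]
    exact add_nonneg (mul_nonneg (hβ i hi) (add_nonneg (dot_self_nonneg _) hs.le)) (he i hi)
  have ge : ∀ n u s, 0 < s → Real.exp (g n u s) = ∏ i ∈ T, (D i u s + ε n) ^ ν i := by
    intro n u s hs
    rw [Real.exp_sum]
    refine Finset.prod_congr rfl fun i hi => ?_
    rw [Real.rpow_def_of_pos (add_pos_of_nonneg_of_pos (D0 i hi u s hs) (ε0 n)), h4 i hi u s hs,
      mul_comm, add_assoc]
  have gm : ∀ n, Measurable fun p : (R → ℝ) × ℝ => g n p.1 p.2 := fun n => by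
    obtain ⟨_, _, _, _, _, h⟩ := ga n
    exact h.m0
  have hφm := hc.measurable
  have lim := tendsto_lintegral_of_dominated_convergence (μ := muO R)
    (F := fun n p => pw (b - 1) p.2 * gam (rad p.1 p.2) *
      ENNReal.ofReal (φ (rad p.1 p.2) * Real.exp (g n p.1 p.2)))
    (f := fun p => pw (b - 1) p.2 * gam (rad p.1 p.2) *
      (ENNReal.ofReal (φ (rad p.1 p.2)) * ENNReal.ofReal (∏ i ∈ T, D i p.1 p.2 ^ ν i)))
    (fun p => pw (b - 1) p.2 * gam (rad p.1 p.2) *
      ENNReal.ofReal (φ (rad p.1 p.2) * Real.exp (g 0 p.1 p.2)))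
    (fun n => by have := gm n; fun_prop) (fun n => by
      filter_upwards [ae_pos] with p hp
      refine mul_le_mul_right (ENNReal.ofReal_le_ofReal (mul_le_mul_of_nonneg_left ?_ (h0 _))) _
      rw [ge n _ _ hp, ge 0 _ _ hp]
      refine Finset.prod_le_prod (fun i hi => Real.rpow_nonneg
        (add_nonneg (D0 i hi _ _ hp) (ε0 n).le) _) fun i hi => ?_
      exact Real.rpow_le_rpow (add_nonneg (D0 i hi _ _ hp) (ε0 n).le) (by linarith [ε1 n])
        (hν i hi))
    (RC_adm hb hc hm h0 hb' (ga 0)).2 (by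
      filter_upwards [ae_pos] with p hp
      refine ENNReal.Tendsto.const_mul ?_
        (Or.inr (ENNReal.mul_ne_top (pw_ne_top _ _) (gam_ne_top _)))
      rw [← ENNReal.ofReal_mul (h0 _)]
      refine ENNReal.tendsto_ofReal (Tendsto.const_mul _ ?_)
      simp_rw [ge _ _ _ hp]
      refine tendsto_finsetProd _ fun i hi => Tendsto.rpow_const ?_ (Or.inr (hν i hi))
      have := (tendsto_one_div_add_atTop_nhds_zero_nat (𝕜 := ℝ)).const_add (D i p.1 p.2)
      rw [add_zero] at this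
      exact this)
  refine ge_of_tendsto' (ENNReal.Tendsto.const_mul lim (Or.inr (One_ne_top hN0))) fun n => ?_
  refine le_trans (mul_le_mul_right ?_ _) (RC_adm hb hc hm h0 hb' (ga n)).1
  refine lintegral_mono_ae ?_
  filter_upwards [ae_pos] with p hp
  refine mul_le_mul_right (ENNReal.ofReal_le_ofReal ?_) _
  rw [ge n _ _ hp]
  refine Finset.prod_le_prod (fun i hi => Real.rpow_nonneg (D0 i hi _ _ hp) _) fun i hi => ?_
  exact Real.rpow_le_rpow (D0 i hi _ _ hp) (by linarith [ε0 n]) (hν i hi)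

end Pool.Agent.H455Z.W
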