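import Mathlib

set_option autoImplicit false

open MeasureTheory Matrix

namespace Pool.Agent.H455Z.W

/-- The real symmetric matrix whose entries on and above the diagonal (one real coordinate for each
unordered pair of indices) are given by `x`. Lebesgue measure `dX` on symmetric matrices is the
product Lebesgue measure on these coordinates. -/
def symMat {ι : Type} (x : Sym2 ι → ℝ) : Matrix ι ι ℝ := Matrix.of fun i j => x s(i, j)

/-- The multivariate gamma function `Γ_p(β)`, `p = card ι`: the integral of
`|X| ^ (β - (p + 1) / 2) * exp (- tr X)` over the cone of positive definite matrices. -/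
noncomputable def mvGamma (ι : Type) [Fintype ι] [DecidableEq ι] (β : ℝ) : ℝ :=
  ∫ x in {x : Sym2 ι → ℝ | (symMat x).PosDef},
    (symMat x).det ^ (β - ((Fintype.card ι : ℝ) + 1) / 2) * Real.exp (-(symMat x).trace)

/-- The Wishart density `f_{α,S}(X)` on the cone of positive definite matrices. -/
noncomputable def wishartDensity {ι : Type} [Fintype ι] [DecidableEq ι] (α : ℝ)
    (S X : Matrix ι ι ℝ) : ℝ :=
  X.det ^ (α / 2 - ((Fintype.card ι : ℝ) + 1) / 2) * Real.exp (-(((1 / 2 : ℝ) • S⁻¹) * X).trace) /
    (((2 : ℝ) • S).det ^ (α / 2) * mvGamma ι (α / 2))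

/-- The Wishart law `W_p(α, S)`: the measure on symmetric matrices which is carried by the positive
definite cone and has the density `wishartDensity α S` there. -/
noncomputable def wishart {ι : Type} [Fintype ι] [DecidableEq ι] (α : ℝ) (S : Matrix ι ι ℝ) :
    Measure (Sym2 ι → ℝ) :=
  (volume.restrict {x : Sym2 ι → ℝ | (symMat x).PosDef}).withDensity
    fun x => ENNReal.ofReal (wishartDensity α S (symMat x))

end Pool.Agent.H455Z.W
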