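import Mathlib
import Pool.Agent.H455Z.W4
import Pool.Agent.H455Z.WDefs

set_option autoImplicit false
set_option maxHeartbeats 400000

open MeasureTheory Matrix Filter Topology
open Set hiding diagonal
open scoped ENNReal

namespace Pool.Agent.H455Z.W

lemma lintegral_equiv {α β : Type} [Fintype α] [Fintype β] (e : α ≃ β) (f : (β → ℝ) → ℝ≥0∞) :
    ∫⁻ y, f y = ∫⁻ x : α → ℝ, f (fun b => x (e.symm b)) := by
  rw [← (volume_measurePreserving_piCongrLeft (fun _ : β => ℝ) e).lintegral_comp_emb
    (MeasurableEquiv.measurableEmbedding _) f]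
  refine lintegral_congr fun x => ?_
  congr 1
  funext b
  rw [MeasurableEquiv.coe_piCongrLeft]
  obtain ⟨a, rfl⟩ := e.surjective b
  simp

lemma lintegral_sum {α β : Type} [Fintype α] [Fintype β] (f : (α ⊕ β → ℝ) → ℝ≥0∞)
    (hf : Measurable f) : ∫⁻ z, f z = ∫⁻ x : α → ℝ, ∫⁻ y : β → ℝ, f (Sum.elim x y) := by
  have h := volume_measurePreserving_sumPiEquivProdPi_symm (fun _ : α ⊕ β => ℝ)
  rw [← h.lintegral_comp hf, Measure.volume_eq_prod, lintegral_prod _
    (by exact (hf.comp (MeasurableEquiv.measurable _)).aemeasurable)]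
  refine lintegral_congr fun x => lintegral_congr fun y => ?_
  congr 1

/-- a vector indexed by `Option` -/
def ov {α : Type} (t : ℝ) (x : α → ℝ) : Option α → ℝ := fun o => o.elim t x

@[simp] lemma ov_none {α : Type} (t : ℝ) (x : α → ℝ) : ov t x none = t := rfl
@[simp] lemma ov_some {α : Type} (t : ℝ) (x : α → ℝ) (a : α) : ov t x (some a) = x a := rfl

@[fun_prop] lemma continuous_ov {α X : Type} [TopologicalSpace X] {t : X → ℝ} {x : X → α → ℝ}
    (ht : Continuous t) (hx : Continuous x) : Continuous fun z => ov (t z) (x z) := by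
  refine continuous_pi fun o => ?_
  cases o with
  | none => exact ht
  | some a => exact (continuous_apply a).comp hx

@[fun_prop] lemma measurable_ov {α X : Type} [MeasurableSpace X] {t : X → ℝ} {x : X → α → ℝ}
    (ht : Measurable t) (hx : Measurable x) : Measurable fun z => ov (t z) (x z) := by
  refine measurable_pi_iff.2 fun o => ?_
  cases o with
  | none => exact ht
  | some a => exact (measurable_pi_apply a).comp hx

lemma lintegral_option {α : Type} [Fintype α] (f : (Option α → ℝ) → ℝ≥0∞)
    (hf : Measurable f) : ∫⁻ z, f z = ∫⁻ x : α → ℝ, ∫⁻ t : ℝ, f (ov t x) := by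
  rw [lintegral_equiv (Equiv.optionEquivSumPUnit.{0, 0} α).symm f, lintegral_sum _
    (by exact hf.comp (by fun_prop))]
  refine lintegral_congr fun x => ?_
  rw [← (volume_preserving_funUnique PUnit.{1} ℝ).lintegral_comp_emb
    (MeasurableEquiv.measurableEmbedding _) (fun t => f (ov t x))]
  refine lintegral_congr fun y => ?_
  congr 1
  funext o
  cases o <;> rfl

instance instMeasM (m n : Type) : MeasurableSpace (Matrix m n ℝ) :=
  inferInstanceAs (MeasurableSpace (m → n → ℝ))

instance instBorelM (m n : Type) [Finite m] [Finite n] : BorelSpace (Matrix m n ℝ) :=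
  inferInstanceAs (BorelSpace (m → n → ℝ))

variable {ι : Type}

@[simp] lemma symMat_apply (x : Sym2 ι → ℝ) (i j : ι) : symMat x i j = x s(i, j) := rfl

lemma symMat_transpose (x : Sym2 ι → ℝ) : (symMat x)ᵀ = symMat x := by
  ext i j
  simp [Sym2.eq_swap]

lemma symMat_injective : Function.Injective (symMat (ι := ι)) := by
  intro x y h
  funext q
  induction q using Sym2.ind with
  | _ i j => exact congrFun (congrFun h i) j

@[fun_prop] lemma continuous_symMat : Continuous (symMat (ι := ι)) :=
  continuous_matrix fun _ _ => continuous_apply _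

/-- integral over symmetric matrices -/
noncomputable def J (ι : Type) [Fintype ι] (F : Matrix ι ι ℝ → ℝ≥0∞) : ℝ≥0∞ :=
  ∫⁻ x : Sym2 ι → ℝ, F (symMat x)

def sym2Equiv {α β : Type} (e : α ≃ β) : Sym2 α ≃ Sym2 β where
  toFun := Sym2.map e
  invFun := Sym2.map e.symm
  left_inv q := by simp [Sym2.map_map]
  right_inv q := by simp [Sym2.map_map]

lemma J_reindex {ι' : Type} [Fintype ι] [Fintype ι'] (e : ι ≃ ι') (F : Matrix ι' ι' ℝ → ℝ≥0∞) :
    J ι' F = J ι fun Y => F (Y.submatrix e.symm e.symm) := by
  unfold J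
  rw [lintegral_equiv (sym2Equiv e)]
  rfl

def sym2Option (κ : Type) : Sym2 κ ⊕ Option κ ≃ Sym2 (Option κ) where
  toFun := Sum.elim (Sym2.map some) fun o => s(none, o)
  invFun := Sym2.lift ⟨fun a b => match a, b with
    | none, o => Sum.inr o
    | some a, none => Sum.inr (some a)
    | some a, some b => Sum.inl s(a, b), by
      rintro (_ | a) (_ | b) <;> simp [Sym2.eq_swap]⟩
  left_inv := by
    rintro (q | o)
    · induction q using Sym2.ind with
      | _ i j => rfl
    · rfl
  right_inv := by
    intro q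
    induction q using Sym2.ind with
    | _ i j =>
      rcases i with _ | i <;> rcases j with _ | j <;> simp [Sym2.eq_swap]

/-- bordered symmetric matrix -/
def bord {κ : Type} (t : ℝ) (v : κ → ℝ) (A : Matrix κ κ ℝ) : Matrix (Option κ) (Option κ) ℝ :=
  Matrix.of fun i j => match i, j with
    | none, none => t
    | none, some k => v k
    | some k, none => v k
    | some j, some k => A j k

/-- block triangular matrix -/
def trib {κ κ' : Type} (r : ℝ) (w : κ' → ℝ) (Z : Matrix κ κ' ℝ) :
    Matrix (Option κ) (Option κ') ℝ :=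
  Matrix.of fun i j => match i, j with
    | none, none => r
    | none, some k => w k
    | some _, none => 0
    | some j, some k => Z j k

section
variable {κ κ' : Type}
@[simp] lemma bord_nn (t : ℝ) (v : κ → ℝ) (A : Matrix κ κ ℝ) : bord t v A none none = t := rfl
@[simp] lemma bord_ns (t : ℝ) (v : κ → ℝ) (A : Matrix κ κ ℝ) (k : κ) :
    bord t v A none (some k) = v k := rfl
@[simp] lemma bord_sn (t : ℝ) (v : κ → ℝ) (A : Matrix κ κ ℝ) (k : κ) :
    bord t v A (some k) none = v k := rfl
@[simp] lemma bord_ss (t : ℝ) (v : κ → ℝ) (A : Matrix κ κ ℝ) (j k : κ) :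
    bord t v A (some j) (some k) = A j k := rfl
@[simp] lemma trib_nn (r : ℝ) (w : κ' → ℝ) (Z : Matrix κ κ' ℝ) : trib r w Z none none = r := rfl
@[simp] lemma trib_ns (r : ℝ) (w : κ' → ℝ) (Z : Matrix κ κ' ℝ) (k : κ') :
    trib r w Z none (some k) = w k := rfl
@[simp] lemma trib_sn (r : ℝ) (w : κ' → ℝ) (Z : Matrix κ κ' ℝ) (k : κ) :
    trib r w Z (some k) none = 0 := rfl
@[simp] lemma trib_ss (r : ℝ) (w : κ' → ℝ) (Z : Matrix κ κ' ℝ) (j : κ) (k : κ') :
    trib r w Z (some j) (some k) = Z j k := rfl

@[fun_prop] lemma continuous_bord {X : Type} [TopologicalSpace X] {t : X → ℝ} {v : X → κ → ℝ}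
    {A : X → Matrix κ κ ℝ} (ht : Continuous t) (hv : Continuous v) (hA : Continuous A) :
    Continuous fun z => bord (t z) (v z) (A z) := by
  refine continuous_matrix ?_
  rintro (_ | i) (_ | j)
  · exact ht
  · exact (continuous_apply j).comp hv
  · exact (continuous_apply i).comp hv
  · exact hA.matrix_elem i j

lemma det_trib [Fintype κ] [DecidableEq κ] (r : ℝ) (w : κ → ℝ) (Z : Matrix κ κ ℝ) :
    (trib r w Z).det = r * Z.det := by
  have : trib r w Z = (fromBlocks Z 0 (Matrix.of fun _ k => w k) (Matrix.of fun _ _ => r) :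
      Matrix (κ ⊕ PUnit.{1}) (κ ⊕ PUnit.{1}) ℝ).submatrix (Equiv.optionEquivSumPUnit.{0, 0} κ)
      (Equiv.optionEquivSumPUnit.{0, 0} κ) := by
    ext (_ | i) (_ | j) <;> rfl
  rw [this, det_submatrix_equiv_self, det_fromBlocks_zero₁₂, mul_comm]
  simp

lemma trib_mul [Fintype κ'] (r : ℝ) (w : κ' → ℝ) (Z : Matrix κ κ' ℝ) :
    trib r w Z * (trib r w Z)ᵀ = bord (w ⬝ᵥ w + r * r) (Z *ᵥ w) (Z * Zᵀ) := by
  ext (_ | i) (_ | j) <;>
    simp [Matrix.mul_apply, Fintype.sum_option, dotProduct, mulVec, add_comm, mul_comm]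

lemma bord_factor [Fintype κ'] [DecidableEq κ'] (s : ℝ) (w : κ' → ℝ) (Z : Matrix κ κ' ℝ) :
    bord (w ⬝ᵥ w + s) (Z *ᵥ w) (Z * Zᵀ) =
      trib 1 w Z * (diagonal (ov s fun _ => 1) : Matrix (Option κ') (Option κ') ℝ) *
        (trib 1 w Z)ᵀ := by
  ext (_ | i) (_ | j) <;>
    simp [Matrix.mul_apply, Fintype.sum_option, dotProduct, mulVec, add_comm, mul_comm, diagonal]

lemma det_bord [Fintype κ] [DecidableEq κ] (t : ℝ) (y : κ → ℝ) (A : Matrix κ κ ℝ)
    (hA : Aᵀ = A) : (bord (t + y ⬝ᵥ (A *ᵥ y)) (A *ᵥ y) A).det = t * A.det := by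
  have h : ∀ i j, A i j = A j i := fun i j => by
    conv_lhs => rw [← hA]
    rfl
  have : bord (t + y ⬝ᵥ (A *ᵥ y)) (A *ᵥ y) A = trib 1 y 1 * trib t 0 A * (trib 1 y 1)ᵀ := by
    ext (_ | i) (_ | j)
    · simp only [Matrix.mul_apply, Fintype.sum_option, dotProduct, mulVec, bord_nn, trib_nn,
        trib_ns, trib_sn, trib_ss, transpose_apply, Pi.zero_apply, mul_zero, Finset.sum_const_zero,
        add_zero, mul_one, one_mul, zero_add, Finset.sum_mul, Finset.mul_sum]
      congr 1
      rw [Finset.sum_comm]
      exact Finset.sum_congr rfl fun a _ => Finset.sum_congr rfl fun b _ => by ring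
    · simp [Matrix.mul_apply, Fintype.sum_option, dotProduct, mulVec, one_apply, h j, mul_comm]
    · simp [Matrix.mul_apply, Fintype.sum_option, dotProduct, mulVec, one_apply]
    · simp [Matrix.mul_apply, Fintype.sum_option, one_apply]
  rw [this, det_mul, det_mul, det_transpose, det_trib, det_trib]
  simp

end

lemma J_split {κ : Type} [Fintype κ] (F : Matrix (Option κ) (Option κ) ℝ → ℝ≥0∞)
    (hF : Measurable F) : J (Option κ) F = J κ fun A => ∫⁻ v, ∫⁻ t, F (bord t v A) := by
  have hm : Measurable fun x : Sym2 (Option κ) → ℝ => F (symMat x) :=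
    hF.comp continuous_symMat.measurable
  unfold J
  rw [lintegral_equiv (sym2Option κ), lintegral_sum _ (by exact hm.comp (by fun_prop))]
  refine lintegral_congr fun x => ?_
  rw [lintegral_option _ (by
    refine hm.comp (measurable_pi_iff.2 fun q => ?_)
    generalize (sym2Option κ).symm q = z
    cases z with
    | inl a => exact measurable_const
    | inr b => exact measurable_pi_apply b)]
  refine lintegral_congr fun v => lintegral_congr fun t => ?_
  congr 1
  ext (_ | i) (_ | j) <;> rfl

section cong
variable [Fintype ι]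

/-- congruence in coordinates -/
def cong (M : Matrix ι ι ℝ) : (Sym2 ι → ℝ) →ₗ[ℝ] (Sym2 ι → ℝ) where
  toFun x := Sym2.lift ⟨fun i j => (M * symMat x * Mᵀ) i j, fun i j => by
    have : (M * symMat x * Mᵀ)ᵀ = M * symMat x * Mᵀ := by
      rw [transpose_mul, transpose_mul, transpose_transpose, symMat_transpose, Matrix.mul_assoc]
    conv_lhs => rw [← this]
    rfl⟩
  map_add' x y := by
    funext q
    induction q using Sym2.ind with
    | _ i j =>
      have : symMat (x + y) = symMat x + symMat y := rfl
      simp [this, Matrix.mul_add, Matrix.add_mul]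
  map_smul' c x := by
    funext q
    induction q using Sym2.ind with
    | _ i j =>
      have : symMat (c • x) = c • symMat x := rfl
      simp [this]

lemma symMat_cong (M : Matrix ι ι ℝ) (x : Sym2 ι → ℝ) :
    symMat (cong M x) = M * symMat x * Mᵀ := by
  ext i j
  rfl

lemma cong_mul (M N : Matrix ι ι ℝ) : cong (M * N) = cong M ∘ₗ cong N := by
  refine LinearMap.ext fun x => symMat_injective ?_
  simp only [LinearMap.comp_apply, symMat_cong, transpose_mul, Matrix.mul_assoc]

variable [DecidableEq ι]

lemma cong_one : cong (1 : Matrix ι ι ℝ) = LinearMap.id := by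
  refine LinearMap.ext fun x => symMat_injective ?_
  simp [symMat_cong]

lemma prod_sym2 (α : Type) [Fintype α] : ∀ d : α → ℝ,
    ∏ q : Sym2 α, Sym2.mul (q.map d) = (∏ i, d i) ^ (Fintype.card α + 1) := by
  refine Fintype.induction_empty_option (P := fun α _ => ∀ d : α → ℝ,
    ∏ q : Sym2 α, Sym2.mul (q.map d) = (∏ i, d i) ^ (Fintype.card α + 1)) ?_ ?_ ?_ α
  · intro α β _ e ih d
    let _ := Fintype.ofEquiv β e.symm
    rw [← (sym2Equiv e).prod_comp, ← e.prod_comp, ← Fintype.card_congr e, ← ih (fun i => d (e i))]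
    refine Finset.prod_congr rfl fun q _ => ?_
    simp [sym2Equiv, Sym2.map_map, Function.comp_def]
  · intro d
    simp
  · intro α _ ih d
    rw [← (sym2Option α).prod_comp, Fintype.prod_sum_type, Fintype.prod_option,
      Fintype.prod_option, Fintype.card_option]
    have h1 : ∏ q : Sym2 α, Sym2.mul (((sym2Option α) (Sum.inl q)).map d) =
        (∏ i, d (some i)) ^ (Fintype.card α + 1) := by
      rw [← ih (fun i => d (some i))]
      refine Finset.prod_congr rfl fun q _ => ?_
      simp [sym2Option, Sym2.map_map, Function.comp_def]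
    have h2 : ∏ i : α, Sym2.mul (((sym2Option α) (Sum.inr (some i))).map d) =
        d none ^ Fintype.card α * ∏ i, d (some i) := by
      simp [sym2Option, Finset.prod_mul_distrib]
    rw [h1, h2]
    simp only [sym2Option, Equiv.coe_fn_mk, Sum.elim_inr, Sym2.map_mk, Sym2.mul_mk]
    ring

lemma det_cong_diagonal (d : ι → ℝ) :
    LinearMap.det (cong (diagonal d)) = (diagonal d).det ^ (Fintype.card ι + 1) := by
  classical
  have : cong (diagonal d) = Matrix.toLin' (diagonal fun q : Sym2 ι => Sym2.mul (q.map d)) := by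
    refine LinearMap.ext fun x => funext fun q => ?_
    induction q using Sym2.ind with
    | _ i j =>
      have := congrFun (congrFun (symMat_cong (diagonal d) x) i) j
      rw [symMat_apply] at this
      rw [this]
      simp [mulVec_diagonal]
      ring
  rw [this, LinearMap.det_toLin', det_diagonal, det_diagonal, prod_sym2]

lemma det_cong (M : Matrix ι ι ℝ) (hM : M.det ≠ 0) :
    LinearMap.det (cong M) = M.det ^ (Fintype.card ι + 1) := by
  refine diagonal_transvection_induction_of_det_ne_zero
    (fun M => LinearMap.det (cong M) = M.det ^ (Fintype.card ι + 1)) M hM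
    (fun d _ => det_cong_diagonal d) (fun t => ?_) fun A B _ _ hA hB => ?_
  · obtain ⟨i, j, hij, c⟩ := t
    rw [TransvectionStruct.det, one_pow]
    simp only [TransvectionStruct.toMatrix]
    let φ : ℝ → ℝ := fun c => LinearMap.det (cong (transvection i j c))
    have φa : ∀ c c', φ (c + c') = φ c * φ c' := fun c c' => by
      simp only [φ]
      rw [← transvection_mul_transvection_same _ _ hij, cong_mul, LinearMap.det_comp]
    have φ0 : φ 0 = 1 := by
      simp only [φ]
      rw [transvection_zero, cong_one, LinearMap.det_id]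
    let d : ι → ℝ := Function.update 1 i 2
    have hd : (diagonal d).det ≠ 0 := by
      rw [det_diagonal, Finset.prod_ne_zero_iff]
      intro k _
      by_cases h : k = i <;> simp [d, h]
    have h1 : diagonal d * transvection i j c = transvection i j (c + c) * diagonal d := by
      ext a b
      rw [diagonal_mul, mul_diagonal]
      by_cases ha : a = i
      · subst ha
        by_cases hb : b = j
        · subst hb
          simp [d, transvection, hij, hij.symm]
          ring
        · by_cases hb' : b = a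
          · subst hb'
            simp [d, transvection, hij.symm]
          · simp [transvection, Ne.symm hb, Ne.symm hb']
      · by_cases hb' : a = b
        · subst hb'
          simp [d, transvection, ha, Ne.symm ha]
        · simp [transvection, Ne.symm ha, hb']
    have h2 := congrArg (fun M => LinearMap.det (cong M)) h1
    simp only [cong_mul, LinearMap.det_comp, det_cong_diagonal] at h2
    have h3 : φ c = φ (c + c) := mul_left_cancel₀ (pow_ne_zero _ hd) (h2.trans (mul_comm _ _))
    have h4 : φ c ≠ 0 := by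
      intro h
      have := φa c (-c)
      rw [add_neg_cancel, φ0, h, zero_mul] at this
      exact one_ne_zero this
    rw [φa] at h3
    exact (mul_left_cancel₀ h4 (by rw [mul_one]; exact h3)).symm
  · rw [cong_mul, LinearMap.det_comp, hA, hB, det_mul, mul_pow]

lemma J_cong (M : Matrix ι ι ℝ) (hM : M.det ≠ 0) (F : Matrix ι ι ℝ → ℝ≥0∞) :
    J ι F = ENNReal.ofReal (|M.det| ^ (Fintype.card ι + 1)) * J ι fun Y => F (M * Y * Mᵀ) := by
  unfold J
  rw [lintegral_linear (cong M) (by rw [det_cong M hM]; exact pow_ne_zero _ hM), det_cong M hM,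
    abs_pow]
  rfl

end cong

end Pool.Agent.H455Z.W
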