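import Mathlib
import Pool.Agent.H455Z.W5

set_option autoImplicit false
set_option maxHeartbeats 400000

open MeasureTheory Matrix Filter Topology
open Set hiding diagonal
open scoped ENNReal MatrixOrder

namespace Pool.Agent.H455Z.W

variable {ι κ : Type}

lemma measurableSet_posDef [Fintype ι] [DecidableEq ι] :
    MeasurableSet {X : Matrix ι ι ℝ | X.PosDef} := by
  have : {X : Matrix ι ι ℝ | X.PosDef} =
      ({X | Xᵀ = X} ∩ ⋂ v : ι → ℝ, {X | 0 ≤ v ⬝ᵥ (X *ᵥ v)}) ∩ {X | X.det = 0}ᶜ := by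
    ext X
    simp only [mem_inter_iff, mem_iInter, mem_compl_iff, Set.mem_ofPred_eq]
    constructor
    · intro h
      refine ⟨⟨h.1, fun v => ?_⟩, h.det_pos.ne'⟩
      simpa using h.posSemidef.dotProduct_mulVec_nonneg v
    · rintro ⟨⟨h1, h2⟩, h3⟩
      have h4 : X.PosSemidef := PosSemidef.of_dotProduct_mulVec_nonneg h1 fun v => by
        simpa using h2 v
      exact h4.posDef_iff_det_ne_zero.2 h3
  rw [this]
  refine MeasurableSet.inter (IsClosed.measurableSet (IsClosed.inter ?_ (isClosed_iInter fun v =>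
    ?_))) (IsClosed.measurableSet ?_).compl
  · exact isClosed_eq (by fun_prop) continuous_id
  · exact isClosed_le continuous_const (by fun_prop)
  · exact isClosed_eq (by fun_prop) continuous_const

/-- the standard Wishart weight -/
noncomputable def wtM [Fintype ι] [DecidableEq ι] (a : ℝ) (X : Matrix ι ι ℝ) : ℝ≥0∞ :=
  {X : Matrix ι ι ℝ | X.PosDef}.indicator (fun X => pw a X.det * gam X.trace) X

lemma wtM_of_posDef [Fintype ι] [DecidableEq ι] (a : ℝ) {X : Matrix ι ι ℝ} (h : X.PosDef) :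
    wtM a X = pw a X.det * gam X.trace :=
  indicator_of_mem (show X ∈ {X : Matrix ι ι ℝ | X.PosDef} from h) _

lemma wtM_of_not [Fintype ι] [DecidableEq ι] (a : ℝ) {X : Matrix ι ι ℝ} (h : ¬ X.PosDef) :
    wtM a X = 0 :=
  indicator_of_notMem (show X ∉ {X : Matrix ι ι ℝ | X.PosDef} from h) _

lemma wtM_ne_top [Fintype ι] [DecidableEq ι] (a : ℝ) (X : Matrix ι ι ℝ) : wtM a X ≠ ∞ := by
  by_cases h : X.PosDef
  · rw [wtM_of_posDef a h]
    exact ENNReal.mul_ne_top (pw_ne_top _ _) (gam_ne_top _)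
  · rw [wtM_of_not a h]
    exact ENNReal.zero_ne_top

@[fun_prop] lemma measurable_wtM [Fintype ι] [DecidableEq ι] (a : ℝ) :
    Measurable (wtM (ι := ι) a) := by
  have h1 : Measurable fun X : Matrix ι ι ℝ => X.det := (by fun_prop : Continuous _).measurable
  have h2 : Measurable fun X : Matrix ι ι ℝ => X.trace := (by fun_prop : Continuous _).measurable
  exact Measurable.indicator (by fun_prop) measurableSet_posDef

/-- unnormalised expectation under the standard Wishart law -/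
noncomputable def EW (ι : Type) [Fintype ι] [DecidableEq ι] (a : ℝ) (F : Matrix ι ι ℝ → ℝ≥0∞) :
    ℝ≥0∞ := J ι fun X => wtM a X * F X

lemma posDef_mul_transpose [Fintype κ] [DecidableEq κ] {Z : Matrix κ κ ℝ} (hZ : Z.det ≠ 0) :
    (Z * Zᵀ).PosDef := by
  have h : (Z * Zᵀ).PosSemidef := by simpa using posSemidef_self_mul_conjTranspose Z
  refine h.posDef_iff_det_ne_zero.2 ?_
  rw [det_mul, det_transpose]
  exact mul_ne_zero hZ hZ

lemma posDef_cong [Fintype κ] [DecidableEq κ] {T A : Matrix κ κ ℝ} (hT : T.det ≠ 0) :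
    (T * A * Tᵀ).PosDef ↔ A.PosDef := by
  have key : ∀ T A : Matrix κ κ ℝ, T.det ≠ 0 → A.PosDef → (T * A * Tᵀ).PosDef := by
    intro T A hT hA
    have h : (T * A * Tᵀ).PosSemidef := by simpa using hA.posSemidef.mul_mul_conjTranspose_same T
    refine h.posDef_iff_det_ne_zero.2 ?_
    rw [det_mul, det_mul, det_transpose]
    exact mul_ne_zero (mul_ne_zero hT hA.det_pos.ne') hT
  refine ⟨fun h => ?_, key T A hT⟩
  have hu : IsUnit T.det := Ne.isUnit hT
  have := key T⁻¹ _ (by rw [det_nonsing_inv]; simpa using hT) h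
  rwa [← Matrix.mul_assoc, ← Matrix.mul_assoc, nonsing_inv_mul _ hu, Matrix.one_mul,
    Matrix.mul_assoc, ← transpose_mul, nonsing_inv_mul _ hu, transpose_one, Matrix.mul_one] at this

lemma posDef_of_bord [Fintype κ] {t : ℝ} {v : κ → ℝ} {A : Matrix κ κ ℝ}
    (h : (bord t v A).PosDef) : A.PosDef :=
  h.submatrix (e := some) (Option.some_injective κ)

lemma posDef_bord [Fintype κ] [DecidableEq κ] {Z : Matrix κ κ ℝ} (hZ : Z.det ≠ 0) (w : κ → ℝ)
    (s : ℝ) : (bord (rad w s) (Z *ᵥ w) (Z * Zᵀ)).PosDef ↔ 0 < s := by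
  rw [rad, bord_factor, posDef_cong (by rw [det_trib, one_mul]; exact hZ), posDef_diagonal_iff]
  refine ⟨fun h => h none, fun h o => ?_⟩
  cases o with
  | none => exact h
  | some k => exact one_pos

lemma wtM_bord [Fintype κ] [DecidableEq κ] (a : ℝ) {Z : Matrix κ κ ℝ} (hZ : Z.det ≠ 0)
    (w : κ → ℝ) {s : ℝ} (hs : 0 < s) : wtM a (bord (rad w s) (Z *ᵥ w) (Z * Zᵀ)) =
      wtM a (Z * Zᵀ) * (pw a s * gam (rad w s)) := by
  have h1 : (bord (rad w s) (Z *ᵥ w) (Z * Zᵀ)).det = (Z * Zᵀ).det * s := by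
    rw [rad, bord_factor, det_mul, det_mul, det_transpose, det_trib, det_diagonal, det_mul,
      det_transpose, Fintype.prod_option]
    simp
    ring
  have h2 : (bord (rad w s) (Z *ᵥ w) (Z * Zᵀ)).trace = (Z * Zᵀ).trace + rad w s := by
    simp [trace, Fintype.sum_option, add_comm]
  rw [wtM_of_posDef a ((posDef_bord hZ w s).2 hs), wtM_of_posDef a (posDef_mul_transpose hZ), h1,
    h2, pw_mul _ (posDef_mul_transpose hZ).det_pos hs, gam_add]
  ring

lemma split2 [Fintype κ] [DecidableEq κ] {Z : Matrix κ κ ℝ} (hZ : Z.det ≠ 0)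
    (H : Matrix (Option κ) (Option κ) ℝ → ℝ≥0∞) (hH : Measurable H)
    (h0 : ∀ X, ¬ X.PosDef → H X = 0) :
    ∫⁻ v, ∫⁻ t, H (bord t v (Z * Zᵀ)) = pw (1 / 2) (Z * Zᵀ).det *
      ∫⁻ p, H (bord (rad p.1 p.2) (Z *ᵥ p.1) (Z * Zᵀ)) ∂(muO κ) := by
  have hc : Continuous fun p : (κ → ℝ) × ℝ => bord (rad p.1 p.2) (Z *ᵥ p.1) (Z * Zᵀ) := by
    unfold rad
    fun_prop
  rw [lintegral_mulVec Z hZ, lintegral_prod _ (by exact (hH.comp hc.measurable).aemeasurable)]
  congr 1
  · unfold pw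
    rw [det_mul, det_transpose, ← Real.sqrt_eq_rpow, Real.sqrt_mul_self_eq_abs]
  refine lintegral_congr fun w => ?_
  rw [← lintegral_add_left_eq_self _ (w ⬝ᵥ w), ← lintegral_indicator measurableSet_Ioi]
  refine lintegral_congr fun s => ?_
  by_cases hs : s ∈ Ioi (0 : ℝ)
  · rw [indicator_of_mem hs]
    rfl
  · rw [indicator_of_notMem hs]
    exact h0 _ fun h => hs ((posDef_bord hZ w s).1 h)

/-- the integral over the first row -/
noncomputable def inner [Fintype κ] [DecidableEq κ] (a : ℝ)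
    (F : Matrix (Option κ) (Option κ) ℝ → ℝ≥0∞) (A : Matrix κ κ ℝ) : ℝ≥0∞ :=
  ∫⁻ v, ∫⁻ t, wtM a (bord t v A) * F (bord t v A)

lemma measurable_inner [Fintype κ] [DecidableEq κ] (a : ℝ)
    {F : Matrix (Option κ) (Option κ) ℝ → ℝ≥0∞} (hF : Measurable F) :
    Measurable (inner a F) := by
  have hc : Continuous fun z : (Matrix κ κ ℝ × (κ → ℝ)) × ℝ => bord z.2 z.1.2 z.1.1 := by fun_prop
  have h1 : Measurable fun z : (Matrix κ κ ℝ × (κ → ℝ)) × ℝ =>
      wtM a (bord z.2 z.1.2 z.1.1) * F (bord z.2 z.1.2 z.1.1) :=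
    ((measurable_wtM a).comp hc.measurable).mul (hF.comp hc.measurable)
  exact (h1.lintegral_prod_right' (ν := volume)).lintegral_prod_right' (ν := volume)

lemma EW_option [Fintype κ] [DecidableEq κ] (a : ℝ)
    {F : Matrix (Option κ) (Option κ) ℝ → ℝ≥0∞} (hF : Measurable F) :
    EW (Option κ) a F = J κ (inner a F) :=
  J_split _ ((measurable_wtM a).mul hF)

lemma inner_of_not [Fintype κ] [DecidableEq κ] (a : ℝ)
    (F : Matrix (Option κ) (Option κ) ℝ → ℝ≥0∞) {A : Matrix κ κ ℝ} (hA : ¬ A.PosDef) :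
    inner a F A = 0 := by
  unfold inner
  simp [wtM_of_not a fun h => hA (posDef_of_bord h)]

lemma wtM_half [Fintype κ] [DecidableEq κ] (a : ℝ) {A : Matrix κ κ ℝ} (hA : A.PosDef) :
    pw (1 / 2) A.det * wtM a A = wtM (a + 1 / 2) A := by
  rw [wtM_of_posDef _ hA, wtM_of_posDef _ hA, pw_add _ _ hA.det_pos]
  ring

lemma inner_eq [Fintype κ] [DecidableEq κ] (a : ℝ)
    {F : Matrix (Option κ) (Option κ) ℝ → ℝ≥0∞} (hF : Measurable F) {Z : Matrix κ κ ℝ}
    (hZ : Z.det ≠ 0) : inner a F (Z * Zᵀ) = wtM (a + 1 / 2) (Z * Zᵀ) *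
      Om (a + 1) fun q => F (bord (rad q.1 q.2) (Z *ᵥ q.1) (Z * Zᵀ)) := by
  rw [inner, split2 hZ (fun X => wtM a X * F X) ((measurable_wtM a).mul hF)
    (fun X hX => by rw [wtM_of_not a hX, zero_mul]), ← wtM_half a (posDef_mul_transpose hZ),
    mul_assoc, Om, ← lintegral_const_mul' _ _ (wtM_ne_top _ _)]
  congr 1
  refine lintegral_congr_ae ?_
  filter_upwards [ae_pos] with q hq
  rw [wtM_bord a hZ _ hq, add_sub_cancel_right]
  ring

lemma inner2_eq [Fintype κ] [DecidableEq κ] (a : ℝ)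
    {F : Matrix (Option (Option κ)) (Option (Option κ)) ℝ → ℝ≥0∞} (hF : Measurable F)
    {Z : Matrix κ κ ℝ} (hZ : Z.det ≠ 0) :
    ∫⁻ v, ∫⁻ t, inner a F (bord t v (Z * Zᵀ)) = wtM (a + 1) (Z * Zᵀ) *
      Om (a + 3 / 2) fun p => Om (a + 1) fun q =>
        F (bord (rad q.1 q.2) (trib (Real.sqrt p.2) p.1 Z *ᵥ q.1)
          (bord (rad p.1 p.2) (Z *ᵥ p.1) (Z * Zᵀ))) := by
  rw [split2 hZ _ (measurable_inner a hF) (fun X hX => inner_of_not a F hX),
    show a + 1 = (a + 1 / 2) + 1 / 2 by ring, ← wtM_half _ (posDef_mul_transpose hZ),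
    mul_assoc, Om, ← lintegral_const_mul' _ _ (wtM_ne_top _ _)]
  congr 1
  refine lintegral_congr_ae ?_
  filter_upwards [ae_pos] with p hp
  have h1 : bord (rad p.1 p.2) (Z *ᵥ p.1) (Z * Zᵀ) =
      trib (Real.sqrt p.2) p.1 Z * (trib (Real.sqrt p.2) p.1 Z)ᵀ := by
    rw [trib_mul, Real.mul_self_sqrt hp.le, rad]
  have h2 : (trib (Real.sqrt p.2) p.1 Z).det ≠ 0 := by
    rw [det_trib]
    exact mul_ne_zero (Real.sqrt_pos.2 hp).ne' hZ
  have h3 := inner_eq a hF h2
  rw [← h1] at h3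
  rw [h3, wtM_bord _ hZ _ hp, show a + 3 / 2 - 1 = a + 1 / 2 by ring,
    show (a + 1 / 2) + 1 / 2 = a + 1 by ring]
  ring

lemma exists_factor [Fintype κ] [DecidableEq κ] {A : Matrix κ κ ℝ} (hA : A.PosSemidef) :
    ∃ Z : Matrix κ κ ℝ, Z * Zᵀ = A := by
  obtain ⟨B, rfl⟩ := CStarAlgebra.nonneg_iff_eq_star_mul_self.mp hA.nonneg
  exact ⟨Bᵀ, by simp [star_eq_conjTranspose]⟩

lemma det_ne_zero_of_factor [Fintype κ] [DecidableEq κ] {A Z : Matrix κ κ ℝ} (hA : A.PosDef)
    (h : Z * Zᵀ = A) : Z.det ≠ 0 := by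
  intro h0
  have := hA.det_pos
  rw [← h, det_mul, h0, zero_mul] at this
  exact lt_irrefl _ this

lemma exists_block_factor {P R : Type} [Fintype P] [DecidableEq P] [Fintype R] [DecidableEq R]
    {A : Matrix (P ⊕ R) (P ⊕ R) ℝ} (hA : A.PosDef) :
    ∃ Z : Matrix (P ⊕ R) (P ⊕ R) ℝ, Z * Zᵀ = A ∧ ∀ i k, Z (Sum.inl i) (Sum.inr k) = 0 := by
  have h1 : A.toBlocks₁₁.PosDef := hA.submatrix (e := Sum.inl) Sum.inl_injective
  have h2 : A.toBlocks₂₁ = A.toBlocks₁₂ᵀ := by
    ext i j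
    have := congrFun (congrFun hA.1 (Sum.inr i)) (Sum.inl j)
    simpa [toBlocks₂₁, toBlocks₁₂] using this.symm
  have h3 : A = fromBlocks A.toBlocks₁₁ A.toBlocks₁₂ A.toBlocks₁₂ᴴ A.toBlocks₂₂ := by
    rw [conjTranspose_eq_transpose_of_trivial, ← h2, fromBlocks_toBlocks]
  obtain ⟨Z1, hZ1⟩ := exists_factor h1.posSemidef
  have hd : IsUnit Z1.det := Ne.isUnit (det_ne_zero_of_factor h1 hZ1)
  let _ : Invertible A.toBlocks₁₁ := h1.isUnit.invertible
  have h4 := (PosDef.fromBlocks₁₁ A.toBlocks₁₂ A.toBlocks₂₂ h1).1 (h3 ▸ hA.posSemidef)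
  obtain ⟨S1, hS1⟩ := exists_factor h4
  refine ⟨fromBlocks Z1 0 (A.toBlocks₁₂ᵀ * Z1⁻¹ᵀ) S1, ?_, fun i k => rfl⟩
  rw [fromBlocks_transpose, fromBlocks_multiply]
  conv_rhs => rw [h3]
  simp only [Matrix.mul_zero, add_zero, transpose_zero, Matrix.zero_mul, transpose_mul,
    transpose_transpose, hZ1, hS1, conjTranspose_eq_transpose_of_trivial]
  congr 1
  · rw [← Matrix.mul_assoc, mul_nonsing_inv _ hd, Matrix.one_mul]
  · rw [Matrix.mul_assoc, ← transpose_mul, mul_nonsing_inv _ hd, transpose_one, Matrix.mul_one]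
  · rw [← hZ1, Matrix.mul_inv_rev, transpose_nonsing_inv]
    simp only [Matrix.mul_assoc]
    abel

lemma Om_one_ne_zero {R : Type} [Fintype R] (b : ℝ) : Om (R := R) b 1 ≠ 0 := by
  intro h
  rw [Om, lintegral_eq_zero_iff (by fun_prop)] at h
  have h2 : ∀ᵐ p ∂(muO R), False := by
    filter_upwards [h, ae_pos] with p h1 hp
    simp only [Pi.one_apply, mul_one, Pi.zero_apply, mul_eq_zero, gam_ne_zero, or_false, pw,
      ENNReal.ofReal_eq_zero] at h1
    exact absurd (Real.rpow_pos_of_pos hp _) (not_lt.2 h1)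
  rw [eventually_false_iff_eq_bot, ae_eq_bot] at h2
  have h3 : muO R univ = 0 := by rw [h2]; rfl
  rw [← univ_prod_univ, Measure.prod_prod, mul_eq_zero] at h3
  rcases h3 with h3 | h3
  · exact (isOpen_univ.measure_pos volume univ_nonempty).ne' h3
  · simp at h3

lemma EW_reindex {ι' : Type} [Fintype ι] [DecidableEq ι] [Fintype ι'] [DecidableEq ι'] (e : ι ≃ ι')
    (a : ℝ) (F : Matrix ι' ι' ℝ → ℝ≥0∞) :
    EW ι' a F = EW ι a fun Y => F (Y.submatrix e.symm e.symm) := by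
  unfold EW
  rw [J_reindex e]
  congr 1
  funext Y
  congr 1
  by_cases h : Y.PosDef
  · rw [wtM_of_posDef a h, wtM_of_posDef a (h.submatrix e.symm.injective),
      det_submatrix_equiv_self]
    congr 2
    simp only [trace, diag, submatrix_apply]
    exact e.symm.sum_comp fun i => Y i i
  · rw [wtM_of_not a h, wtM_of_not a]
    intro h'
    apply h
    simpa using h'.submatrix e.injective

theorem EW_one (α : Type) [Fintype α] : ∀ [DecidableEq α] (a : ℝ), -1 < a →
    EW α a 1 ≠ 0 ∧ EW α a 1 ≠ ∞ := by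
  refine Fintype.induction_empty_option (P := fun α _ => ∀ [DecidableEq α] (a : ℝ), -1 < a →
    EW α a 1 ≠ 0 ∧ EW α a 1 ≠ ∞) ?_ ?_ ?_ α
  · intro α β _ e ih _ a ha
    let _ := Fintype.ofEquiv β e.symm
    classical
    rw [EW_reindex e]
    exact ih a ha
  · intro _ a _
    have h : ∀ X : Matrix PEmpty.{1} PEmpty.{1} ℝ, wtM a X = 1 := fun X => by
      have : X = 1 := Subsingleton.elim _ _
      rw [this, wtM_of_posDef a PosDef.one]
      simp [pw, gam]
    have h2 : (volume : Measure (Sym2 PEmpty.{1} → ℝ)) univ = 1 := by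
      have : IsEmpty (Sym2 PEmpty.{1}) := ⟨fun q => by
        induction q using Sym2.ind with
        | _ i j => exact i.elim⟩
      rw [volume_pi, Measure.pi_univ]
      simp
    simp [EW, J, h, h2]
  · intro α _ ih inst a ha
    classical
    obtain rfl : inst = Option.instDecidableEq := Subsingleton.elim _ _
    have h1 : EW (Option α) a 1 = EW α (a + 1 / 2) 1 * Om (R := α) (a + 1) 1 := by
      rw [EW_option a (F := 1) measurable_const, EW, J, J,
        ← lintegral_mul_const' _ _ (Om_one_ne_top (by linarith))]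
      refine lintegral_congr fun x => ?_
      by_cases h : (symMat x).PosDef
      · obtain ⟨Z, hZ⟩ := exists_factor h.posSemidef
        have := inner_eq a (F := 1) measurable_const (det_ne_zero_of_factor h hZ)
        rw [hZ] at this
        rw [this, Pi.one_apply, mul_one]
        rfl
      · rw [inner_of_not a _ h, wtM_of_not _ h, zero_mul, zero_mul]
    rw [h1]
    obtain ⟨h2, h3⟩ := ih (a + 1 / 2) (by linarith)
    exact ⟨mul_ne_zero h2 (Om_one_ne_zero _), ENNReal.mul_ne_top h3 (Om_one_ne_top (by linarith))⟩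

lemma EW_orth {ι' : Type} [Fintype ι] [DecidableEq ι] [Fintype ι'] [DecidableEq ι']
    (O : Matrix ι ι' ℝ) (h1 : Oᵀ * O = 1) (hc : Fintype.card ι' = Fintype.card ι) (a : ℝ)
    (F : Matrix ι ι ℝ → ℝ≥0∞) : EW ι a F = EW ι' a fun Y => F (O * Y * Oᵀ) := by
  let e : ι ≃ ι' := Fintype.equivOfCardEq hc.symm
  let M : Matrix ι ι ℝ := O.submatrix id e
  have hM : Mᵀ * M = 1 := by
    simp only [M, transpose_submatrix]
    rw [← submatrix_mul _ _ _ id _ Function.bijective_id, h1, submatrix_one_equiv]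
  have hd : M.det * M.det = 1 := by
    have := congrArg Matrix.det hM
    rwa [det_mul, det_transpose, det_one] at this
  have hd0 : M.det ≠ 0 := fun h => by simp [h] at hd
  have h2 : |M.det| = 1 := by
    have : |M.det| * |M.det| = 1 := by rw [← abs_mul, hd, abs_one]
    nlinarith [abs_nonneg M.det]
  rw [EW_reindex e, EW, J_cong M hd0, h2, one_pow, ENNReal.ofReal_one, one_mul, EW]
  congr 1
  funext Y
  congr 1
  · by_cases h : Y.PosDef
    · rw [wtM_of_posDef a h, wtM_of_posDef a ((posDef_cong hd0).2 h), det_mul, det_mul,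
        det_transpose, trace_mul_cycle, hM, Matrix.one_mul, mul_right_comm, hd, one_mul]
    · rw [wtM_of_not a h, wtM_of_not a fun h' => h ((posDef_cong hd0).1 h')]
  · congr 1
    ext i j
    simp only [M, Matrix.mul_apply, submatrix_apply, transpose_apply, id]
    rw [← e.sum_comp]
    refine Finset.sum_congr rfl fun k _ => ?_
    rw [← e.sum_comp]
    simp

end Pool.Agent.H455Z.W
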