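import Mathlib
import Pool.Agent.H455Z.W6

set_option autoImplicit false
set_option maxHeartbeats 400000

open MeasureTheory Matrix Filter Topology
open Set hiding diagonal
open scoped ENNReal

namespace Pool.Agent.H455Z.W

lemma exists_diag {K : Type} [Fintype K] [DecidableEq K] (M : Matrix K K ℝ) (hM : Mᵀ = M) :
    ∃ (O : Matrix K K ℝ) (l : K → ℝ), Oᵀ * O = 1 ∧ Oᵀ * M * O = diagonal l := by
  have h : M.IsHermitian := hM
  refine ⟨h.eigenvectorUnitary, h.eigenvalues, ?_, ?_⟩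
  · exact h.eigenvectorUnitary.2.1
  · have := h.conjStarAlgAut_star_eigenvectorUnitary
    rw [Unitary.conjStarAlgAut_apply] at this
    simpa [star_eq_conjTranspose] using this

lemma det_change {K K' : Type} [Fintype K] [DecidableEq K] [Fintype K'] [DecidableEq K']
    (g : Matrix K K' ℝ) (hc : Fintype.card K' = Fintype.card K) (hg : ∀ x, g *ᵥ x = 0 → x = 0) :
    ∃ δ : ℝ, 0 < δ ∧ ∀ X : Matrix K K ℝ, (gᵀ * X * g).det = δ * X.det := by
  let e : K ≃ K' := Fintype.equivOfCardEq hc.symm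
  have h1 : (g.submatrix id e).det ≠ 0 := by
    intro h
    obtain ⟨v, hv, h2⟩ := exists_mulVec_eq_zero_iff.2 h
    apply hv
    have h3 := hg (v ∘ e.symm) (by
      rw [← h2, submatrix_mulVec_equiv]
      rfl)
    funext k
    simpa using congrFun h3 (e k)
  refine ⟨(g.submatrix id e).det * (g.submatrix id e).det, mul_self_pos.2 h1, fun X => ?_⟩
  rw [← det_submatrix_equiv_self e, submatrix_mul _ _ _ id _ Function.bijective_id,
    submatrix_mul _ _ _ id _ Function.bijective_id, det_mul, det_mul, ← transpose_submatrix,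
    det_transpose, submatrix_id_id]
  ring

section
variable {κ κ' K : Type}

lemma bord_factor' [Fintype κ'] [DecidableEq κ'] (r s : ℝ) (w : κ' → ℝ) (Z : Matrix κ κ' ℝ) :
    trib r w Z * (diagonal (ov s fun _ => 1) : Matrix (Option κ') (Option κ') ℝ) *
        (trib r w Z)ᵀ = bord (rad w (r * r * s)) (Z *ᵥ w) (Z * Zᵀ) := by
  ext (_ | i) (_ | j) <;>
    simp [Matrix.mul_apply, Fintype.sum_option, dotProduct, mulVec, add_comm, mul_comm, diagonal,
      rad, mul_left_comm]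

lemma trib_mul_trib [Fintype κ] (x : κ → ℝ) (U : Matrix K κ ℝ) (w : κ' → ℝ) (Z : Matrix κ κ' ℝ) :
    trib 1 x U * trib 1 w Z = trib 1 (w + x ᵥ* Z) (U * Z) := by
  ext (_ | i) (_ | j) <;> simp [Matrix.mul_apply, Fintype.sum_option, dotProduct, vecMul]

lemma det_bord_of [Fintype κ] [DecidableEq κ] [Fintype κ'] (C : Matrix κ κ' ℝ) (y : κ' → ℝ)
    (y0 : κ → ℝ) (s t : ℝ) (h1 : (C * Cᵀ) *ᵥ y0 = C *ᵥ y) (h2 : y ⬝ᵥ y = t + y0 ⬝ᵥ (C *ᵥ y)) :
    (bord (rad y s) (C *ᵥ y) (C * Cᵀ)).det = (t + s) * (C * Cᵀ).det := by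
  rw [← det_bord (t + s) y0 (C * Cᵀ) (by rw [transpose_mul, transpose_transpose]), h1, rad, h2]
  congr 2
  ring

lemma conj_bord_zero [Fintype κ] (V : Matrix (Option κ) K ℝ) (hV : ∀ k, V none k = 0) (t : ℝ)
    (v : κ → ℝ) (A : Matrix κ κ ℝ) :
    Vᵀ * bord t v A * V = (V.submatrix some id)ᵀ * A * V.submatrix some id := by
  ext i j
  simp [Matrix.mul_apply, Fintype.sum_option, hV]

lemma gram_det [Fintype κ] [DecidableEq κ] [Fintype κ'] (C : Matrix κ κ' ℝ)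
    (h : ∀ y, y ᵥ* C = 0 → y = 0) : (C * Cᵀ).det ≠ 0 := by
  intro h0
  obtain ⟨v, hv, h2⟩ := exists_mulVec_eq_zero_iff.2 h0
  refine hv (h v (dotProduct_self_eq_zero.1 ?_))
  have : v ⬝ᵥ ((C * Cᵀ) *ᵥ v) = 0 := by rw [h2, dotProduct_zero]
  rwa [← mulVec_mulVec, dotProduct_mulVec, mulVec_transpose] at this

lemma gram_nonneg [Fintype κ] [DecidableEq κ] [Fintype κ'] (C : Matrix κ κ' ℝ) :
    0 ≤ (C * Cᵀ).det := by
  have h : (C * Cᵀ).PosSemidef := by simpa using posSemidef_self_mul_conjTranspose C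
  exact h.det_nonneg

lemma proj_sq [Fintype κ] {Q : Matrix κ κ ℝ} (h1 : Qᵀ = Q) (h2 : Q * Q = Q) (y : κ → ℝ) :
    (Q *ᵥ y) ⬝ᵥ (Q *ᵥ y) = y ⬝ᵥ (Q *ᵥ y) := by
  rw [dotProduct_mulVec, ← mulVec_transpose, h1, mulVec_mulVec, h2, dotProduct_comm]

lemma proj_le [Fintype κ] {Q : Matrix κ κ ℝ} (h1 : Qᵀ = Q) (h2 : Q * Q = Q) (y : κ → ℝ) :
    (Q *ᵥ y) ⬝ᵥ (Q *ᵥ y) ≤ y ⬝ᵥ y := by
  have h := dot_self_nonneg (y - Q *ᵥ y)
  rw [sub_dotProduct, dotProduct_sub, dotProduct_sub, dotProduct_comm (Q *ᵥ y) y,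
    proj_sq h1 h2] at h
  rw [proj_sq h1 h2]
  linarith

lemma det_bord_proj [Fintype κ] [DecidableEq κ] [Fintype κ'] [DecidableEq κ'] (C : Matrix κ κ' ℝ)
    (h : ∀ y, y ᵥ* C = 0 → y = 0) : ∃ Q : Matrix κ' κ' ℝ, Qᵀ = Q ∧ Q * Q = Q ∧
      Q.trace = Fintype.card κ' - Fintype.card κ ∧ ∀ y s,
        (bord (rad y s) (C *ᵥ y) (C * Cᵀ)).det = (C * Cᵀ).det * rad (Q *ᵥ y) s := by
  have hu : IsUnit (C * Cᵀ).det := Ne.isUnit (gram_det C h)
  have h1 : (1 - Cᵀ * (C * Cᵀ)⁻¹ * C)ᵀ = 1 - Cᵀ * (C * Cᵀ)⁻¹ * C := by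
    simp only [transpose_sub, transpose_one, transpose_mul, transpose_transpose,
      transpose_nonsing_inv, Matrix.mul_assoc]
  have h2 : (1 - Cᵀ * (C * Cᵀ)⁻¹ * C) * (1 - Cᵀ * (C * Cᵀ)⁻¹ * C) = 1 - Cᵀ * (C * Cᵀ)⁻¹ * C := by
    have : Cᵀ * (C * Cᵀ)⁻¹ * C * (Cᵀ * (C * Cᵀ)⁻¹ * C) = Cᵀ * (C * Cᵀ)⁻¹ * C := by
      calc _ = Cᵀ * ((C * Cᵀ)⁻¹ * (C * Cᵀ)) * (C * Cᵀ)⁻¹ * C := by simp only [Matrix.mul_assoc]
        _ = _ := by rw [nonsing_inv_mul _ hu, Matrix.mul_one]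
    rw [Matrix.sub_mul, Matrix.mul_sub, Matrix.mul_sub, this]
    simp
  refine ⟨1 - Cᵀ * (C * Cᵀ)⁻¹ * C, h1, h2, ?_, fun y s => ?_⟩
  · rw [trace_sub, trace_mul_cycle, mul_nonsing_inv _ hu, trace_one, trace_one]
  · rw [det_bord_of C y ((C * Cᵀ)⁻¹ *ᵥ (C *ᵥ y)) s
      (((1 - Cᵀ * (C * Cᵀ)⁻¹ * C) *ᵥ y) ⬝ᵥ ((1 - Cᵀ * (C * Cᵀ)⁻¹ * C) *ᵥ y)), mul_comm, rad]
    · rw [mulVec_mulVec, mul_nonsing_inv _ hu, one_mulVec]
    · rw [proj_sq h1 h2, sub_mulVec, one_mulVec, dotProduct_sub, ← mulVec_mulVec, ← mulVec_mulVec,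
        dotProduct_mulVec y, vecMul_transpose, dotProduct_comm (C *ᵥ y)]
      ring

theorem normal_form [Fintype κ] [DecidableEq κ] [Fintype K] [DecidableEq K]
    (V : Matrix (Option κ) K ℝ) (hV : ∀ x, V *ᵥ x = 0 → x = 0) {Z : Matrix κ κ ℝ}
    (hZ : Z.det ≠ 0) (ξ : K → ℝ) (hξ : (V *ᵥ ξ) none = 1) :
    ∃ (β : ℝ) (Q : Matrix κ κ ℝ), 0 ≤ β ∧ Qᵀ = Q ∧ Q * Q = Q ∧
      Q.trace = Fintype.card κ + 1 - Fintype.card K ∧ ∀ w s,
        (Vᵀ * bord (rad w s) (Z *ᵥ w) (Z * Zᵀ) * V).det =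
          β * rad (Q *ᵥ (w + (fun k => (V *ᵥ ξ) (some k)) ᵥ* Z)) s := by
  obtain ⟨k0, hk0⟩ : ∃ k0, V none k0 ≠ 0 := by
    by_contra h
    push Not at h
    simp [mulVec, dotProduct, h] at hξ
  let g : Matrix K (Option {k // k ≠ k0}) ℝ := Matrix.of fun k o =>
    ov (ξ k) (fun k' => (Pi.single k'.1 1 - Pi.single k0 (V none k'.1 / V none k0) : K → ℝ) k) o
  have hc : Fintype.card (Option {k // k ≠ k0}) = Fintype.card K :=
    Fintype.card_congr (Equiv.optionSubtypeNe k0)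
  have g0 : ∀ o, (V * g) o none = (V *ᵥ ξ) o := fun o => rfl
  have g1 : ∀ k', (V * g) none (some k') = 0 := fun k' => by
    have : (V * g) none (some k') =
        V none ⬝ᵥ (Pi.single k'.1 1 - Pi.single k0 (V none k'.1 / V none k0)) := rfl
    rw [this, dotProduct_sub, dotProduct_single, dotProduct_single]
    field_simp
    ring
  have hg : ∀ x, g *ᵥ x = 0 → x = 0 := by
    intro x hx
    have h1 : x none = 0 := by
      have : ((V * g) *ᵥ x) none = 0 := by rw [← mulVec_mulVec, hx, mulVec_zero]; rfl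
      rw [mulVec, dotProduct, Fintype.sum_option, g0, hξ] at this
      simpa [g1] using this
    funext o
    cases o with
    | none => exact h1
    | some k =>
      have := congrFun hx k.1
      simp only [mulVec, dotProduct, Fintype.sum_option, h1, mul_zero, zero_add, g, of_apply,
        ov_some, Pi.sub_apply, Pi.single_eq_of_ne k.2, sub_zero, Pi.zero_apply] at this
      rw [Finset.sum_eq_single k (fun k' _ hk => by
        rw [Pi.single_eq_of_ne (fun h => hk (Subtype.ext h.symm)), zero_mul]) (by simp)] at this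
      simpa using this
  obtain ⟨δ, hδ, hd⟩ := det_change g hc hg
  let U : Matrix {k // k ≠ k0} κ ℝ := Matrix.of fun k' k => (V * g) (some k) (some k')
  have hU : (V * g)ᵀ = trib 1 (fun k => (V *ᵥ ξ) (some k)) U := by
    ext (_ | i) (_ | j)
    · exact hξ
    · rfl
    · exact g1 i
    · rfl
  have hu : IsUnit Z.det := Ne.isUnit hZ
  obtain ⟨Q, q1, q2, q3, q4⟩ := det_bord_proj (U * Z) (fun y hy => by
    have h1 : y ᵥ* U = 0 := by
      have := congrArg (· ᵥ* Z⁻¹) hy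
      simpa only [vecMul_vecMul, Matrix.mul_assoc, mul_nonsing_inv _ hu, Matrix.mul_one,
        zero_vecMul] using this
    have h2 : ov 0 y = 0 := hg _ (hV _ (by
      rw [mulVec_mulVec, ← vecMul_transpose, hU]
      funext o
      cases o with
      | none => simp [vecMul, dotProduct, Fintype.sum_option]
      | some k => simpa [vecMul, dotProduct, Fintype.sum_option] using congrFun h1 k))
    funext k
    exact congrFun h2 (some k))
  refine ⟨(U * Z * (U * Z)ᵀ).det / δ, Q, div_nonneg (gram_nonneg _) hδ.le, q1, q2, ?_,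
    fun w s => ?_⟩
  · rw [q3, ← hc, Fintype.card_option]
    push_cast
    ring
  · rw [div_mul_eq_mul_div, eq_div_iff hδ.ne', mul_comm, ← hd, ← q4]
    congr 1
    have := bord_factor' 1 s (w + (fun k => (V *ᵥ ξ) (some k)) ᵥ* Z) (U * Z)
    rw [one_mul, one_mul] at this
    rw [← this, ← trib_mul_trib, ← hU, rad, bord_factor]
    simp only [transpose_mul, transpose_transpose, Matrix.mul_assoc]

end

theorem qf_block {A R K : Type} [Fintype A] [DecidableEq A] [Fintype R] [DecidableEq R]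
    [Fintype K] [DecidableEq K] (V : Matrix (Option (A ⊕ R)) K ℝ) (hV : ∀ x, V *ᵥ x = 0 → x = 0)
    {Z : Matrix (A ⊕ R) (A ⊕ R) ℝ} (hZ : Z.det ≠ 0) (hc : Fintype.card K ≤ Fintype.card R)
    {b : ℝ} (hb : 1 ≤ 2 * b) (x : A → ℝ) :
    QF (A ⊕ R) b fun u s =>
      (Vᵀ * bord (rad (Sum.elim x u) s) (Z *ᵥ Sum.elim x u) (Z * Zᵀ) * V).det := by
  by_cases h0 : ∀ k, V none k = 0
  · refine ⟨0, ((V.submatrix some id)ᵀ * (Z * Zᵀ) * V.submatrix some id).det, 0, 0, le_rfl, ?_,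
      fun y => by simpa using dot_self_nonneg y, fun y => by simpa using dot_self_nonneg y,
      Or.inl rfl, fun u s _ => by simp [conj_bord_zero V h0]⟩
    have := gram_nonneg ((V.submatrix some id)ᵀ * Z)
    simpa only [transpose_mul, transpose_transpose, Matrix.mul_assoc] using this
  push Not at h0
  obtain ⟨k0, hk0⟩ := h0
  obtain ⟨β, Q, hβ, q1, q2, q3, q4⟩ := normal_form V hV hZ (Pi.single k0 (V none k0)⁻¹) (by
    simp [mulVec, hk0])
  set c0 := (fun k => (V *ᵥ (Pi.single k0 (V none k0)⁻¹)) (some k)) ᵥ* Z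
  have hL : ∀ u : R → ℝ, Q.submatrix id Sum.inr *ᵥ u = Q *ᵥ Sum.elim 0 u := fun u => by
    funext k
    simp [mulVec, dotProduct]
  refine ⟨β, 0, Q *ᵥ (Sum.elim x 0 + c0), Q.submatrix id Sum.inr, hβ, le_rfl, fun y => ?_,
    fun u => ?_, Or.inr ?_, fun u s _ => ?_⟩
  · refine le_trans ?_ (proj_le q1 q2 y)
    rw [← q1, mulVec_transpose, q1]
    have h := dot_self_nonneg fun a => (y ᵥ* Q) (Sum.inl a)
    simp only [dotProduct, Fintype.sum_sum_type] at h ⊢
    exact le_add_of_nonneg_left h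
  · rw [hL]
    refine (proj_le q1 q2 _).trans (le_of_eq ?_)
    simp [dotProduct]
  · have h1 : ∀ k, ((Q.submatrix id Sum.inr)ᵀ * Q.submatrix id Sum.inr) k k =
        Q (Sum.inr k) (Sum.inr k) := fun k => by
      conv_rhs => rw [← q2]
      conv_rhs => rw [← q1]
      simp only [Matrix.mul_apply, transpose_apply, submatrix_apply, id]
      refine Finset.sum_congr rfl fun l _ => ?_
      rw [← q1, transpose_apply, q1]
    have h2 : ∀ k, Q k k ≤ 1 := fun k => by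
      have := proj_le q1 q2 (Pi.single k 1)
      rw [proj_sq q1 q2] at this
      simpa using this
    have h3 : ∑ a, Q (Sum.inl a) (Sum.inl a) ≤ Fintype.card A := by
      calc _ ≤ ∑ _a : A, (1 : ℝ) := Finset.sum_le_sum fun a _ => h2 _
        _ = _ := by simp
    simp only [h1]
    simp only [trace, diag, Fintype.sum_sum_type, Fintype.card_sum] at q3
    have h4 : (Fintype.card K : ℝ) ≤ Fintype.card R := by exact_mod_cast hc
    push_cast at q3
    linarith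
  · dsimp only
    rw [q4, hL, ← mulVec_add, add_zero, rad]
    have : Sum.elim x (0 : R → ℝ) + c0 + Sum.elim (0 : A → ℝ) u = Sum.elim x u + c0 := by
      funext k
      cases k <;> simp [add_comm]
    rw [this]

end Pool.Agent.H455Z.W
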