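import Mathlib
import Pool.Agent.H455Z.W7

set_option autoImplicit false
set_option maxHeartbeats 400000

open MeasureTheory Matrix Filter Topology
open Set hiding diagonal
open scoped ENNReal

namespace Pool.Agent.H455Z.W

lemma shift_mono {K K₀ : Type} [Fintype K] [Fintype K₀] (P : Matrix K K₀ ℝ)
    (hP : ∀ η, P *ᵥ (η ᵥ* P) = η) (χ : ℝ → ℝ≥0∞) (hm : Measurable χ)
    (hχ : ∀ x y, 0 ≤ x → x ≤ y → χ x ≤ χ y) {η η' : K → ℝ} (h : η ⬝ᵥ η ≤ η' ⬝ᵥ η') :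
    ∫⁻ g, gam (g ⬝ᵥ g) * χ ((P *ᵥ g + η) ⬝ᵥ (P *ᵥ g + η)) ≤
      ∫⁻ g, gam (g ⬝ᵥ g) * χ ((P *ᵥ g + η') ⬝ᵥ (P *ᵥ g + η')) := by
  have hc : Continuous fun y : K₀ → ℝ => (P *ᵥ y) ⬝ᵥ (P *ᵥ y) := by fun_prop
  have hd : ∀ ζ ζ' : K → ℝ, (ζ ᵥ* P) ⬝ᵥ (ζ' ᵥ* P) = ζ ⬝ᵥ ζ' := fun ζ ζ' => by
    rw [← dotProduct_mulVec, hP]
  have key := refl_ineq (fun y => χ ((P *ᵥ y) ⬝ᵥ (P *ᵥ y))) (hm.comp hc.measurable) (η ᵥ* P)
    (η' ᵥ* P) (fun y t ht e => by
      refine hχ _ _ (dot_self_nonneg _) ?_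
      rw [← sub_vecMul, hd, hd, hd, dotProduct_comm y, ← dotProduct_mulVec] at e
      rw [← sub_vecMul, mulVec_sub, mulVec_smul, hP]
      simp only [sub_dotProduct (P *ᵥ y), dotProduct_sub _ (P *ᵥ y), smul_dotProduct,
        dotProduct_smul, smul_eq_mul, dotProduct_comm (P *ᵥ y) (η' - η)]
      nlinarith [mul_nonneg ht (sub_nonneg.2 h)])
  simpa only [mulVec_add, hP] using key

lemma coord_mono {K : Type} [Fintype K] (l : K → ℝ) (hl : ∀ k, 0 ≤ l k) (χ : ℝ → ℝ≥0∞)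
    (hm : Measurable χ) (hχ : ∀ x y, 0 ≤ x → x ≤ y → χ x ≤ χ y) {θ θ' : K → ℝ}
    (h : ∀ k, θ k * θ k ≤ θ' k * θ' k) :
    ∫⁻ g : K → ℝ, gam (g ⬝ᵥ g) * χ (∑ k, l k * ((g + θ) k * (g + θ) k)) ≤
      ∫⁻ g : K → ℝ, gam (g ⬝ᵥ g) * χ (∑ k, l k * ((g + θ') k * (g + θ') k)) := by
  classical
  have key : ∀ S : Finset K,
      ∫⁻ g : K → ℝ, gam (g ⬝ᵥ g) * χ (∑ k, l k * ((g + θ) k * (g + θ) k)) ≤
      ∫⁻ g : K → ℝ, gam (g ⬝ᵥ g) *
        χ (∑ k, l k * ((g + S.piecewise θ' θ) k * (g + S.piecewise θ' θ) k)) := by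
    intro S
    induction S using Finset.induction_on with
    | empty => simp
    | insert j S hj ih =>
      refine ih.trans (refl_ineq (fun y => χ (∑ k, l k * (y k * y k))) (by fun_prop) _ _
        fun y t ht e => ?_)
      have h1 : (insert j S).piecewise θ' θ - S.piecewise θ' θ = Pi.single j (θ' j - θ j) := by
        funext k
        by_cases hk : k = j
        · subst hk
          simp [Finset.piecewise_eq_of_notMem _ _ _ hj]
        · simp [Finset.piecewise_insert_of_ne _ _ _ hk, hk]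
      have h2 : (insert j S).piecewise θ' θ ⬝ᵥ (insert j S).piecewise θ' θ -
          S.piecewise θ' θ ⬝ᵥ S.piecewise θ' θ = θ' j * θ' j - θ j * θ j := by
        rw [dotProduct, dotProduct, ← Finset.sum_sub_distrib, Finset.sum_eq_single j
          (fun k _ hk => by simp [Finset.piecewise_insert_of_ne _ _ _ hk]) (by simp)]
        simp [Finset.piecewise_eq_of_notMem _ _ _ hj]
      rw [h1, h2, dotProduct_single, dotProduct_single, Pi.single_eq_same] at e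
      rw [h1]
      refine hχ _ _ (Finset.sum_nonneg fun k _ => mul_nonneg (hl k) (mul_self_nonneg _))
        (Finset.sum_le_sum fun k _ => mul_le_mul_of_nonneg_left ?_ (hl k))
      by_cases hk : k = j
      · subst hk
        simp only [Pi.sub_apply, Pi.smul_apply, Pi.single_eq_same, smul_eq_mul]
        nlinarith [mul_nonneg ht (sub_nonneg.2 (h k))]
      · simp [hk]
  simpa using key Finset.univ

theorem anderson {A m : Type} [Fintype A] [Fintype m] (L : Matrix m A ℝ) (v : m → ℝ)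
    (χ : ℝ → ℝ≥0∞) (hm : Measurable χ) (hχ : ∀ x y, 0 ≤ x → x ≤ y → χ x ≤ χ y) {t t' : ℝ}
    (h : t * t ≤ t' * t') :
    ∫⁻ x, gam (x ⬝ᵥ x) * χ ((L *ᵥ x + t • v) ⬝ᵥ (L *ᵥ x + t • v)) ≤
      ∫⁻ x, gam (x ⬝ᵥ x) * χ ((L *ᵥ x + t' • v) ⬝ᵥ (L *ᵥ x + t' • v)) := by
  classical
  obtain ⟨O, l, h1, h2⟩ := exists_diag (Lᵀ * L) (by rw [transpose_mul, transpose_transpose])
  have h3 : (L * O)ᵀ * (L * O) = diagonal l := by
    rw [← h2, transpose_mul]
    simp only [Matrix.mul_assoc]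
  have h4 : ∀ k, l k = (fun i => (L * O) i k) ⬝ᵥ fun i => (L * O) i k := fun k => by
    have := congrFun (congrFun h3 k) k
    rw [diagonal_apply_eq] at this
    exact this.symm
  have hl : ∀ k, 0 ≤ l k := fun k => h4 k ▸ dot_self_nonneg _
  let θ : A → ℝ := fun k => (v ᵥ* (L * O)) k / l k
  have h5 : diagonal l *ᵥ θ = v ᵥ* (L * O) := by
    funext k
    rw [mulVec_diagonal]
    by_cases hk : l k = 0
    · have : (fun i => (L * O) i k) = 0 := dotProduct_self_eq_zero.1 (by rw [← h4, hk])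
      rw [hk, zero_mul]
      show 0 = v ⬝ᵥ fun i => (L * O) i k
      rw [this, dotProduct_zero]
    · exact mul_div_cancel₀ _ hk
  set ρ := (v - (L * O) *ᵥ θ) ⬝ᵥ (v - (L * O) *ᵥ θ)
  have hρ : 0 ≤ ρ := dot_self_nonneg _
  have h6 : ∀ (s : ℝ) (z : A → ℝ), (L *ᵥ (O *ᵥ z) + s • v) ⬝ᵥ (L *ᵥ (O *ᵥ z) + s • v) =
      ∑ k, l k * ((z + s • θ) k * (z + s • θ) k) + s * s * ρ := by
    intro s z
    have e1 : L *ᵥ (O *ᵥ z) + s • v = (L * O) *ᵥ (z + s • θ) + s • (v - (L * O) *ᵥ θ) := by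
      rw [mulVec_mulVec, mulVec_add, mulVec_smul, smul_sub]
      abel
    have e2 : ∀ y, (v - (L * O) *ᵥ θ) ⬝ᵥ ((L * O) *ᵥ y) = 0 := fun y => by
      rw [dotProduct_mulVec, sub_vecMul, ← h5, ← h3, ← mulVec_transpose, mulVec_mulVec, sub_self,
        zero_dotProduct]
    have e3 : ∀ y, ((L * O) *ᵥ y) ⬝ᵥ ((L * O) *ᵥ y) = ∑ k, l k * (y k * y k) := fun y => by
      rw [dotProduct_mulVec, ← mulVec_transpose, mulVec_mulVec, h3, dotProduct]
      exact Finset.sum_congr rfl fun k _ => by rw [mulVec_diagonal, mul_assoc]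
    rw [e1, add_dotProduct, dotProduct_add, dotProduct_add, e3, smul_dotProduct, e2,
      dotProduct_smul, dotProduct_comm, e2, smul_dotProduct, dotProduct_smul]
    simp only [smul_eq_mul]
    ring
  have h7 : ∀ z : A → ℝ, (O *ᵥ z) ⬝ᵥ (O *ᵥ z) = z ⬝ᵥ z := fun z => by
    rw [dotProduct_mulVec, ← mulVec_transpose, mulVec_mulVec, h1, one_mulVec]
  rw [← lintegral_orth O h1, ← lintegral_orth O h1
    (fun x => gam (x ⬝ᵥ x) * χ ((L *ᵥ x + t' • v) ⬝ᵥ (L *ᵥ x + t' • v)))]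
  simp only [h6, h7]
  refine le_trans (lintegral_mono fun z => mul_le_mul_right (hχ _
    (∑ k, l k * ((z + t • θ) k * (z + t • θ) k) + t' * t' * ρ) ?_ ?_) _)
    (coord_mono l hl (fun x => χ (x + t' * t' * ρ)) (by fun_prop)
      (fun x y hx hxy => hχ _ _ (add_nonneg hx (mul_nonneg (mul_self_nonneg _) hρ))
        (by linarith)) fun k => ?_)
  · exact add_nonneg (Finset.sum_nonneg fun k _ => mul_nonneg (hl k) (mul_self_nonneg _))
      (mul_nonneg (mul_self_nonneg _) hρ)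
  · gcongr
  · simp only [Pi.smul_apply, smul_eq_mul]
    nlinarith [mul_le_mul_of_nonneg_right h (mul_self_nonneg (θ k))]

lemma pw_mono {ν : ℝ} (hν : 0 ≤ ν) {x y : ℝ} (hx : 0 ≤ x) (h : x ≤ y) : pw ν x ≤ pw ν y :=
  ENNReal.ofReal_le_ofReal (Real.rpow_le_rpow hx h hν)

lemma pw_mul' (a : ℝ) {s t : ℝ} (hs : 0 ≤ s) (ht : 0 ≤ t) : pw a (s * t) = pw a s * pw a t := by
  unfold pw
  rw [Real.mul_rpow hs ht, ENNReal.ofReal_mul (Real.rpow_nonneg hs _)]

lemma rpow_le_exp {ν k δ : ℝ} (hν : 0 ≤ ν) (hk : 0 ≤ k) (hδ : 0 < δ) :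
    ∃ C : ℝ, 0 ≤ C ∧ ∀ x, 0 ≤ x → (1 + k * x) ^ ν ≤ C * Real.exp (δ * x) := by
  set M := (ν * k + 1) / δ with hM
  have hM0 : 0 < M := by positivity
  refine ⟨Real.exp (ν * (Real.log M + 1 / M)), (Real.exp_pos _).le, fun x hx => ?_⟩
  have h0 : 0 < 1 + k * x := by positivity
  rw [Real.rpow_def_of_pos h0, ← Real.exp_add]
  refine Real.exp_le_exp.2 ?_
  have h1 := Real.log_le_sub_one_of_pos (div_pos h0 hM0)
  rw [Real.log_div h0.ne' hM0.ne'] at h1
  have h2 : ν * k * x / M ≤ δ * x := by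
    rw [div_le_iff₀ hM0, hM]
    have : δ * x * ((ν * k + 1) / δ) = (ν * k + 1) * x := by field_simp
    rw [this]
    nlinarith
  have h3 : Real.log (1 + k * x) * ν ≤ (Real.log M + (1 + k * x) / M) * ν :=
    mul_le_mul_of_nonneg_right (by linarith) hν
  calc _ ≤ _ := h3
    _ = ν * (Real.log M + 1 / M) + ν * k * x / M := by ring
    _ ≤ _ := by linarith

section
variable {R : Type} [Fintype R]

lemma Om_swap (b : ℝ) (H : (R → ℝ) × ℝ → ℝ≥0∞) (hH : Measurable H) :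
    Om b H = ∫⁻ s in Ioi 0, pw (b - 1) s * gam s * ∫⁻ g, gam (g ⬝ᵥ g) * H (g, s) := by
  rw [Om, lintegral_prod_symm _ (by fun_prop)]
  refine lintegral_congr fun s => ?_
  rw [← lintegral_const_mul' _ _ (ENNReal.mul_ne_top (pw_ne_top _ _) (gam_ne_top _))]
  refine lintegral_congr fun g => ?_
  rw [rad, gam_add]
  ring

lemma Om_mono (b : ℝ) {H H' : (R → ℝ) × ℝ → ℝ≥0∞} (h : ∀ p, 0 < p.2 → H p ≤ H' p) :
    Om b H ≤ Om b H' := by
  refine lintegral_mono_ae ?_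
  filter_upwards [ae_pos] with p hp
  exact mul_le_mul_right (h p hp) _

lemma Om_congr (b : ℝ) {H H' : (R → ℝ) × ℝ → ℝ≥0∞} (h : ∀ p, 0 < p.2 → H p = H' p) :
    Om b H = Om b H' :=
  le_antisymm (Om_mono b fun p hp => (h p hp).le) (Om_mono b fun p hp => (h p hp).ge)

lemma Om_const_mul (b : ℝ) {c : ℝ≥0∞} (hc : c ≠ ∞) (H : (R → ℝ) × ℝ → ℝ≥0∞) :
    Om b (fun p => c * H p) = c * Om b H := by
  rw [Om, Om, ← lintegral_const_mul' _ _ hc]
  exact lintegral_congr fun p => by ring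

lemma Om_const (b : ℝ) (c : ℝ≥0∞) : Om (R := R) b (fun _ => c) = Om (R := R) b 1 * c := by
  rw [Om, Om, ← lintegral_mul_const'' _ (by fun_prop)]
  exact lintegral_congr fun p => by simp

lemma Om_pw_ne_top {b ν : ℝ} (hb : 0 < b) (hν : 0 ≤ ν) :
    Om (R := R) b (fun p => pw ν (1 + rad p.1 p.2)) ≠ ∞ := by
  obtain ⟨C, hC0, hC⟩ := rpow_le_exp hν zero_le_one (show (0 : ℝ) < 1 / 4 by norm_num)
  have h := Om_ofReal (R := R) hb (F := fun u s => (1 + rad u s) ^ ν)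
    ⟨by fun_prop, C, fun u s hs => by
      have h1 := rad_pos u hs
      have h2 := hC _ h1.le
      rw [one_mul] at h2
      dsimp only
      rw [abs_of_nonneg (by positivity)]
      calc _ ≤ Real.exp (-rad u s / 2) * (C * Real.exp (1 / 4 * rad u s)) := by gcongr
        _ = C * Real.exp (-rad u s / 2 + 1 / 4 * rad u s) := by rw [Real.exp_add]; ring
        _ ≤ _ := by gcongr; linarith⟩
    (fun u s hs => by have := rad_pos u hs; positivity)
  exact h ▸ ENNReal.ofReal_ne_top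

end

lemma Om_sum {A R : Type} [Fintype A] [Fintype R] (b : ℝ) (H : (A ⊕ R → ℝ) × ℝ → ℝ≥0∞)
    (hH : Measurable H) :
    Om b H = ∫⁻ x : A → ℝ, gam (x ⬝ᵥ x) * Om b fun p => H (Sum.elim x p.1, p.2) := by
  have hc : Continuous fun z : (A → ℝ) × (R → ℝ) => Sum.elim z.1 z.2 :=
    continuous_pi fun k => by cases k <;> simp <;> fun_prop
  have h1 : Measurable fun p : (A ⊕ R → ℝ) × ℝ => pw (b - 1) p.2 * gam (rad p.1 p.2) * H p := by
    fun_prop
  rw [Om, lintegral_prod _ h1.aemeasurable, lintegral_sum _ h1.lintegral_prod_right']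
  refine lintegral_congr fun x => ?_
  have h2 : Measurable fun u : R → ℝ => Sum.elim x u :=
    (hc.comp (Continuous.prodMk_right x)).measurable
  rw [Om, lintegral_prod _ (by fun_prop), ← lintegral_const_mul' _ _ (gam_ne_top _)]
  refine lintegral_congr fun u => ?_
  rw [← lintegral_const_mul' _ _ (gam_ne_top _)]
  refine lintegral_congr fun s => ?_
  simp only [rad, sumElim_dotProduct_sumElim, gam_add]
  ring

lemma Om_sum' {A R : Type} [Fintype A] [Fintype R] (b : ℝ) (H : (A ⊕ R → ℝ) × ℝ → ℝ≥0∞)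
    (hH : Measurable H) :
    Om b H = Om b fun p => ∫⁻ x : A → ℝ, gam (x ⬝ᵥ x) * H (Sum.elim x p.1, p.2) := by
  have hc : Continuous fun z : (A → ℝ) × (R → ℝ) => Sum.elim z.1 z.2 :=
    continuous_pi fun k => by cases k <;> simp <;> fun_prop
  have h2 : Measurable fun z : (A → ℝ) × ((R → ℝ) × ℝ) => Sum.elim z.1 z.2.1 :=
    (hc.comp (by fun_prop : Continuous fun z : (A → ℝ) × ((R → ℝ) × ℝ) => (z.1, z.2.1))).measurable
  rw [Om_sum b H hH]
  simp only [Om]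
  simp_rw [← lintegral_const_mul' _ _ (gam_ne_top _),
    ← lintegral_const_mul' _ _ (ENNReal.mul_ne_top (pw_ne_top _ _) (gam_ne_top _))]
  rw [lintegral_lintegral_swap (by fun_prop)]
  exact lintegral_congr fun p => lintegral_congr fun x => by ring

theorem exists_phi {K K₀ : Type} [Fintype K] [Fintype K₀] (k0 : K) (P : Matrix K K₀ ℝ)
    (hP : ∀ η, P *ᵥ (η ᵥ* P) = η) {b ν σ : ℝ} (hb : 0 < b) (hν : 0 ≤ ν) (hσ : 0 ≤ σ) (κ : ℝ) :
    ∃ φ : ℝ → ℝ, Continuous φ ∧ Monotone φ ∧ (∀ x, 0 ≤ φ x) ∧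
      (∃ C : ℝ, ∀ x, 0 < x → φ x ≤ C * Real.exp (x / 8)) ∧ (κ = 0 → ∀ x, φ x = φ 0) ∧
      ∀ η : K → ℝ,
        Om b (fun q => pw ν (σ * rad (P *ᵥ q.1 + κ • η) q.2)) = ENNReal.ofReal (φ (η ⬝ᵥ η)) := by
  classical
  let Ψ : (K → ℝ) → ℝ≥0∞ := fun ξ => Om b fun q => pw ν (σ * rad (P *ᵥ q.1 + ξ) q.2)
  have hc : ∀ ξ : K → ℝ, Measurable fun q : (K₀ → ℝ) × ℝ => P *ᵥ q.1 + ξ := fun ξ =>
    (by fun_prop : Continuous _).measurable
  have Ψm : ∀ ξ ξ' : K → ℝ, ξ ⬝ᵥ ξ ≤ ξ' ⬝ᵥ ξ' → Ψ ξ ≤ Ψ ξ' := by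
    intro ξ ξ' h
    have := hc ξ
    have := hc ξ'
    simp only [Ψ]
    rw [Om_swap _ _ (by fun_prop), Om_swap _ _ (by fun_prop)]
    refine setLIntegral_mono' measurableSet_Ioi fun s hs => mul_le_mul_right ?_ _
    exact shift_mono P hP (fun x => pw ν (σ * (x + s))) (by fun_prop) (fun x y hx hxy =>
      pw_mono hν (mul_nonneg hσ (add_nonneg hx (le_of_lt hs))) (by gcongr)) h
  have hP2 : ∀ g : K₀ → ℝ, (P *ᵥ g) ⬝ᵥ (P *ᵥ g) ≤ g ⬝ᵥ g := fun g => by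
    have h := dot_self_nonneg (g - (P *ᵥ g) ᵥ* P)
    rw [sub_dotProduct, dotProduct_sub, dotProduct_sub, dotProduct_comm g (_ ᵥ* P),
      ← dotProduct_mulVec, ← dotProduct_mulVec, hP] at h
    linarith
  have bd : ∀ (ξ : K → ℝ) (y : ℝ) (q : (K₀ → ℝ) × ℝ), ξ ⬝ᵥ ξ ≤ y → 0 < q.2 →
      pw ν (σ * rad (P *ᵥ q.1 + ξ) q.2) ≤ pw ν (2 * σ * (1 + y)) * pw ν (1 + rad q.1 q.2) := by
    intro ξ y q hy hq
    have h0 := dot_self_nonneg ξ
    have h1 := rad_pos q.1 hq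
    rw [← pw_mul' _ (mul_nonneg (by positivity) (by linarith)) (by linarith)]
    refine pw_mono hν (mul_nonneg hσ (rad_pos _ hq).le) ?_
    have h2 := dot_self_nonneg (P *ᵥ q.1 - ξ)
    have h3 : rad (P *ᵥ q.1 + ξ) q.2 ≤ 2 * ((1 + y) * (1 + rad q.1 q.2)) := by
      have h4 := hP2 q.1
      have h5 : 0 ≤ y * rad q.1 q.2 := mul_nonneg (h0.trans hy) h1.le
      simp only [rad, add_dotProduct, dotProduct_add, sub_dotProduct, dotProduct_sub] at *
      nlinarith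
    calc _ ≤ σ * (2 * ((1 + y) * (1 + rad q.1 q.2))) := by gcongr
      _ = _ := by ring
  have bd2 : ∀ ξ : K → ℝ, Ψ ξ ≤ pw ν (2 * σ * (1 + ξ ⬝ᵥ ξ)) *
      Om (R := K₀) b fun q => pw ν (1 + rad q.1 q.2) := fun ξ => by
    rw [← Om_const_mul _ (pw_ne_top _ _)]
    exact Om_mono b fun q hq => bd ξ _ q le_rfl hq
  have fin : ∀ ξ, Ψ ξ ≠ ∞ := fun ξ =>
    ne_top_of_le_ne_top (ENNReal.mul_ne_top (pw_ne_top _ _) (Om_pw_ne_top hb hν)) (bd2 ξ)
  let ξ : ℝ → K → ℝ := fun x => Pi.single k0 (κ * Real.sqrt x)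
  have ξn : ∀ x, ξ x ⬝ᵥ ξ x = κ * κ * max x 0 := fun x => by
    simp only [ξ, single_dotProduct, Pi.single_eq_same]
    rw [mul_mul_mul_comm, ← Real.sq_sqrt', sq]
  refine ⟨fun x => (Ψ (ξ x)).toReal, ?_, fun x y h => ?_, fun _ => ENNReal.toReal_nonneg, ?_,
    fun h x => by simp [ξ, h], fun η => ?_⟩
  · refine continuous_iff_continuousAt.2 fun x => (ENNReal.tendsto_toReal (fin _)).comp ?_
    refine tendsto_lintegral_filter_of_dominated_convergence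
      (fun q => pw (b - 1) q.2 * gam (rad q.1 q.2) *
        (pw ν (2 * σ * (1 + κ * κ * max (x + 1) 0)) * pw ν (1 + rad q.1 q.2)))
      (Eventually.of_forall fun y => by have := hc (ξ y); fun_prop) ?_ ?_ ?_
    · filter_upwards [gt_mem_nhds (lt_add_one x)] with y hy
      filter_upwards [ae_pos] with q hq
      refine mul_le_mul_right (bd _ _ q ?_ hq) _
      rw [ξn]
      exact mul_le_mul_of_nonneg_left (max_le_max_right _ hy.le) (mul_self_nonneg _)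
    · have := Om_const_mul (R := K₀) b (pw_ne_top ν (2 * σ * (1 + κ * κ * max (x + 1) 0)))
        fun q => pw ν (1 + rad q.1 q.2)
      rw [Om] at this
      rw [this]
      exact ENNReal.mul_ne_top (pw_ne_top _ _) (Om_pw_ne_top hb hν)
    · refine ae_of_all _ fun q => ENNReal.Tendsto.const_mul ?_
        (Or.inr (ENNReal.mul_ne_top (pw_ne_top _ _) (gam_ne_top _)))
      refine ENNReal.tendsto_ofReal (Tendsto.rpow_const ?_ (Or.inr hν))
      have : Continuous fun y => σ * rad (P *ᵥ q.1 + ξ y) q.2 := by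
        have : Continuous ξ :=
          (continuous_single (A := fun _ : K => ℝ) k0).comp (by fun_prop)
        simp only [rad]
        fun_prop
      exact this.tendsto x
  · refine ENNReal.toReal_mono (fin _) (Ψm _ _ ?_)
    rw [ξn, ξn]
    exact mul_le_mul_of_nonneg_left (max_le_max_right _ h) (mul_self_nonneg _)
  · obtain ⟨C, hC0, hC⟩ := rpow_le_exp hν (mul_self_nonneg κ) (show (0 : ℝ) < 1 / 8 by norm_num)
    refine ⟨(2 * σ) ^ ν * C * (Om (R := K₀) b fun q => pw ν (1 + rad q.1 q.2)).toReal,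
      fun x hx => ?_⟩
    refine (ENNReal.toReal_mono (ENNReal.mul_ne_top (pw_ne_top _ _) (Om_pw_ne_top hb hν))
      (bd2 _)).trans ?_
    have h0 : 0 ≤ κ * κ * x := mul_nonneg (mul_self_nonneg κ) hx.le
    rw [ENNReal.toReal_mul, ξn, max_eq_left hx.le, pw, ENNReal.toReal_ofReal (by positivity),
      Real.mul_rpow (by positivity) (by positivity), show x / 8 = 1 / 8 * x by ring]
    calc _ ≤ (2 * σ) ^ ν * (C * Real.exp (1 / 8 * x)) * _ := by gcongr; exact hC x hx.le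
      _ = _ := by ring
  · rw [ENNReal.ofReal_toReal (fin _)]
    have : (κ • η) ⬝ᵥ (κ • η) = ξ (η ⬝ᵥ η) ⬝ᵥ ξ (η ⬝ᵥ η) := by
      rw [ξn, max_eq_left (dot_self_nonneg _), smul_dotProduct, dotProduct_smul, smul_eq_mul,
        smul_eq_mul, mul_assoc]
    exact le_antisymm (Ψm _ _ this.le) (Ψm _ _ this.ge)

end Pool.Agent.H455Z.W
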