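import Mathlib
import Pool.Agent.H455Z.W8

set_option autoImplicit false
set_option maxHeartbeats 400000

open MeasureTheory Matrix Filter Topology
open Set hiding diagonal
open scoped ENNReal

namespace Pool.Agent.H455Z.W

lemma trib_mul_trib' {κ κ' K : Type} [Fintype κ] (r : ℝ) (x : κ → ℝ) (U : Matrix K κ ℝ)
    (w : κ' → ℝ) (Z : Matrix κ κ' ℝ) :
    trib r x U * trib 1 w Z = trib r (r • w + x ᵥ* Z) (U * Z) := by
  ext (_ | i) (_ | j) <;> simp [Matrix.mul_apply, Fintype.sum_option, dotProduct, vecMul]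

/-- power of a Gram determinant -/
noncomputable def FV {ι K : Type} [Fintype ι] [Fintype K] [DecidableEq K] (ν : ℝ)
    (V : Matrix ι K ℝ) (Y : Matrix ι ι ℝ) : ℝ≥0∞ := pw ν (Vᵀ * Y * V).det

@[fun_prop] lemma measurable_F {ι K : Type} [Fintype ι] [Fintype K] [DecidableEq K] (ν : ℝ)
    (V : Matrix ι K ℝ) : Measurable (FV ν V) :=
  (measurable_pw ν).comp (by fun_prop : Continuous fun Y : Matrix ι ι ℝ =>
    (Vᵀ * Y * V).det).measurable

variable {A R : Type} [Fintype A] [DecidableEq A] [Fintype R] [DecidableEq R]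

/-- coordinate rows -/
def U0 (A R : Type) [DecidableEq A] [DecidableEq R] : Matrix A (Option (A ⊕ R)) ℝ :=
  Matrix.of fun j o => ov 0 (Pi.single (Sum.inl j) 1 : A ⊕ R → ℝ) o

/-- the block that is peeled -/
def V0 (A R : Type) [DecidableEq A] [DecidableEq R] (σ τ : ℝ) :
    Matrix (Option (Option (A ⊕ R))) (Option A) ℝ := (trib σ (ov τ 0) (U0 A R))ᵀ

/-- the block after peeling -/
def V1 (A R : Type) [DecidableEq A] [DecidableEq R] : Matrix (Option (Option (A ⊕ R))) A ℝ :=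
  Matrix.of fun o j => ov 0 (U0 A R j) o

/-- projection away from the first block -/
def P0 (A R : Type) [DecidableEq A] [DecidableEq R] : Matrix (Option R) (Option (A ⊕ R)) ℝ :=
  (1 : Matrix (Option (A ⊕ R)) (Option (A ⊕ R)) ℝ).submatrix (Option.map Sum.inr) id

lemma P0_mulVec (y : Option (A ⊕ R) → ℝ) : P0 A R *ᵥ y = fun o => y (o.map Sum.inr) := by
  funext o
  simp [P0, mulVec, dotProduct, one_apply]

lemma P0_vecMul (η : Option R → ℝ) : P0 A R *ᵥ (η ᵥ* P0 A R) = η := by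
  funext o
  have : Function.Injective (Option.map (Sum.inr : R → A ⊕ R)) :=
    Option.map_injective Sum.inr_injective
  rw [P0_mulVec]
  simp [P0, vecMul, dotProduct, one_apply, this.eq_iff]

lemma conj_V1 (t t' : ℝ) (v : Option (A ⊕ R) → ℝ) (v' : A ⊕ R → ℝ)
    (X : Matrix (A ⊕ R) (A ⊕ R) ℝ) :
    (V1 A R)ᵀ * bord t v (bord t' v' X) * V1 A R = X.submatrix Sum.inl Sum.inl := by
  ext i j
  simp [V1, U0, Matrix.mul_apply, Fintype.sum_option, Pi.single_apply]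

lemma det_V0 {σ : ℝ} (hσ : σ ≠ 0) (τ : ℝ) {Z : Matrix (A ⊕ R) (A ⊕ R) ℝ} (hZ : Z.det ≠ 0)
    (h0 : ∀ i k, Z (Sum.inl i) (Sum.inr k) = 0) (w : A ⊕ R → ℝ) {s : ℝ} (hs : 0 < s)
    (w0 : Option (A ⊕ R) → ℝ) (s0 : ℝ) :
    ((V0 A R σ τ)ᵀ * bord (rad w0 s0) (trib (Real.sqrt s) w Z *ᵥ w0)
      (bord (rad w s) (Z *ᵥ w) (Z * Zᵀ)) * V0 A R σ τ).det =
      ((Z * Zᵀ).submatrix Sum.inl Sum.inl).det *
        (σ * σ * rad (P0 A R *ᵥ w0 + (τ / σ) • ov (Real.sqrt s) fun r => w (Sum.inr r)) s0) := by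
  have h1 : bord (rad w s) (Z *ᵥ w) (Z * Zᵀ) =
      trib (Real.sqrt s) w Z * (trib (Real.sqrt s) w Z)ᵀ := by
    rw [trib_mul, Real.mul_self_sqrt hs.le, rad]
  set y := σ • w0 + ov τ 0 ᵥ* trib (Real.sqrt s) w Z with hy
  set C := U0 A R * trib (Real.sqrt s) w Z with hC
  set Z1 := Z.submatrix (Sum.inl : A → A ⊕ R) (Sum.inl : A → A ⊕ R) with hZ1
  have h2 : (V0 A R σ τ)ᵀ * bord (rad w0 s0) (trib (Real.sqrt s) w Z *ᵥ w0)
      (bord (rad w s) (Z *ᵥ w) (Z * Zᵀ)) * V0 A R σ τ =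
      bord (rad y (σ * σ * s0)) (C *ᵥ y) (C * Cᵀ) := by
    rw [← bord_factor', ← trib_mul_trib', h1, rad, bord_factor, V0]
    simp only [transpose_mul, transpose_transpose, Matrix.mul_assoc]
  have c1 : ∀ j, C j none = 0 := fun j => by
    simp [hC, U0, Matrix.mul_apply, Fintype.sum_option]
  have c2 : ∀ j k, C j (some k) = Z (Sum.inl j) k := fun j k => by
    simp [hC, U0, Matrix.mul_apply, Fintype.sum_option, Pi.single_apply]
  have h3 : C * Cᵀ = Z1 * Z1ᵀ := by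
    ext i j
    simp [Matrix.mul_apply, Fintype.sum_option, c1, c2, h0, hZ1]
  have h4 : (Z * Zᵀ).submatrix Sum.inl Sum.inl = Z1 * Z1ᵀ := by
    ext i j
    simp [Matrix.mul_apply, h0, hZ1]
  have h5 : C *ᵥ y = Z1 *ᵥ fun a => y (some (Sum.inl a)) := by
    funext i
    simp [mulVec, dotProduct, Fintype.sum_option, c1, c2, h0, hZ1]
  have h6 : IsUnit Z1ᵀ.det := by
    rw [det_transpose]
    exact Ne.isUnit (det_ne_zero_of_factor
      ((posDef_mul_transpose hZ).submatrix (e := Sum.inl) Sum.inl_injective) h4.symm)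
  have h7 : P0 A R *ᵥ y =
      σ • (P0 A R *ᵥ w0 + (τ / σ) • ov (Real.sqrt s) fun r => w (Sum.inr r)) := by
    rw [smul_add, smul_smul, mul_div_cancel₀ _ hσ]
    funext o
    cases o <;> simp [P0_mulVec, hy, vecMul, dotProduct, Fintype.sum_option]
  rw [h2, det_bord_of C y (Z1ᵀ⁻¹ *ᵥ fun a => y (some (Sum.inl a))) _
    ((P0 A R *ᵥ y) ⬝ᵥ (P0 A R *ᵥ y)), h3, h4, h7, rad, smul_dotProduct, dotProduct_smul,
    smul_eq_mul, smul_eq_mul]
  · ring
  · rw [h3, h5, mulVec_mulVec, Matrix.mul_assoc, mul_nonsing_inv _ h6, Matrix.mul_one]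
  · rw [h5, dotProduct_mulVec (Z1ᵀ⁻¹ *ᵥ _), ← mulVec_transpose, mulVec_mulVec,
      mul_nonsing_inv _ h6, one_mulVec, P0_mulVec]
    simp only [dotProduct, Fintype.sum_option, Fintype.sum_sum_type, Option.map_none,
      Option.map_some]
    ring

lemma J_cmp (a : ℝ) (c₁ : ℝ≥0∞) {c₂ : ℝ≥0∞} (hc₂ : c₂ ≠ ∞)
    {F F' : Matrix (Option (Option (A ⊕ R))) (Option (Option (A ⊕ R))) ℝ → ℝ≥0∞}
    (hF : Measurable F) (hF' : Measurable F')
    (h : ∀ Z : Matrix (A ⊕ R) (A ⊕ R) ℝ, Z.det ≠ 0 → (∀ i k, Z (Sum.inl i) (Sum.inr k) = 0) →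
      c₁ * (Om (a + 3 / 2) fun p => Om (a + 1) fun q =>
        F (bord (rad q.1 q.2) (trib (Real.sqrt p.2) p.1 Z *ᵥ q.1)
          (bord (rad p.1 p.2) (Z *ᵥ p.1) (Z * Zᵀ)))) ≤
      c₂ * (Om (a + 3 / 2) fun p => Om (a + 1) fun q =>
        F' (bord (rad q.1 q.2) (trib (Real.sqrt p.2) p.1 Z *ᵥ q.1)
          (bord (rad p.1 p.2) (Z *ᵥ p.1) (Z * Zᵀ))))) :
    c₁ * EW _ a F ≤ c₂ * EW _ a F' := by
  rw [EW_option a hF, EW_option a hF', J_split _ (measurable_inner a hF),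
    J_split _ (measurable_inner a hF'), J, J, ← lintegral_const_mul' _ _ hc₂]
  refine (lintegral_const_mul_le _ _).trans (lintegral_mono fun x => ?_)
  dsimp only
  by_cases hx : (symMat x).PosDef
  · obtain ⟨Z, hZ, h0⟩ := exists_block_factor hx
    have hd := det_ne_zero_of_factor hx hZ
    rw [← hZ, inner2_eq a hF hd, inner2_eq a hF' hd, mul_left_comm, mul_left_comm c₂]
    exact mul_le_mul_right (h Z hd h0) _
  · simp [inner_of_not a F fun h => hx (posDef_of_bord h)]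

omit [DecidableEq A] in
lemma KI_sub {b : ℝ} (hb : 0 < b) {φ : ℝ → ℝ} (hc : Continuous φ)
    (hm : Monotone φ) (h0 : ∀ x, 0 ≤ φ x) (hb' : ∃ C : ℝ, ∀ x, 0 < x → φ x ≤ C * Real.exp (x / 8))
    {B : Type} (T : Finset B) (D : B → (A ⊕ R → ℝ) → ℝ → ℝ) (ν : B → ℝ)
    (hν : ∀ i ∈ T, 0 ≤ ν i) (hm' : ∀ i, Measurable fun p : (A ⊕ R → ℝ) × ℝ => D i p.1 p.2)
    (hD : ∀ x, ∀ i ∈ T, QF (A ⊕ R) b fun u s => D i (Sum.elim x u) s) :
    One (Fintype.card R / 2 + b) (fun x => ENNReal.ofReal (φ x)) *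
        Om b (fun p => ∏ i ∈ T, pw (ν i) (D i p.1 p.2)) ≤
      One (Fintype.card R / 2 + b) 1 *
        Om b (fun p => ENNReal.ofReal (φ (rad (fun r => p.1 (Sum.inr r)) p.2)) *
          ∏ i ∈ T, pw (ν i) (D i p.1 p.2)) := by
  have hN0 : 0 < Fintype.card R / 2 + b := by positivity
  have hφ := hc.measurable
  have m1 : Measurable fun p : (A ⊕ R → ℝ) × ℝ => ∏ i ∈ T, pw (ν i) (D i p.1 p.2) :=
    Finset.measurable_prod _ fun i _ => (measurable_pw _).comp (hm' i)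
  rw [Om_sum _ _ m1, Om_sum _ _ (by fun_prop), ← lintegral_const_mul' _ _ (One_ne_top hN0)]
  refine (lintegral_const_mul_le _ _).trans (lintegral_mono fun x => ?_)
  dsimp only
  rw [mul_left_comm, mul_left_comm (One _ 1)]
  refine mul_le_mul_right ?_ _
  have e : ∀ p : (R → ℝ) × ℝ, 0 < p.2 → ∏ i ∈ T, pw (ν i) (D i (Sum.elim x p.1) p.2) =
      ENNReal.ofReal (∏ i ∈ T, D i (Sum.elim x p.1) p.2 ^ ν i) := fun p hp => by
    rw [ENNReal.ofReal_prod_of_nonneg fun i hi => ?_]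
    · rfl
    obtain ⟨β, e, c, L, h1, h2, -, -, -, h3⟩ := hD x i hi
    have := h3 p.1 p.2 hp
    dsimp only at this
    rw [this]
    exact Real.rpow_nonneg (add_nonneg (mul_nonneg h1 (add_nonneg (dot_self_nonneg _) hp.le)) h2) _
  rw [Om_congr b e]
  refine (RC_sub hb hc hm h0 hb' T (fun i u s => D i (Sum.elim x u) s) ν hν (hD x)).trans
    (le_of_eq ?_)
  congr 1
  exact Om_congr b fun p hp => by rw [e p hp]; rfl

omit [DecidableEq A] [DecidableEq R] in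
lemma KI_ray {b : ℝ} (hb : 0 < b) {φ : ℝ → ℝ} (hm : Monotone φ) {β ν : ℝ} (hβ : 0 ≤ β)
    (hν : 0 ≤ ν) (Q : Matrix (A ⊕ R) (A ⊕ R) ℝ) :
    One (Fintype.card R / 2 + b) (fun x => ENNReal.ofReal (φ x)) *
        Om b (fun p => pw ν (β * rad (Q *ᵥ p.1) p.2)) ≤
      One (Fintype.card R / 2 + b) 1 *
        Om b (fun p => ENNReal.ofReal (φ (rad (fun r => p.1 (Sum.inr r)) p.2)) *
          pw ν (β * rad (Q *ᵥ p.1) p.2)) := by
  have hφ := hm.measurable
  have m0 : Measurable fun p : (A ⊕ R → ℝ) × ℝ => Q *ᵥ p.1 :=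
    (by fun_prop : Continuous _).measurable
  have hc : Continuous fun z : ((R → ℝ) × ℝ) × (A → ℝ) => Sum.elim z.2 z.1.1 :=
    continuous_pi fun k => by cases k <;> simp <;> fun_prop
  have m1 : Measurable fun z : ((R → ℝ) × ℝ) × (A → ℝ) => Q *ᵥ Sum.elim z.2 z.1.1 :=
    (by fun_prop : Continuous _).measurable
  have m2 : Measurable fun z : ((R → ℝ) × ℝ) × (A → ℝ) =>
      gam (z.2 ⬝ᵥ z.2) * pw ν (β * rad (Q *ᵥ Sum.elim z.2 z.1.1) z.1.2) := by fun_prop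
  rw [Om_sum' _ _ (by fun_prop), Om_sum' _ _ (by fun_prop)]
  refine (RC_ray hb (fun x => ENNReal.ofReal (φ x))
    (fun x y h => ENNReal.ofReal_le_ofReal (hm h)) _ m2.lintegral_prod_right'
    fun p τ τ' hp hτ hτ' => ?_).trans (le_of_eq ?_)
  · have e : ∀ (x : A → ℝ) (t : ℝ), Q *ᵥ Sum.elim x (t • p.1) =
        Q.submatrix id Sum.inl *ᵥ x + t • (Q *ᵥ Sum.elim 0 p.1) := fun x t => by
      funext k
      simp [mulVec, dotProduct, Finset.mul_sum, mul_left_comm]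
    simp only [dil, e, rad]
    refine le_trans (lintegral_mono fun x => mul_le_mul_right (pw_mono hν (mul_nonneg hβ
      (add_nonneg (dot_self_nonneg _) (by positivity))) ?_) _)
      (anderson _ _ (fun y => pw ν (β * (y + τ' * p.2))) (by fun_prop) (fun x y hx hxy =>
        pw_mono hν (mul_nonneg hβ (add_nonneg hx (mul_nonneg (hτ.le.trans hτ') hp.le)))
          (by gcongr)) (t := Real.sqrt τ) ?_)
    · gcongr
    · rwa [Real.mul_self_sqrt hτ.le, Real.mul_self_sqrt (hτ.le.trans hτ')]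
  · congr 1
    refine Om_congr b fun p _ => ?_
    rw [← lintegral_const_mul' _ _ ENNReal.ofReal_ne_top]
    refine lintegral_congr fun x => ?_
    simp only [Sum.elim_inr]
    ring

omit [DecidableEq A] [DecidableEq R] in
lemma KI_const (b : ℝ) {φ : ℝ → ℝ} (h : ∀ x, φ x = φ 0) (G : (A ⊕ R → ℝ) × ℝ → ℝ≥0∞) :
    One (Fintype.card R / 2 + b) (fun x => ENNReal.ofReal (φ x)) * Om b G ≤
      One (Fintype.card R / 2 + b) 1 *
        Om b (fun p => ENNReal.ofReal (φ (rad (fun r => p.1 (Sum.inr r)) p.2)) * G p) := by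
  obtain ⟨k, rfl⟩ : ∃ k, φ = fun _ => k := ⟨φ 0, funext h⟩
  rw [Om_const_mul _ ENNReal.ofReal_ne_top, ← mul_assoc, One, One,
    ← lintegral_mul_const' _ _ ENNReal.ofReal_ne_top]
  simp

lemma One_phi_ne_top {b : ℝ} (hb : 0 < b) {φ : ℝ → ℝ} (hc : Continuous φ)
    (hm : Monotone φ) (h0 : ∀ x, 0 ≤ φ x)
    (hb' : ∃ C : ℝ, ∀ x, 0 < x → φ x ≤ C * Real.exp (x / 8)) :
    One (Fintype.card R / 2 + b) (fun x => ENNReal.ofReal (φ x)) ≠ ∞ := by
  have hN0 : 0 < Fintype.card R / 2 + b := by positivity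
  have hφ := hc.measurable
  have h1 := (RC_adm (R := R) hb hc hm h0 hb' (Adm.zero b)).2
  simp only [Real.exp_zero, mul_one] at h1
  have h2 := RC_eq (R := R) b (fun x => ENNReal.ofReal (φ x)) (by fun_prop)
  intro h
  rw [h, ENNReal.top_mul (Om_one_ne_zero b)] at h2
  exact ENNReal.mul_ne_top (One_ne_top hN0) h1 h2

omit [DecidableEq A] [DecidableEq R] in
lemma KI_eq {b : ℝ} (hb : 0 < b) {φ : ℝ → ℝ≥0∞} (hφ : Measurable φ)
    (h : One (Fintype.card R / 2 + b) φ ≠ ∞) :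
    One (Fintype.card R / 2 + b) 1 *
        Om (R := A ⊕ R) b (fun p => φ (rad (fun r => p.1 (Sum.inr r)) p.2)) =
      One (Fintype.card R / 2 + b) φ * Om (R := A ⊕ R) b 1 := by
  have hN0 : 0 < Fintype.card R / 2 + b := by positivity
  rw [Om_sum _ _ (by fun_prop), Om_sum _ 1 measurable_const,
    ← lintegral_const_mul' _ _ (One_ne_top hN0), ← lintegral_const_mul' _ _ h]
  refine lintegral_congr fun x => ?_
  rw [mul_left_comm, mul_left_comm (One _ φ)]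
  congr 1
  exact RC_eq b φ hφ

theorem peel {B : Type} {K : B → Type} [∀ i, Fintype (K i)] [∀ i, DecidableEq (K i)] {a : ℝ}
    (ha : -1 < a) {σ : ℝ} (hσ : σ ≠ 0) (τ : ℝ) {ν₀ : ℝ} (hν₀ : 0 ≤ ν₀) (T : Finset B) (ν : B → ℝ)
    (hν : ∀ i, 0 ≤ ν i) (V : ∀ i, Matrix (Option (Option (A ⊕ R))) (K i) ℝ)
    (hV0 : ∀ i ∈ T, ∀ k, V i none k = 0) (hV : ∀ i ∈ T, ∀ x, V i *ᵥ x = 0 → x = 0)
    (hcase : τ = 0 ∨ (∀ i ∈ T, Fintype.card (K i) ≤ Fintype.card R) ∨
      ∃ i₁ ∈ T, (∀ i ∈ T, i ≠ i₁ → IsEmpty (K i)) ∧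
        ∃ ξ, V i₁ *ᵥ ξ = Pi.single (some none) 1) :
    ∃ c₁ c₂ : ℝ≥0∞, c₂ ≠ 0 ∧ c₂ ≠ ∞ ∧
      c₁ * EW _ a (fun Y => FV ν₀ (V1 A R) Y * ∏ i ∈ T, FV (ν i) (V i) Y) ≤
        c₂ * EW _ a (fun Y => FV ν₀ (V0 A R σ τ) Y * ∏ i ∈ T, FV (ν i) (V i) Y) ∧
      c₂ * EW _ a (FV ν₀ (V0 A R σ τ)) ≤ c₁ * EW _ a (FV ν₀ (V1 A R)) := by
  have hb : 0 < a + 3 / 2 := by linarith
  have hb0 : 0 < a + 1 := by linarith
  have hN0 : 0 < Fintype.card R / 2 + (a + 3 / 2) := by positivity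
  obtain ⟨φ, hc, hm, h0, hb', hk, hφ⟩ := exists_phi (none : Option R) (P0 A R) P0_vecMul hb0 hν₀
    (mul_self_nonneg σ) (τ / σ)
  have hφm := hc.measurable
  have c1 := One_phi_ne_top (R := R) hb hc hm h0 hb'
  have c2 : One (Fintype.card R / 2 + (a + 3 / 2)) 1 * Om (R := Option (A ⊕ R)) (a + 1) 1 ≠ ∞ :=
    ENNReal.mul_ne_top (One_ne_top hN0) (Om_one_ne_top hb0)
  have mG : Measurable fun Y => ∏ i ∈ T, FV (ν i) (V i) Y :=
    Finset.measurable_prod _ fun i _ => measurable_F _ _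
  have key : ∀ Z : Matrix (A ⊕ R) (A ⊕ R) ℝ, Z.det ≠ 0 → (∀ i k, Z (Sum.inl i) (Sum.inr k) = 0) →
      ∀ p : (A ⊕ R → ℝ) × ℝ, 0 < p.2 → ∀ c : ℝ≥0∞, c ≠ ∞ →
      (Om (a + 1) fun q => pw ν₀ ((V0 A R σ τ)ᵀ * bord (rad q.1 q.2)
        (trib (Real.sqrt p.2) p.1 Z *ᵥ q.1) (bord (rad p.1 p.2) (Z *ᵥ p.1) (Z * Zᵀ)) *
          V0 A R σ τ).det * c) = pw ν₀ ((Z * Zᵀ).submatrix Sum.inl Sum.inl).det *
            (ENNReal.ofReal (φ (rad (fun r => p.1 (Sum.inr r)) p.2)) * c) := by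
    intro Z hZ hz p hp c hc
    have e1 : rad (fun r => p.1 (Sum.inr r)) p.2 = (ov (Real.sqrt p.2) fun r => p.1 (Sum.inr r)) ⬝ᵥ
        ov (Real.sqrt p.2) fun r => p.1 (Sum.inr r) := by
      simp [rad, dotProduct, Fintype.sum_option, Real.mul_self_sqrt hp.le, add_comm]
    rw [e1, ← hφ, mul_comm _ c, ← Om_const_mul _ hc, ← Om_const_mul _ (pw_ne_top _ _)]
    refine Om_congr _ fun q hq => ?_
    rw [det_V0 hσ τ hZ hz _ hp, pw_mul' _
      ((posDef_mul_transpose hZ).submatrix (e := Sum.inl) Sum.inl_injective).det_pos.le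
      (mul_nonneg (mul_self_nonneg σ) (rad_pos _ hq).le)]
    ring
  refine ⟨_, _, mul_ne_zero (One_ne_zero _) (Om_one_ne_zero _), c2,
    J_cmp a (One (Fintype.card R / 2 + (a + 3 / 2)) fun x => ENNReal.ofReal (φ x)) c2
      ((measurable_F _ _).mul mG) ((measurable_F _ _).mul mG) fun Z hZ hz => ?_,
    J_cmp a _ c1 (measurable_F _ _) (measurable_F _ _) fun Z hZ hz => ?_⟩
  · let D : B → (A ⊕ R → ℝ) → ℝ → ℝ := fun i w s => (((V i).submatrix some id)ᵀ *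
      bord (rad w s) (Z *ᵥ w) (Z * Zᵀ) * (V i).submatrix some id).det
    have e : ∀ t v (p : (A ⊕ R → ℝ) × ℝ), ∏ i ∈ T, pw (ν i) ((V i)ᵀ *
        bord t v (bord (rad p.1 p.2) (Z *ᵥ p.1) (Z * Zᵀ)) * V i).det =
        ∏ i ∈ T, pw (ν i) (D i p.1 p.2) := fun t v p =>
      Finset.prod_congr rfl fun i hi => by rw [conj_bord_zero _ (hV0 i hi)]
    have hV' : ∀ i ∈ T, ∀ x, (V i).submatrix some id *ᵥ x = 0 → x = 0 := fun i hi x hx =>
      hV i hi x (by
        funext o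
        cases o with
        | none => simp [mulVec, dotProduct, hV0 i hi]
        | some o => exact congrFun hx o)
    simp only [FV, e, conj_V1, Om_const]
    rw [Om_congr _ fun p hp => key Z hZ hz p hp _ (ENNReal.prod_ne_top fun i _ => pw_ne_top _ _),
      Om_const_mul _ (Om_one_ne_top hb0), Om_const_mul _ (pw_ne_top _ _),
      Om_const_mul _ (pw_ne_top _ _)]
    suffices h : One (Fintype.card R / 2 + (a + 3 / 2)) (fun x => ENNReal.ofReal (φ x)) *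
        Om (a + 3 / 2) (fun p => ∏ i ∈ T, pw (ν i) (D i p.1 p.2)) ≤
        One (Fintype.card R / 2 + (a + 3 / 2)) 1 *
          Om (a + 3 / 2) (fun p => ENNReal.ofReal (φ (rad (fun r => p.1 (Sum.inr r)) p.2)) *
            ∏ i ∈ T, pw (ν i) (D i p.1 p.2)) by
      calc _ = Om (R := Option (A ⊕ R)) (a + 1) 1 *
            pw ν₀ ((Z * Zᵀ).submatrix Sum.inl Sum.inl).det * _ := by ring
        _ ≤ Om (R := Option (A ⊕ R)) (a + 1) 1 *
            pw ν₀ ((Z * Zᵀ).submatrix Sum.inl Sum.inl).det * _ := mul_le_mul_right h _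
        _ = _ := by ring
    rcases hcase with h | h | ⟨i₁, hi₁, h, ξ, hξ⟩
    · exact KI_const _ (hk (by simp [h])) _
    · refine KI_sub hb hc hm h0 hb' T D ν (fun i _ => hν i) (fun i => ?_) fun x i hi =>
        qf_block _ (hV' i hi) hZ (h i hi) (by linarith) x
      refine Continuous.measurable ?_
      simp only [D, rad]
      fun_prop
    · obtain ⟨β, Q, hβ, -, -, -, q⟩ := normal_form _ (hV' i₁ hi₁) hZ ξ (by
        have := congrFun hξ (some none)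
        rw [Pi.single_eq_same] at this
        exact this)
      have e2 : (fun k => ((V i₁).submatrix some id *ᵥ ξ) (some k)) = 0 := by
        funext k
        have := congrFun hξ (some (some k))
        rw [Pi.single_eq_of_ne (by simp)] at this
        exact this
      have e3 : ∀ p : (A ⊕ R → ℝ) × ℝ, ∏ i ∈ T, pw (ν i) (D i p.1 p.2) =
          pw (ν i₁) (β * rad (Q *ᵥ p.1) p.2) := fun p => by
        rw [Finset.prod_eq_single_of_mem i₁ hi₁ fun i hi hne => by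
          have := h i hi hne
          simp [D, pw]]
        simp only [D]
        rw [q, e2, zero_vecMul, add_zero]
      simp only [e3]
      exact KI_ray hb hm hβ (hν i₁) Q
  · have key' := fun p hp => key Z hZ hz p hp 1 ENNReal.one_ne_top
    simp only [mul_one] at key'
    simp only [FV, conj_V1, Om_const]
    rw [Om_congr _ key', Om_const_mul _ (pw_ne_top _ _)]
    have h := KI_eq (A := A) hb (φ := fun x => ENNReal.ofReal (φ x)) (by fun_prop) c1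
    have h2 := congrArg (Om (R := Option (A ⊕ R)) (a + 1) 1 *
      pw ν₀ ((Z * Zᵀ).submatrix Sum.inl Sum.inl).det * ·) h
    exact le_of_eq (Eq.trans (by ring) (h2.trans (by ring)))

end Pool.Agent.H455Z.W
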