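import Mathlib
import Pool.Agent.H455Z.W9

set_option autoImplicit false
set_option maxHeartbeats 400000

open MeasureTheory Matrix Filter Topology
open Set hiding diagonal
open scoped ENNReal

namespace Pool.Agent.H455Z.W

variable {ι : Type} [Fintype ι] [DecidableEq ι]

omit [DecidableEq ι] in
lemma exists_proj (U : Submodule ℝ (ι → ℝ)) :
    ∃ P : Matrix ι ι ℝ, Pᵀ = P ∧ (∀ x ∈ U, P *ᵥ x = x) ∧ ∀ x, P *ᵥ x ∈ U := by
  let b := Module.finBasis ℝ U
  let C : Matrix (Fin (Module.finrank ℝ U)) ι ℝ := Matrix.of fun j i => (b j : ι → ℝ) i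
  have h1 : ∀ y, Cᵀ *ᵥ y = ((∑ j, y j • b j : U) : ι → ℝ) := fun y => by
    funext i
    simp [C, mulVec, dotProduct, mul_comm]
  have hu : IsUnit (C * Cᵀ).det := Ne.isUnit (gram_det C fun y hy => by
    rw [← mulVec_transpose, h1] at hy
    have h2 : (∑ j, y j • b j : U) = 0 := Subtype.ext hy
    funext j
    exact Fintype.linearIndependent_iff.1 b.linearIndependent y h2 j)
  refine ⟨Cᵀ * (C * Cᵀ)⁻¹ * C, ?_, fun x hx => ?_, fun x => ?_⟩
  · simp only [transpose_mul, transpose_transpose, transpose_nonsing_inv, Matrix.mul_assoc]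
  · have : x = Cᵀ *ᵥ (b.repr ⟨x, hx⟩) := by rw [h1, b.sum_repr]
    rw [this, mulVec_mulVec, Matrix.mul_assoc, Matrix.mul_assoc, nonsing_inv_mul _ hu,
      Matrix.mul_one]
  · rw [← mulVec_mulVec, ← mulVec_mulVec, h1]
    exact Subtype.property _

omit [DecidableEq ι] in
lemma exists_orth_ext {ι' : Type} [Fintype ι'] [DecidableEq ι']
    (hc : Fintype.card ι' = Fintype.card ι) (v : ι' → ι → ℝ) (s : Set ι')
    (h : ∀ i ∈ s, ∀ j ∈ s, v i ⬝ᵥ v j = if i = j then 1 else 0) :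
    ∃ O : Matrix ι ι' ℝ, Oᵀ * O = 1 ∧ ∀ j ∈ s, ∀ i, O i j = v j i := by
  classical
  obtain ⟨b, hb⟩ := Orthonormal.exists_orthonormalBasis_extension_of_card_eq (𝕜 := ℝ)
    (E := EuclideanSpace ℝ ι) (by simp [hc]) (v := fun j => WithLp.toLp 2 (v j)) (s := s) (by
      rw [orthonormal_iff_ite]
      rintro ⟨i, hi⟩ ⟨j, hj⟩
      have := h j hj i hi
      simp only [Set.domRestrict_apply, EuclideanSpace.inner_toLp_toLp, star_trivial, this,
        Subtype.mk.injEq, eq_comm])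
  refine ⟨Matrix.of fun i j => b j i, ?_, fun j hj i => by simp [hb j hj]⟩
  ext j k
  have := orthonormal_iff_ite.1 b.orthonormal j k
  rw [EuclideanSpace.inner_eq_star_dotProduct, star_trivial, dotProduct_comm] at this
  rw [one_apply, ← this]
  rfl

lemma exists_frame {K A R : Type} [Fintype K] [DecidableEq K] [Fintype A] [DecidableEq A]
    [Fintype R] [DecidableEq R] (e : Option A ≃ K)
    (hc : Fintype.card (Option (Option (A ⊕ R))) = Fintype.card ι) (V : Matrix ι K ℝ)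
    (hV : ∀ x, V *ᵥ x = 0 → x = 0) (U : Submodule ℝ (ι → ℝ))
    (hU : Disjoint (LinearMap.range V.mulVecLin) U) :
    ∃ (O : Matrix ι (Option (Option (A ⊕ R))) ℝ) (g : Matrix K (Option A) ℝ) (σ τ : ℝ),
      Oᵀ * O = 1 ∧ σ ≠ 0 ∧ (∀ x, g *ᵥ x = 0 → x = 0) ∧ V * g = O * V0 A R σ τ ∧
      (∀ x ∈ U, (Oᵀ *ᵥ x) none = 0) ∧ (τ = 0 ∨ O *ᵥ Pi.single (some none) 1 ∈ U) := by
  obtain ⟨P, p1, p2, p3⟩ := exists_proj U
  have h1 : (Vᵀ * V).PosSemidef := by simpa using posSemidef_conjTranspose_mul_self V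
  obtain ⟨Z, hZ⟩ := exists_factor h1
  have hu : IsUnit Z.det := Ne.isUnit fun h => by
    have := gram_det Vᵀ fun y hy => hV y (by rwa [vecMul_transpose] at hy)
    rw [transpose_transpose, ← hZ, det_mul, h, zero_mul] at this
    exact this rfl
  obtain ⟨O₁, l, o1, o2⟩ := exists_diag ((V * Z⁻¹ᵀ)ᵀ * P * (V * Z⁻¹ᵀ)) (by
    simp only [transpose_mul, transpose_transpose, p1, Matrix.mul_assoc])
  set V₂ := V * (Z⁻¹ᵀ * O₁) with hV₂
  have h2 : V₂ᵀ * V₂ = 1 := by
    calc _ = O₁ᵀ * (Z⁻¹ * (Vᵀ * V) * Z⁻¹ᵀ) * O₁ := by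
          simp only [hV₂, transpose_mul, transpose_transpose, Matrix.mul_assoc]
      _ = _ := by
          rw [← hZ, ← Matrix.mul_assoc Z⁻¹, nonsing_inv_mul _ hu, Matrix.one_mul, ← transpose_mul,
            nonsing_inv_mul _ hu, transpose_one, Matrix.mul_one, o1]
  have h3 : V₂ᵀ * P * V₂ = diagonal l := by
    rw [← o2]
    simp only [hV₂, transpose_mul, transpose_transpose, Matrix.mul_assoc]
  let col : Option A → ι → ℝ := fun o i => V₂ i (e o)
  have c1 : ∀ o o', col o ⬝ᵥ col o' = if o = o' then 1 else 0 := fun o o' => by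
    have := congrFun (congrFun h2 (e o)) (e o')
    rw [one_apply] at this
    simp only [e.apply_eq_iff_eq] at this
    exact this
  have c2 : ∀ j, col (some j) ⬝ᵥ (P *ᵥ col none) = 0 := fun j => by
    have := congrFun (congrFun h3 (e (some j))) (e none)
    rw [diagonal_apply_ne _ (by simp), Matrix.mul_assoc] at this
    exact this
  have hs : ∀ x y, x ⬝ᵥ (P *ᵥ y) = (P *ᵥ x) ⬝ᵥ y := fun x y => by
    rw [dotProduct_mulVec, ← mulVec_transpose, p1]
  set y := P *ᵥ col none with hy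
  set z := col none - y with hz
  have z0 : ∀ x ∈ U, x ⬝ᵥ z = 0 := fun x hx => by
    rw [hz, dotProduct_sub, hy, hs, p2 x hx, sub_self]
  have z1 : ∀ j, col (some j) ⬝ᵥ z = 0 := fun j => by
    rw [hz, dotProduct_sub, c2, c1]
    simp
  have z2 : 0 < z ⬝ᵥ z := by
    refine lt_of_le_of_ne (dot_self_nonneg z) fun h => ?_
    have h4 : col none = y := sub_eq_zero.1 (dotProduct_self_eq_zero.1 h.symm)
    have h5 : col none = 0 := Submodule.disjoint_def.1 hU _
      ⟨(Z⁻¹ᵀ * O₁) *ᵥ Pi.single (e none) 1, by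
        rw [mulVecLin_apply, mulVec_mulVec, ← hV₂]
        funext i
        simp [col]⟩ (h4 ▸ p3 _)
    have := c1 none none
    rw [h5] at this
    simp at this
  set σ := Real.sqrt (z ⬝ᵥ z)
  set τ := Real.sqrt (y ⬝ᵥ y)
  have hσ : σ ≠ 0 := (Real.sqrt_pos.2 z2).ne'
  have hσ2 : z ⬝ᵥ z = σ * σ := (Real.mul_self_sqrt z2.le).symm
  have hτ2 : y ⬝ᵥ y = τ * τ := (Real.mul_self_sqrt (dot_self_nonneg y)).symm
  have yz : y ⬝ᵥ z = 0 := z0 y (p3 _)
  obtain ⟨O, hO, hv⟩ := exists_orth_ext hc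
    (fun o => o.elim (σ⁻¹ • z) fun o => o.elim (τ⁻¹ • y) (Sum.elim (fun j => col (some j)) 0))
    {o | o.elim True fun o => o.elim (τ ≠ 0) (Sum.elim (fun _ => True) fun _ => False)} (by
      rintro (_ | _ | i | i) hi (_ | _ | j | j) hj
      all_goals first | exact hi.elim | exact hj.elim | skip
      · simp [hσ2, hσ]
      · simp [dotProduct_comm z, yz]
      · simp [dotProduct_comm z, z1]
      · simp [yz]
      · have : τ ≠ 0 := hi
        simp [hτ2, this]
      · simp [dotProduct_comm y, c2]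
      · simp [z1]
      · simp [c2]
      · simp [c1])
  have v0 : ∀ i, O i none = σ⁻¹ * z i := hv none trivial
  have v2 : ∀ j i, O i (some (some (Sum.inl j))) = col (some j) i := fun j =>
    hv (some (some (Sum.inl j))) trivial
  have v1 : ∀ i, τ * O i (some none) = y i := fun i => by
    by_cases h : τ = 0
    · rw [h, mul_zero, dotProduct_self_eq_zero] at hτ2
      rw [h, hτ2, zero_mul]
      rfl
    · rw [hv (some none) h]
      exact mul_inv_cancel_left₀ h _
  refine ⟨O, (Z⁻¹ᵀ * O₁).submatrix id e, σ, τ, hO, hσ, fun x hx => ?_, ?_, fun x hx => ?_, ?_⟩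
  · rw [submatrix_mulVec_equiv] at hx
    have h4 : V₂ *ᵥ (x ∘ e.symm) = 0 := by
      rw [hV₂, ← mulVec_mulVec]
      exact (congrArg (V *ᵥ ·) hx).trans (mulVec_zero _)
    have h5 := congrArg (V₂ᵀ *ᵥ ·) h4
    simp only [mulVec_mulVec, h2, one_mulVec, mulVec_zero] at h5
    funext o
    simpa using congrFun h5 (e o)
  · ext i o
    show col o i = _
    cases o with
    | none =>
      simp only [V0, Matrix.mul_apply, Fintype.sum_option, transpose_apply, trib_nn, trib_ns,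
        ov_none, ov_some, Pi.zero_apply, mul_zero, Finset.sum_const_zero, add_zero, v0]
      rw [mul_comm _ τ, v1, mul_right_comm, inv_mul_cancel₀ hσ, one_mul, hz]
      simp
    | some j => simp [V0, U0, Matrix.mul_apply, Fintype.sum_option, Pi.single_apply, v2]
  · have : (Oᵀ *ᵥ x) none = σ⁻¹ * (x ⬝ᵥ z) := by
      simp only [mulVec, dotProduct, transpose_apply, v0, Finset.mul_sum]
      exact Finset.sum_congr rfl fun _ _ => by ring
    rw [this, z0 x hx, mul_zero]
  · by_cases h : τ = 0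
    · exact Or.inl h
    · refine Or.inr ?_
      have : O *ᵥ Pi.single (some none) 1 = τ⁻¹ • y := by
        funext i
        simp [← v1 i, h]
      rw [this]
      exact U.smul_mem _ (p3 _)

lemma EW_congr (a : ℝ) {F F' : Matrix ι ι ℝ → ℝ≥0∞} (h : ∀ Y, Y.PosDef → F Y = F' Y) :
    EW ι a F = EW ι a F' := by
  refine lintegral_congr fun x => ?_
  by_cases hx : (symMat x).PosDef
  · simp only [h _ hx]
  · simp only [wtM_of_not a hx, zero_mul]

lemma EW_const_mul (a : ℝ) {c : ℝ≥0∞} (hc : c ≠ ∞) (F : Matrix ι ι ℝ → ℝ≥0∞) :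
    EW ι a (fun Y => c * F Y) = c * EW ι a F := by
  rw [EW, EW, J, J, ← lintegral_const_mul' _ _ hc]
  exact lintegral_congr fun x => by ring

/-- a block of columns -/
abbrev Blk (ι : Type) := Σ n : ℕ, Matrix ι (Fin n) ℝ

/-- column space -/
def rng (w : Blk ι) : Submodule ℝ (ι → ℝ) := LinearMap.range w.2.mulVecLin

omit [DecidableEq ι] in
lemma FV_empty (ν : ℝ) (w : Blk ι) (h : w.1 = 0) (Y : Matrix ι ι ℝ) : FV ν w.2 Y = 1 := by
  obtain ⟨n, V⟩ := w
  obtain rfl : n = 0 := h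
  simp [FV, pw]

omit [DecidableEq ι] in
lemma FV_conj {ι' K : Type} [Fintype ι'] [Fintype K] [DecidableEq K] (ν : ℝ) (V : Matrix ι K ℝ)
    (O : Matrix ι ι' ℝ) (Y : Matrix ι' ι' ℝ) : FV ν V (O * Y * Oᵀ) = FV ν (Oᵀ * V) Y := by
  simp only [FV, transpose_mul, transpose_transpose, Matrix.mul_assoc]

omit [DecidableEq ι] [Fintype ι] in
lemma finrank_rng (w : Blk ι) (h : ∀ x, w.2 *ᵥ x = 0 → x = 0) :
    Module.finrank ℝ (rng w) = w.1 := by
  rw [rng, LinearMap.finrank_range_of_inj ((injective_iff_map_eq_zero _).2 h)]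
  simp

theorem main_ineq {B : Type} [Fintype B] {a : ℝ} (ha : -1 < a) (ν : B → ℝ) (hν : ∀ i, 0 ≤ ν i)
    (N : ℕ) : ∀ W : B → Blk ι, ∑ i, (W i).1 = N → (∀ i x, (W i).2 *ᵥ x = 0 → x = 0) →
      iSupIndep (fun i => rng (W i)) →
      ∏ i, ((EW ι a 1)⁻¹ * EW ι a (FV (ν i) (W i).2)) ≤
        (EW ι a 1)⁻¹ * EW ι a fun Y => ∏ i, FV (ν i) (W i).2 Y := by
  classical
  obtain ⟨e0, e1⟩ := EW_one ι a ha
  have e2 : ∀ i (w : Blk ι), w.1 = 0 → (EW ι a 1)⁻¹ * EW ι a (FV (ν i) w.2) = 1 := fun i w h => by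
    rw [show FV (ν i) w.2 = 1 from funext (FV_empty _ w h), ENNReal.inv_mul_cancel e0 e1]
  induction N using Nat.strong_induction_on with
  | _ N ih =>
  intro W hN hW hI
  by_cases h0 : ∀ i, (W i).1 = 0
  · simp only [fun i => e2 i _ (h0 i), fun i => FV_empty (ν i) _ (h0 i), Finset.prod_const_one]
    exact (ENNReal.inv_mul_cancel e0 e1).ge
  push Not at h0
  obtain ⟨i₀, h0⟩ := h0
  by_cases h1 : ∀ i, i ≠ i₀ → (W i).1 = 0
  · rw [Finset.prod_eq_single i₀ (fun i _ hi => e2 i _ (h1 i hi)) (by simp)]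
    refine le_of_eq ?_
    congr 2
    funext Y
    rw [Finset.prod_eq_single i₀ (fun i _ hi => FV_empty _ _ (h1 i hi) Y) (by simp)]
  push Not at h1
  obtain ⟨i₂, hi₂, h1⟩ := h1
  have hp : ∀ i, i ≠ i₀ → (W i₀).1 + (W i).1 ≤ Fintype.card ι := fun i hi => by
    have := Submodule.finrank_add_finrank_le_of_disjoint (hI.pairwiseDisjoint hi.symm)
    rwa [finrank_rng _ (hW _), finrank_rng _ (hW _), Module.finrank_fintype_fun_eq_card] at this
  have hp2 := hp i₂ hi₂
  let A := Fin ((W i₀).1 - 1)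
  let R := Fin (Fintype.card ι - (W i₀).1 - 1)
  have hA : Fintype.card (Option A) = Fintype.card (Fin (W i₀).1) := by
    simp only [A, Fintype.card_option, Fintype.card_fin]
    omega
  have hc : Fintype.card (Option (Option (A ⊕ R))) = Fintype.card ι := by
    simp only [A, R, Fintype.card_option, Fintype.card_fin, Fintype.card_sum]
    omega
  set U := ⨆ (j) (_ : j ≠ i₀), rng (W j) with hU
  have hle : ∀ i, i ≠ i₀ → rng (W i) ≤ U := fun i hi =>
    le_iSup₂_of_le (f := fun j (_ : j ≠ i₀) => rng (W j)) i hi le_rfl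
  obtain ⟨O, g, σ, τ, hO, hσ, hg, hVg, hU0, hU1⟩ :=
    exists_frame (Fintype.equivOfCardEq hA) hc (W i₀).2 (hW i₀) U (hI i₀)
  have hO' : O * Oᵀ = 1 := (mul_eq_one_comm_of_equiv (Fintype.equivOfCardEq hc)).1 hO
  obtain ⟨c₁, c₂, c0, c1, p1, p2⟩ := peel (A := A) (R := R) (K := fun i => Fin (W i).1) ha hσ τ
    (hν i₀) (Finset.univ.erase i₀) ν hν (fun i => Oᵀ * (W i).2)
    (fun i hi k => by
      have := hU0 _ (hle i (Finset.ne_of_mem_erase hi) ⟨Pi.single k 1, rfl⟩)
      rw [mulVecLin_apply, mulVec_mulVec] at this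
      simpa using this)
    (fun i _ x hx => hW i x (by
      have := congrArg (O *ᵥ ·) hx
      simpa only [mulVec_mulVec, ← Matrix.mul_assoc, hO', Matrix.one_mul, mulVec_zero] using this))
    (by
      rcases hU1 with h | h
      · exact Or.inl h
      refine Or.inr ?_
      by_cases h2 : ∀ i ∈ Finset.univ.erase i₀, Fintype.card (Fin (W i).1) ≤ Fintype.card R
      · exact Or.inl h2
      push Not at h2
      obtain ⟨i₁, hi₁, h2⟩ := h2
      have hi₁' := Finset.ne_of_mem_erase hi₁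
      have h3 : rng (W i₁) = U := Submodule.eq_of_le_of_finrank_le (hle i₁ hi₁') (by
        have := Submodule.finrank_add_finrank_le_of_disjoint (hI i₀)
        rw [finrank_rng _ (hW _), Module.finrank_fintype_fun_eq_card, ← hU] at this
        rw [finrank_rng _ (hW _)]
        simp only [R, Fintype.card_fin] at h2
        omega)
      refine Or.inr ⟨i₁, hi₁, fun i hi hne => ⟨fun k => ?_⟩, ?_⟩
      · have h4 : (W i).2 *ᵥ Pi.single k 1 = 0 := Submodule.disjoint_def.1
          (hI.pairwiseDisjoint hne) _ ⟨Pi.single k 1, rfl⟩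
          (h3.ge (hle i (Finset.ne_of_mem_erase hi) ⟨Pi.single k 1, rfl⟩))
        simpa using congrFun (hW i _ h4) k
      · rw [← h3] at h
        obtain ⟨ξ, hξ⟩ := h
        refine ⟨ξ, ?_⟩
        rw [mulVecLin_apply] at hξ
        rw [← mulVec_mulVec, hξ, mulVec_mulVec, hO, one_mulVec])
  obtain ⟨δ, hδ, hd⟩ := det_change g hA hg
  let w' : Blk ι := ⟨(W i₀).1 - 1, O * V1 A R⟩
  have key := ih (N - 1) (by
      have := Finset.single_le_sum (f := fun i => (W i).1) (fun _ _ => Nat.zero_le _)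
        (Finset.mem_univ i₀)
      omega) (Function.update W i₀ w') (by
      rw [← hN, ← Finset.add_sum_erase _ _ (Finset.mem_univ i₀),
        ← Finset.add_sum_erase _ _ (Finset.mem_univ i₀), Function.update_self,
        Finset.sum_congr rfl fun i hi => by
          rw [Function.update_of_ne (Finset.ne_of_mem_erase hi)]]
      simp only [w']
      omega)
    (fun i => by
      by_cases hi : i = i₀
      · subst hi
        rw [Function.update_self]
        intro x hx
        have := congrArg (Oᵀ *ᵥ ·) hx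
        simp only [w', mulVec_mulVec, ← Matrix.mul_assoc, hO, Matrix.one_mul, mulVec_zero] at this
        funext j
        simpa [V1, U0, mulVec, dotProduct, Pi.single_apply] using
          congrFun this (some (some (Sum.inl j)))
      · rw [Function.update_of_ne hi]
        exact hW i)
    (hI.mono fun i => by
      by_cases hi : i = i₀
      · subst hi
        simp only [Function.update_self]
        rintro _ ⟨x, rfl⟩
        refine ⟨g *ᵥ ov 0 x, ?_⟩
        simp only [mulVecLin_apply, w']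
        rw [mulVec_mulVec, hVg, ← mulVec_mulVec, ← mulVec_mulVec]
        congr 1
        funext o
        cases o <;> simp [V0, V1, mulVec, dotProduct, Fintype.sum_option]
        rfl
      · simp only [Function.update_of_ne hi, le_refl])
  have s1 : ∀ (f : B → Blk ι → ℝ≥0∞), ∏ i, f i (Function.update W i₀ w' i) =
      f i₀ w' * ∏ i ∈ Finset.univ.erase i₀, f i (W i) := fun f => by
    rw [← Finset.mul_prod_erase _ _ (Finset.mem_univ i₀), Function.update_self,
      Finset.prod_congr rfl fun i hi => by rw [Function.update_of_ne (Finset.ne_of_mem_erase hi)]]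
  rw [s1 fun i w => (EW ι a 1)⁻¹ * EW ι a (FV (ν i) w.2)] at key
  simp only [fun Y => s1 fun i w => FV (ν i) w.2 Y] at key
  simp only [← Finset.mul_prod_erase _ _ (Finset.mem_univ i₀)]
  have t1 : ∀ G : Matrix ι ι ℝ → ℝ≥0∞, EW ι a (fun Y => FV (ν i₀) w'.2 Y * G Y) =
      EW _ a fun Y => FV (ν i₀) (V1 A R) Y * G (O * Y * Oᵀ) := fun G => by
    rw [EW_orth O hO hc]
    simp only [FV_conj, w', ← Matrix.mul_assoc, hO, Matrix.one_mul]
  have t2 : ∀ G : Matrix ι ι ℝ → ℝ≥0∞, pw (ν i₀) δ * EW ι a (fun Y => FV (ν i₀) (W i₀).2 Y * G Y) =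
      EW _ a fun Y => FV (ν i₀) (V0 A R σ τ) Y * G (O * Y * Oᵀ) := fun G => by
    rw [← EW_const_mul a (pw_ne_top _ _), EW_congr a
      (F' := fun Y => FV (ν i₀) ((W i₀).2 * g) Y * G Y) fun Y hY => ?_, EW_orth O hO hc]
    · simp only [FV_conj, hVg, ← Matrix.mul_assoc, hO, Matrix.one_mul]
    · have h2 : ((W i₀).2ᵀ * Y * (W i₀).2).PosSemidef := by
        simpa using hY.posSemidef.conjTranspose_mul_mul_same (W i₀).2
      rw [← mul_assoc, FV, FV, ← pw_mul' _ hδ.le h2.det_nonneg, ← hd]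
      simp only [transpose_mul, Matrix.mul_assoc]
  have t3 := t1 1
  have t4 := t2 1
  simp only [Pi.one_apply, mul_one] at t3 t4
  simp only [← FV_conj] at p1
  rw [← t1 fun Y => ∏ i ∈ Finset.univ.erase i₀, FV (ν i) (W i).2 Y,
    ← t2 fun Y => ∏ i ∈ Finset.univ.erase i₀, FV (ν i) (W i).2 Y] at p1
  have p3 : c₂ * (pw (ν i₀) δ * EW ι a (FV (ν i₀) (W i₀).2)) ≤ c₁ * EW ι a (FV (ν i₀) w'.2) := by
    convert p2 using 2
  have d0 : pw (ν i₀) δ ≠ 0 := by simpa [pw] using Real.rpow_pos_of_pos hδ _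
  refine (ENNReal.mul_le_mul_iff_right (mul_ne_zero c0 d0)
    (ENNReal.mul_ne_top c1 (pw_ne_top _ _))).1 ?_
  set Q := ∏ i ∈ Finset.univ.erase i₀, (EW ι a 1)⁻¹ * EW ι a (FV (ν i) (W i).2)
  calc _ = (c₂ * (pw (ν i₀) δ * EW ι a (FV (ν i₀) (W i₀).2))) * ((EW ι a 1)⁻¹ * Q) := by ring
    _ ≤ (c₁ * EW ι a (FV (ν i₀) w'.2)) * ((EW ι a 1)⁻¹ * Q) := mul_le_mul_left p3 _
    _ = c₁ * ((EW ι a 1)⁻¹ * EW ι a (FV (ν i₀) w'.2) * Q) := by ring
    _ ≤ c₁ * _ := mul_le_mul_right key _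
    _ = (EW ι a 1)⁻¹ * (c₁ * _) := mul_left_comm _ _ _
    _ ≤ (EW ι a 1)⁻¹ * _ := mul_le_mul_right p1 _
    _ = _ := by ring

end Pool.Agent.H455Z.W
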