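import Mathlib
import Pool.Agent.H455Z.W10

set_option autoImplicit false
set_option maxHeartbeats 400000

open MeasureTheory Matrix Filter Topology
open Set hiding diagonal
open scoped ENNReal

namespace Pool.Agent.H455Z.W

variable {ι : Type} [Fintype ι] [DecidableEq ι]

lemma measurableSet_pd : MeasurableSet {x : Sym2 ι → ℝ | (symMat x).PosDef} :=
  continuous_symMat.measurable measurableSet_posDef

lemma H_eq (α : ℝ) {S M : Matrix ι ι ℝ} (hS : S.PosDef) (hM : M * Mᵀ = S)
    (F : Matrix ι ι ℝ → ℝ≥0∞) :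
    ∫⁻ x in {x : Sym2 ι → ℝ | (symMat x).PosDef},
      ENNReal.ofReal ((symMat x).det ^ (α / 2 - ((Fintype.card ι : ℝ) + 1) / 2) *
        Real.exp (-(((1 / 2 : ℝ) • S⁻¹) * symMat x).trace)) * F (symMat x) =
      pw (α / 2) S.det * EW ι (α / 2 - ((Fintype.card ι : ℝ) + 1) / 2) fun Y => F (M * Y * Mᵀ) := by
  set a := α / 2 - ((Fintype.card ι : ℝ) + 1) / 2 with ha
  have hd := det_ne_zero_of_factor hS hM
  have hu : IsUnit M.det := Ne.isUnit hd
  have h1 := J_cong M hd ({X : Matrix ι ι ℝ | X.PosDef}.indicator fun X =>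
    ENNReal.ofReal (X.det ^ a * Real.exp (-(((1 / 2 : ℝ) • S⁻¹) * X).trace)) * F X)
  rw [← lintegral_indicator measurableSet_pd]
  refine Eq.trans (lintegral_congr fun x => ?_) (h1.trans ?_)
  · by_cases hx : (symMat x).PosDef
    · rw [indicator_of_mem (show x ∈ {x : Sym2 ι → ℝ | (symMat x).PosDef} from hx),
        indicator_of_mem (show symMat x ∈ {X : Matrix ι ι ℝ | X.PosDef} from hx)]
    · rw [indicator_of_notMem (show x ∉ {x : Sym2 ι → ℝ | (symMat x).PosDef} from hx),
        indicator_of_notMem (show symMat x ∉ {X : Matrix ι ι ℝ | X.PosDef} from hx)]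
  have h2 : S.det = |M.det| ^ 2 := by rw [← hM, det_mul, det_transpose, sq_abs, sq]
  have h3 : pw (α / 2) S.det = ENNReal.ofReal (|M.det| ^ (Fintype.card ι + 1)) * pw a S.det := by
    rw [show α / 2 = ((Fintype.card ι : ℝ) + 1) / 2 + a by rw [ha]; ring, pw_add _ _ hS.det_pos]
    congr 1
    rw [pw, h2, ← Real.rpow_natCast, ← Real.rpow_natCast, ← Real.rpow_mul (abs_nonneg _)]
    congr 2
    push_cast
    ring
  rw [h3, mul_assoc, EW, J, J, ← lintegral_const_mul' _ _ (pw_ne_top _ _)]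
  congr 1
  refine lintegral_congr fun x => ?_
  by_cases hx : (symMat x).PosDef
  · have h4 : (((1 / 2 : ℝ) • S⁻¹) * (M * symMat x * Mᵀ)).trace = (symMat x).trace / 2 := by
      rw [← hM, Matrix.mul_inv_rev, Matrix.smul_mul, trace_smul, ← Matrix.mul_assoc,
        trace_mul_comm, ← Matrix.mul_assoc, ← Matrix.mul_assoc, ← Matrix.mul_assoc,
        mul_nonsing_inv _ (by rwa [det_transpose]), Matrix.one_mul, nonsing_inv_mul _ hu,
        Matrix.one_mul, smul_eq_mul]
      ring
    have h5 : (M * symMat x * Mᵀ).det = S.det * (symMat x).det := by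
      rw [← hM, det_mul, det_mul, det_mul]
      ring
    rw [indicator_of_mem (show M * symMat x * Mᵀ ∈ {X : Matrix ι ι ℝ | X.PosDef} from
      (posDef_cong hd).2 hx), wtM_of_posDef a hx, h4, h5,
      ENNReal.ofReal_mul (Real.rpow_nonneg (mul_pos hS.det_pos hx.det_pos).le _), ← neg_div]
    change pw a _ * gam _ * _ = _
    rw [pw_mul _ hS.det_pos hx.det_pos]
    ring
  · rw [indicator_of_notMem (show M * symMat x * Mᵀ ∉ {X : Matrix ι ι ℝ | X.PosDef} from
      fun h => hx ((posDef_cong hd).1 h)), wtM_of_not a hx, zero_mul, mul_zero]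

lemma H_scalar (α : ℝ) {c : ℝ} (hc : 0 < c) :
    ∫⁻ x in {x : Sym2 ι → ℝ | (symMat x).PosDef},
      ENNReal.ofReal ((symMat x).det ^ (α / 2 - ((Fintype.card ι : ℝ) + 1) / 2) *
        Real.exp (-((symMat x).trace / (2 * c)))) =
      pw (α / 2) (c • (1 : Matrix ι ι ℝ)).det *
        EW ι (α / 2 - ((Fintype.card ι : ℝ) + 1) / 2) 1 := by
  have hS : (c • (1 : Matrix ι ι ℝ)).PosDef := PosDef.one.smul hc
  obtain ⟨M, hM⟩ := exists_factor hS.posSemidef
  have h := H_eq α hS hM 1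
  have h1 : (c • (1 : Matrix ι ι ℝ))⁻¹ = c⁻¹ • 1 := inv_eq_left_inv (by
    rw [Matrix.smul_mul, Matrix.mul_smul, smul_smul, inv_mul_cancel₀ hc.ne', one_smul,
      Matrix.one_mul])
  simp only [Pi.one_apply, mul_one, h1, Matrix.smul_mul, Matrix.one_mul, trace_smul,
    smul_eq_mul] at h
  refine Eq.trans (lintegral_congr fun x => ?_) h
  congr 4
  field_simp

lemma mvGamma_eq {α : ℝ} : mvGamma ι (α / 2) =
    ((1 / 2 : ℝ) • (1 : Matrix ι ι ℝ)).det ^ (α / 2) *
      (EW ι (α / 2 - ((Fintype.card ι : ℝ) + 1) / 2) 1).toReal := by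
  have hS : ((1 / 2 : ℝ) • (1 : Matrix ι ι ℝ)).PosDef := PosDef.one.smul (by norm_num)
  have h := H_scalar (ι := ι) α (show (0 : ℝ) < 1 / 2 by norm_num)
  simp only [show (2 : ℝ) * (1 / 2) = 1 by norm_num, div_one] at h
  have m1 : Measurable fun x : Sym2 ι → ℝ => (symMat x).det :=
    (by fun_prop : Continuous _).measurable
  have m2 : Measurable fun x : Sym2 ι → ℝ => (symMat x).trace :=
    (by fun_prop : Continuous _).measurable
  rw [mvGamma, integral_eq_lintegral_of_nonneg_ae, h, ENNReal.toReal_mul, pw,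
    ENNReal.toReal_ofReal (Real.rpow_nonneg hS.det_pos.le _)]
  · filter_upwards [ae_restrict_mem measurableSet_pd] with x hx
    exact mul_nonneg (Real.rpow_nonneg (PosDef.det_pos hx).le _) (Real.exp_pos _).le
  · exact Measurable.aestronglyMeasurable (by fun_prop)

lemma lintegral_wishart {α : ℝ} (hα : (Fintype.card ι : ℝ) - 1 < α) {S M : Matrix ι ι ℝ}
    (hS : S.PosDef) (hM : M * Mᵀ = S) {F : Matrix ι ι ℝ → ℝ≥0∞} (hF : Measurable F) :
    ∫⁻ x, F (symMat x) ∂(wishart α S) =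
      (EW ι (α / 2 - ((Fintype.card ι : ℝ) + 1) / 2) 1)⁻¹ *
        EW ι (α / 2 - ((Fintype.card ι : ℝ) + 1) / 2) fun Y => F (M * Y * Mᵀ) := by
  obtain ⟨e0, e1⟩ := EW_one ι (α / 2 - ((Fintype.card ι : ℝ) + 1) / 2) (by linarith)
  have m1 : Measurable fun x : Sym2 ι → ℝ => (symMat x).det :=
    (by fun_prop : Continuous _).measurable
  have m2 : Measurable fun x : Sym2 ι → ℝ => (((1 / 2 : ℝ) • S⁻¹) * symMat x).trace :=
    (by fun_prop : Continuous _).measurable
  have h1 : ((2 : ℝ) • S).det ^ (α / 2) * mvGamma ι (α / 2) =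
      S.det ^ (α / 2) * (EW ι (α / 2 - ((Fintype.card ι : ℝ) + 1) / 2) 1).toReal := by
    have hS1 : ((1 / 2 : ℝ) • (1 : Matrix ι ι ℝ)).PosDef := PosDef.one.smul (by norm_num)
    have hS2 : ((2 : ℝ) • S).PosDef := hS.smul (by norm_num)
    rw [mvGamma_eq, ← mul_assoc, ← Real.mul_rpow hS2.det_pos.le hS1.det_pos.le, ← det_mul,
      Matrix.smul_mul, Matrix.mul_smul, smul_smul, Matrix.mul_one]
    norm_num
  have h2 : 0 < S.det ^ (α / 2) := Real.rpow_pos_of_pos hS.det_pos _
  have h3 := ENNReal.toReal_pos e0 e1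
  have h4 : ENNReal.ofReal (S.det ^ (α / 2)) ≠ 0 := by simpa using h2
  rw [wishart, lintegral_withDensity_eq_lintegral_mul _ (by unfold wishartDensity; fun_prop)
    (g := fun x => F (symMat x)) (hF.comp continuous_symMat.measurable)]
  simp only [Pi.mul_apply, wishartDensity, h1, ENNReal.ofReal_div_of_pos (mul_pos h2 h3),
    ENNReal.ofReal_mul h2.le, ENNReal.ofReal_toReal e1, ENNReal.div_eq_inv_mul, mul_assoc]
  rw [lintegral_const_mul' _ _ (ENNReal.inv_ne_top.2 (mul_ne_zero h4 e0)), H_eq α hS hM,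
    ENNReal.mul_inv (Or.inl h4) (Or.inl ENNReal.ofReal_ne_top)]
  rw [mul_right_comm, pw, ← mul_assoc, ENNReal.inv_mul_cancel h4 ENNReal.ofReal_ne_top, one_mul,
    mul_comm]
  simp only [mul_assoc]

omit [DecidableEq ι] in
lemma abs_entry_le {Y : Matrix ι ι ℝ} (hY : Y.PosDef) (i j : ι) : |Y i j| ≤ Y.trace := by
  classical
  have h0 : ∀ k, Y k k ≤ Y.trace := fun k =>
    Finset.single_le_sum (f := fun k => Y k k) (fun k _ => hY.posSemidef.diag_nonneg)
      (Finset.mem_univ k)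
  have hs : Y j i = Y i j := by simpa using congrFun (congrFun hY.1 i) j
  have h1 := hY.posSemidef.dotProduct_mulVec_nonneg (Pi.single i 1 + Pi.single j 1)
  have h2 := hY.posSemidef.dotProduct_mulVec_nonneg (Pi.single i 1 - Pi.single j 1)
  simp [mulVec_add, mulVec_sub, hs] at h1 h2
  rw [abs_le]
  constructor <;> linarith [h0 i, h0 j]

omit [DecidableEq ι] in
lemma FV_le {K : Type} [Fintype K] [DecidableEq K] {ν δ : ℝ} (hν : 0 ≤ ν) (hδ : 0 < δ)
    (V : Matrix ι K ℝ) : ∃ C : ℝ≥0∞, C ≠ ∞ ∧ ∀ Y : Matrix ι ι ℝ, Y.PosDef →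
      FV ν V Y ≤ C * ENNReal.ofReal (Real.exp (δ * Y.trace)) := by
  set c := ∑ i, ∑ k, |V i k|
  have hc0 : 0 ≤ c := by positivity
  have hc : ∀ k, ∑ i, |V i k| ≤ c := fun k => Finset.sum_le_sum fun i _ =>
    Finset.single_le_sum (f := fun k => |V i k|) (fun _ _ => abs_nonneg _) (Finset.mem_univ k)
  obtain ⟨C, hC0, hC⟩ := rpow_le_exp (ν := Fintype.card K * ν) (k := c * c) (by positivity)
    (by positivity) hδ
  refine ⟨pw ν (Fintype.card K).factorial * ENNReal.ofReal C,
    ENNReal.mul_ne_top (pw_ne_top _ _) ENNReal.ofReal_ne_top, fun Y hY => ?_⟩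
  have ht : 0 ≤ Y.trace := hY.posSemidef.trace_nonneg
  have h1 : ∀ k l, AbsoluteValue.abs ((Vᵀ * Y * V) k l) ≤ 1 + c * c * Y.trace := fun k l => by
    have h2 : ∀ j, |(Vᵀ * Y) k j| ≤ c * Y.trace := fun j => by
      rw [Matrix.mul_apply]
      refine (Finset.abs_sum_le_sum_abs _ _).trans (le_trans ?_
        (mul_le_mul_of_nonneg_right (hc k) ht))
      rw [Finset.sum_mul]
      exact Finset.sum_le_sum fun i _ => by
        rw [abs_mul]
        exact mul_le_mul_of_nonneg_left (abs_entry_le hY i j) (abs_nonneg _)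
    rw [AbsoluteValue.abs_apply, Matrix.mul_apply]
    refine (Finset.abs_sum_le_sum_abs _ _).trans ?_
    calc _ ≤ ∑ j, c * Y.trace * |V j l| := Finset.sum_le_sum fun j _ => by
          rw [abs_mul]
          exact mul_le_mul_of_nonneg_right (h2 j) (abs_nonneg _)
      _ ≤ c * Y.trace * c := by
          rw [← Finset.mul_sum]
          exact mul_le_mul_of_nonneg_left (hc l) (by positivity)
      _ ≤ _ := by linarith
  have h3 := det_le h1
  rw [AbsoluteValue.abs_apply, nsmul_eq_mul] at h3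
  have h4 : (Vᵀ * Y * V).PosSemidef := by simpa using hY.posSemidef.conjTranspose_mul_mul_same V
  refine (pw_mono hν h4.det_nonneg ((le_abs_self _).trans h3)).trans ?_
  rw [pw_mul' _ (by positivity) (by positivity), mul_assoc (pw _ _), ← ENNReal.ofReal_mul hC0]
  refine mul_le_mul_right (ENNReal.ofReal_le_ofReal ?_) _
  rw [← Real.rpow_natCast, ← Real.rpow_mul (by positivity)]
  exact hC _ ht

lemma EW_prod_ne_top {B : Type} {K : B → Type} [∀ i, Fintype (K i)] [∀ i, DecidableEq (K i)]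
    {α : ℝ} (hα : (Fintype.card ι : ℝ) - 1 < α) (T : Finset B) (ν : B → ℝ) (hν : ∀ i, 0 ≤ ν i)
    (V : ∀ i, Matrix ι (K i) ℝ) :
    EW ι (α / 2 - ((Fintype.card ι : ℝ) + 1) / 2) (fun Y => ∏ i ∈ T, FV (ν i) (V i) Y) ≠ ∞ := by
  obtain ⟨-, e1⟩ := EW_one ι (α / 2 - ((Fintype.card ι : ℝ) + 1) / 2) (by linarith)
  have hδ : (0 : ℝ) < 1 / (4 * (T.card + 1)) := by positivity
  choose C hC1 hC using fun i => FV_le (hν i) hδ (V i)
  have h := H_scalar (ι := ι) α (show (0 : ℝ) < 2 by norm_num)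
  refine ne_top_of_le_ne_top (ENNReal.mul_ne_top (ENNReal.prod_ne_top fun i (_ : i ∈ T) => hC1 i)
    (ENNReal.mul_ne_top (pw_ne_top _ _) e1)) (le_of_le_of_eq ?_ (congrArg _ h))
  rw [← lintegral_indicator measurableSet_pd,
    ← lintegral_const_mul' _ _ (ENNReal.prod_ne_top fun i (_ : i ∈ T) => hC1 i)]
  refine lintegral_mono fun x => ?_
  by_cases hx : (symMat x).PosDef
  · have ht : 0 ≤ (symMat x).trace := hx.posSemidef.trace_nonneg
    dsimp only
    rw [indicator_of_mem (show x ∈ {x : Sym2 ι → ℝ | (symMat x).PosDef} from hx),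
      wtM_of_posDef _ hx, ENNReal.ofReal_mul (Real.rpow_nonneg hx.det_pos.le _)]
    refine (mul_le_mul_right (Finset.prod_le_prod' fun i _ => hC i _ hx) _).trans ?_
    rw [Finset.prod_mul_distrib, Finset.prod_const, mul_left_comm, mul_assoc, gam,
      ← ENNReal.ofReal_pow (Real.exp_pos _).le, ← ENNReal.ofReal_mul (Real.exp_pos _).le,
      ← Real.exp_nat_mul, ← Real.exp_add]
    refine mul_le_mul_right (mul_le_mul_right (ENNReal.ofReal_le_ofReal
      (Real.exp_le_exp.2 ?_)) _) _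
    have h1 : (T.card : ℝ) * (1 / (4 * (T.card + 1))) ≤ 1 / 4 := by
      rw [mul_one_div, div_le_div_iff₀ (by positivity) (by norm_num)]
      linarith
    nlinarith [mul_le_mul_of_nonneg_right h1 ht]
  · simp [wtM_of_not _ hx]

theorem wishart_ineq {B : Type} [Fintype B] [DecidableEq B] (blk : ι → B) {α : ℝ}
    (hα : (Fintype.card ι : ℝ) - 1 < α) {S : Matrix ι ι ℝ} (hS : S.PosDef) (ν : B → ℝ)
    (hν : ∀ i, 0 ≤ ν i) :
    IsProbabilityMeasure (wishart α S) ∧
      (∀ i, Integrable (fun x => ((symMat x).toSquareBlock blk i).det ^ ν i) (wishart α S)) ∧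
      Integrable (fun x => ∏ i, ((symMat x).toSquareBlock blk i).det ^ ν i) (wishart α S) ∧
      ∏ i, ∫ x, ((symMat x).toSquareBlock blk i).det ^ ν i ∂(wishart α S) ≤
        ∫ x, ∏ i, ((symMat x).toSquareBlock blk i).det ^ ν i ∂(wishart α S) := by
  obtain ⟨e0, e1⟩ := EW_one ι (α / 2 - ((Fintype.card ι : ℝ) + 1) / 2) (by linarith)
  obtain ⟨M, hM⟩ := exists_factor hS.posSemidef
  have hu : IsUnit Mᵀ.det := by
    rw [det_transpose]
    exact Ne.isUnit (det_ne_zero_of_factor hS hM)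
  let e : ∀ i, Fin (Fintype.card {c // blk c = i}) ≃ {c // blk c = i} := fun i =>
    (Fintype.equivFin _).symm
  let E : ∀ i, Matrix ι (Fin (Fintype.card {c // blk c = i})) ℝ := fun i =>
    (1 : Matrix ι ι ℝ).submatrix id fun k => (e i k).1
  let W : B → Blk ι := fun i => ⟨_, Mᵀ * E i⟩
  have E1 : ∀ i x k, (E i *ᵥ x) (e i k).1 = x k := fun i x k => by
    simp [E, mulVec, dotProduct, one_apply, Subtype.val_inj]
  have E2 : ∀ i x c, blk c ≠ i → (E i *ᵥ x) c = 0 := fun i x c hc => by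
    have : ∀ k, c ≠ (e i k).1 := fun k h => hc (h ▸ (e i k).2)
    simp [E, mulVec, dotProduct, one_apply, this]
  have hM0 : ∀ y, Mᵀ *ᵥ y = 0 → y = 0 := fun y hy => by
    have := congrArg (Mᵀ⁻¹ *ᵥ ·) hy
    simpa only [mulVec_mulVec, nonsing_inv_mul _ hu, one_mulVec, mulVec_zero] using this
  have key := main_ineq (a := α / 2 - ((Fintype.card ι : ℝ) + 1) / 2) (by linarith) ν hν _ W rfl
    (fun i x hx => by
      funext k
      have := hM0 (E i *ᵥ x) (by rw [mulVec_mulVec]; exact hx)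
      rw [← E1 i x k, this]
      rfl)
    (by
      rw [iSupIndep_iff_finsetSum_eq_zero_imp_eq_zero]
      intro s v hv h0 i hi
      choose! x hx using fun i (hi : i ∈ s) => show ∃ x, Mᵀ *ᵥ (E i *ᵥ x) = v i by
        obtain ⟨x, hx⟩ := hv i hi
        exact ⟨x, by rw [mulVec_mulVec]; exact hx⟩
      have h1 : ∑ j ∈ s, E j *ᵥ x j = 0 := hM0 _ (by
        rw [mulVec_sum, ← h0]
        exact Finset.sum_congr rfl hx)
      have h2 : x i = 0 := by
        funext k
        have := congrFun h1 (e i k).1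
        rw [Finset.sum_apply, Finset.sum_eq_single_of_mem i hi fun j _ hj =>
          E2 j _ _ (by rw [(e i k).2]; exact hj.symm), E1] at this
        exact this
      rw [← hx i hi, h2, mulVec_zero, mulVec_zero])
  have hd : ∀ i (X : Matrix ι ι ℝ), pw (ν i) (X.toSquareBlock blk i).det = FV (ν i) (E i) X := by
    intro i X
    rw [FV, ← det_submatrix_equiv_self (e i)]
    congr 2
    ext k l
    simp [E, Matrix.mul_apply, one_apply, toSquareBlock_def]
  have hc : ∀ i (Y : Matrix ι ι ℝ), FV (ν i) (E i) (M * Y * Mᵀ) = FV (ν i) (W i).2 Y :=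
    fun i Y => FV_conj _ _ _ _
  have mp : ∀ T : Finset B, Measurable fun Y => ∏ i ∈ T, FV (ν i) (E i) Y := fun T =>
    Finset.measurable_prod _ fun i _ => measurable_F _ _
  have ae : ∀ᵐ x ∂(wishart α S), (symMat x).PosDef :=
    (withDensity_absolutelyContinuous _ _).ae_le (ae_restrict_mem measurableSet_pd)
  have nn : ∀ (T : Finset B), 0 ≤ᵐ[wishart α S]
      fun x => ∏ i ∈ T, ((symMat x).toSquareBlock blk i).det ^ ν i := fun T => by
    filter_upwards [ae] with x hx
    exact Finset.prod_nonneg fun i _ => Real.rpow_nonneg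
      (hx.submatrix (e := Subtype.val) Subtype.val_injective).det_pos.le _
  have mm : ∀ (T : Finset B), AEStronglyMeasurable
      (fun x => ∏ i ∈ T, ((symMat x).toSquareBlock blk i).det ^ ν i) (wishart α S) := fun T => by
    refine (Finset.measurable_prod _ fun i _ => Measurable.pow_const ?_ _).aestronglyMeasurable
    exact (continuous_symMat.matrix_submatrix Subtype.val Subtype.val).matrix_det.measurable
  have li : ∀ T : Finset B, ∫⁻ x, ENNReal.ofReal
      (∏ i ∈ T, ((symMat x).toSquareBlock blk i).det ^ ν i) ∂(wishart α S) =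
      (EW ι (α / 2 - ((Fintype.card ι : ℝ) + 1) / 2) 1)⁻¹ *
        EW ι (α / 2 - ((Fintype.card ι : ℝ) + 1) / 2) fun Y => ∏ i ∈ T, FV (ν i) (W i).2 Y := by
    intro T
    simp only [← hc]
    rw [← lintegral_wishart hα hS hM (mp T)]
    refine lintegral_congr_ae ?_
    filter_upwards [ae] with x hx
    rw [ENNReal.ofReal_prod_of_nonneg fun i _ => ?_]
    · exact Finset.prod_congr rfl fun i _ => hd i _
    · exact Real.rpow_nonneg
        (hx.submatrix (e := Subtype.val) Subtype.val_injective).det_pos.le _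
  have fin : ∀ T : Finset B, (EW ι (α / 2 - ((Fintype.card ι : ℝ) + 1) / 2) 1)⁻¹ *
      EW ι (α / 2 - ((Fintype.card ι : ℝ) + 1) / 2) (fun Y => ∏ i ∈ T, FV (ν i) (W i).2 Y) ≠ ∞ :=
    fun T => ENNReal.mul_ne_top (ENNReal.inv_ne_top.2 e0)
      (EW_prod_ne_top (K := fun i => Fin (W i).1) hα T ν hν fun i => (W i).2)
  have int : ∀ T : Finset B, Integrable
      (fun x => ∏ i ∈ T, ((symMat x).toSquareBlock blk i).det ^ ν i) (wishart α S) := fun T =>
    ⟨mm T, (hasFiniteIntegral_iff_ofReal (nn T)).2 (by rw [li]; exact (fin T).lt_top)⟩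
  refine ⟨⟨?_⟩, fun i => by simpa using int {i}, int _, ?_⟩
  · have := li ∅
    simp only [Finset.prod_empty, ENNReal.ofReal_one, lintegral_const, one_mul] at this
    rw [this]
    exact ENNReal.inv_mul_cancel e0 e1
  · have h1 : ∀ i, ∫ x, ((symMat x).toSquareBlock blk i).det ^ ν i ∂(wishart α S) =
        ((EW ι (α / 2 - ((Fintype.card ι : ℝ) + 1) / 2) 1)⁻¹ *
          EW ι (α / 2 - ((Fintype.card ι : ℝ) + 1) / 2) (FV (ν i) (W i).2)).toReal := fun i => by
      have := integral_eq_lintegral_of_nonneg_ae (nn {i}) (mm {i})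
      rw [li] at this
      simpa using this
    rw [integral_eq_lintegral_of_nonneg_ae (nn _) (mm _), li, Finset.prod_congr rfl fun i _ => h1 i,
      ← ENNReal.toReal_prod]
    exact ENNReal.toReal_mono (fin _) key

end Pool.Agent.H455Z.W
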